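import Pool.Agent.Lib.MP_b5021c_nt.DCM.H61.Kron
import Mathlib.Algebra.Polynomial.Expand
import Mathlib.RingTheory.PowerSeries.Basic

/-!
# MP_b5021c_nt, board b5, chapter DCM: Laurent polynomials and polynomials (helper61)
-/

set_option linter.unusedSectionVars false

namespace Pool.Agent.B5.Dcm

open scoped LaurentPolynomial
open Pool.Agent.B5 Pool.Agent.B5.H83 Pool.Agent.B5.H96 Polynomial

/-- Normal form. -/
theorem lau_nf (x : RO ℤ) (hx : x ≠ 0) :
    ∃ (k : ℤ) (p : ℤ[X]), x = LaurentPolynomial.T k * toLaurent p ∧ p.coeff 0 ≠ 0 := by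
  obtain ⟨n, f, hf⟩ := LaurentPolynomial.exists_T_pow x
  have hf0 : f ≠ 0 := by
    rintro rfl
    rw [map_zero] at hf
    have h1 := (LaurentPolynomial.isUnit_T (R := ℤ) (n : ℤ)).mul_left_eq_zero.1 hf.symm
    exact hx h1
  obtain ⟨p, hp, hnd⟩ := exists_eq_pow_rootMultiplicity_mul_and_not_dvd f hf0 0
  rw [map_zero, sub_zero] at hp hnd
  refine ⟨(f.rootMultiplicity 0 : ℤ) - n, p, ?_, fun h => hnd (X_dvd_iff.2 h)⟩
  have h2 : x = toLaurent f * LaurentPolynomial.T (-(n : ℤ)) := by
    rw [hf, mul_assoc, ← LaurentPolynomial.T_add, add_neg_cancel, LaurentPolynomial.T_zero, mul_one]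
  generalize f.rootMultiplicity 0 = j at hp ⊢
  rw [h2, hp, map_mul, toLaurent_X_pow, sub_eq_add_neg, LaurentPolynomial.T_add]
  ring

theorem toLaurent_inj' {p q : ℤ[X]} (h : toLaurent p = toLaurent q) : p = q :=
  Polynomial.toLaurent_injective h

theorem toLaurent_coeff_nonneg (p : ℤ[X]) (n : ℕ) : (toLaurent p).coeff (n : ℤ) = p.coeff n := by
  induction p using Polynomial.induction_on' with
  | add p q hp hq =>
    rw [map_add, coeff_add, ← hp, ← hq]
    rfl
  | monomial k c =>
    rw [← C_mul_X_pow_eq_monomial, toLaurent_C_mul_X_pow, coeff_C_mul_X_pow]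
    rw [← LaurentPolynomial.single_eq_C_mul_T, AddMonoidAlgebra.coeff_single, Finsupp.single_apply]
    simp only [Nat.cast_inj, eq_comm]

theorem toLaurent_coeff_neg (p : ℤ[X]) (n : ℤ) (hn : n < 0) : (toLaurent p).coeff n = 0 := by
  induction p using Polynomial.induction_on' with
  | add p q hp hq =>
    rw [map_add]
    change (toLaurent p).coeff n + (toLaurent q).coeff n = 0
    rw [hp, hq, add_zero]
  | monomial k c =>
    rw [← C_mul_X_pow_eq_monomial, toLaurent_C_mul_X_pow]
    rw [← LaurentPolynomial.single_eq_C_mul_T, AddMonoidAlgebra.coeff_single, Finsupp.single_apply]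
    rw [if_neg]
    omega

theorem exL_toLaurent {m : ℕ} (p : ℤ[X]) : exL m (toLaurent p) = toLaurent (expand ℤ m p) := by
  induction p using Polynomial.induction_on' with
  | add p q hp hq => rw [map_add, map_add, map_add, map_add, hp, hq]
  | monomial k c =>
    rw [expand_monomial, ← C_mul_X_pow_eq_monomial, ← C_mul_X_pow_eq_monomial,
      toLaurent_C_mul_X_pow, toLaurent_C_mul_X_pow, ← LaurentPolynomial.single_eq_C_mul_T,
      ← LaurentPolynomial.single_eq_C_mul_T]
    change exL m (mz (k : ℤ) c) = _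
    rw [exL_mz]
    unfold mz
    congr 1
    push_cast
    ring

theorem exL_T {m : ℕ} (k : ℤ) :
    exL m (LaurentPolynomial.T k : RO ℤ) = LaurentPolynomial.T ((m : ℤ) * k) := exL_mz m k 1

/-- Divisibility of elements in `z^m`. -/
theorem exL_dvd {m : ℕ} (hm : 0 < m) {x y : RO ℤ} (h : exL m x ∣ exL m y) : x ∣ y := by
  classical
  obtain ⟨t, ht⟩ := h
  let t' : RO ℤ := AddMonoidAlgebra.ofCoeff (t.coeff.comapDomain (fun n => (m : ℤ) * n)
    (by
      intro a _ b _ hab
      have h2 : (m : ℤ) ≠ 0 := by exact_mod_cast hm.ne'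
      exact mul_left_cancel₀ h2 hab))
  have ht' : ∀ n, t'.coeff n = t.coeff ((m : ℤ) * n) := fun n => rfl
  refine ⟨t', ?_⟩
  have key : ∀ x : RO ℤ, ∀ n : ℤ, (exL m x * t).coeff ((m : ℤ) * n) = (x * t').coeff n := by
    intro x n
    let f : RO ℤ →+ ℤ :=
      { toFun := fun x => (exL m x * t).coeff ((m : ℤ) * n)
        map_zero' := by rw [map_zero, zero_mul]; rfl
        map_add' := fun a b => by rw [map_add, add_mul]; rfl }
    let f' : RO ℤ →+ ℤ :=
      { toFun := fun x => (x * t').coeff n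
        map_zero' := by rw [zero_mul]; rfl
        map_add' := fun a b => by rw [add_mul]; rfl }
    refine eq_of_single f f' x fun k _ => ?_
    change (exL m (mz k (x.coeff k)) * t).coeff ((m : ℤ) * n) = (mz k (x.coeff k) * t').coeff n
    rw [exL_mz]
    have h3 : ∀ (j : ℤ) (c : ℤ) (s : RO ℤ) (l : ℤ), (mz j c * s).coeff l = c * s.coeff (l - j) := by
      intro j c s l
      unfold mz
      rw [AddMonoidAlgebra.coeff_single_mul_eq_mul_coeff (l - j)]
      intro m' _
      constructor
      · intro h3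
        rw [← h3]
        abel
      · intro h3
        rw [h3]
        abel
    rw [h3, h3, ht', mul_sub]
  apply AddMonoidAlgebra.ext
  ext n
  rw [← key, ← ht, exL_coeff hm]

end Pool.Agent.B5.Dcm
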