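import Pool.Agent.Lib.MP_b5021c_nt.DCM.H61.Dcv

/-!
# MP_b5021c_nt, board b5, row O1_DCV (helper61)
-/

set_option linter.unusedSectionVars false

namespace Pool.Agent.B5.Dcm

open scoped LaurentPolynomial
open Pool.Agent.B5 Pool.Agent.B5.H83 Pool.Agent.B5.H96 Polynomial

theorem prim_one {L : Type} [AddCommGroup L] : Prim (1 : AO ℤ L) := by
  rintro x ⟨H, hH⟩
  have h1 := congrArg (fun F : AO ℤ L => F.coeff 0) hH
  change (1 : AO ℤ L).coeff 0 = (cst x * H).coeff 0 at h1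
  rw [H78.cstm, AddMonoidAlgebra.one_def, AddMonoidAlgebra.coeff_single,
    Finsupp.single_eq_same] at h1
  exact IsUnit.of_mul_eq_one _ h1.symm

theorem prim_prod (hPr : PrimS) {L : Type} [AddCommGroup L] [Module.Free ℤ L] [Module.Finite ℤ L]
    {n : ℕ} (G : Fin n → AO ℤ L) (hi : ∀ i, Irreducible (G i)) (hw : ∀ i, Wdep (G i)) :
    Prim (∏ i, G i) := by
  have h : ∀ s : Finset (Fin n), Prim (∏ i ∈ s, G i) := by
    intro s
    induction s using Finset.induction_on with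
    | empty =>
      rw [Finset.prod_empty]
      exact prim_one
    | insert i s his ih =>
      rw [Finset.prod_insert his]
      exact (hPr ℤ L (G i) (∏ j ∈ s, G j)).1 ((hPr ℤ L (G i) (G i)).2.1 (hi i) (hw i)) ih
  exact h Finset.univ

/-- The row with the additional hypothesis `Wdep (G i)`. -/
theorem dcv_wd (hDcm : DcmS) (hPr : PrimS) (hKe : KerEvS) (hM1 : M1S) (hMm : MmulS)
    (hA7 : A7S) (hMV : MVS) (hG0 : G0S) (hRk : RkS) (hCa : CaS)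
    {P L : Type} [Fintype P] [DecidableEq P] [AddCommGroup L]
    [Module.Free ℤ L] [Module.Finite ℤ L] (phi : L →+ (P → ℤ)) (D : AO ℤ L) (S : L) (i0 : P)
    (h : co phi i0 S = 1) (q f C1 : ℤ[X]) (e w : (RO ℤ)ˣ) (a : ℝ) (c : RO ℤ) (n0 : ℕ)
    (G : Fin n0 → AO ℤ (Ker (co phi i0))) (n m : ℕ) (g : ℕ → ℤ) (hwd : ∀ i, Wdep (G i)) :
    DD phi D → 2 ≤ Module.finrank ℤ L → Ray D S → RN D S q f e a → f.coeff 0 = 1 →
    Zfd phi D S i0 h (-e) c n0 G → C1.coeff 0 = 1 → c = (w : RO ℤ) * toLaurent C1 → 1 ≤ n →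
    f - q = C (n : ℤ) * X * C1 →
    (C1 : PowerSeries ℤ) * PowerSeries.mk g = (f : PowerSeries ℤ) → 2 ≤ m →
      ∃ (e0 e1 cm : ℤ[X]) (D' : AO ℤ L) (u0 w' : (RO ℤ)ˣ),
        e0 - e1 = C (n : ℤ) * cm ∧ cm.coeff 0 = 1 ∧
        (cm : PowerSeries ℤ) * PowerSeries.mk (fun k => g (m * k + 1)) = -(e1 : PowerSeries ℤ) ∧
        Stable D' ∧ Unitary D' ∧ Irreducible D' ∧ supp D' ⊆ supp D ∧
        (u0 : RO ℤ) * D'.coeff 0 = toLaurent (expand ℤ m e0) ∧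
        (u0 : RO ℤ) * (((-e : (RO ℤ)ˣ) : RO ℤ) * D'.coeff S) = -toLaurent (expand ℤ m e1) ∧
        ClassV ((n : ℝ) - g 1) (D'.coeff 0) ∧
        ClassV 1 ((w' : RO ℤ) * toLaurent (expand ℤ m cm)) ∧
        cl (co phi i0) S h (-e) D' = cst ((w' : RO ℤ) * toLaurent (expand ℤ m cm)) * ∏ i, G i ∧
        Module.finrank ℤ L ≤ rk (supp D') + 1 ∧ (e1 ≠ 0 → rk (supp D') = Module.finrank ℤ L) := by
  intro hD h2 hRay hRN hf0 hZ hC10 hc hn hfq hg hm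
  exact dcv_core hDcm hPr hKe hM1 hMm hA7 hMV hG0 hRk hCa phi D S i0 h q f C1 e w a c
    (∏ i, G i) n m g hD h2 hRay hRN hf0 hZ.cc hZ.eq (prim_prod hPr G hZ.irr hwd) hZ.zf hZ.dr
    hC10 hc hn hfq hg hm

end Pool.Agent.B5.Dcm
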