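import Pool.Agent.Lib.MP_b5021c_nt.DCM.H61.Ser
import Pool.Agent.Lib.MP_b5021c_nt.IfaceO1

/-!
# MP_b5021c_nt, board b5, chapter DCM: averages and class V (helper61)
-/

set_option linter.unusedSectionVars false

namespace Pool.Agent.B5.Dcm

open scoped LaurentPolynomial
open Pool.Agent.B5 Pool.Agent.B5.H83 Pool.Agent.B5.H96 Polynomial
open Pool.Agent.B5.Nr.Sch (Loc)

/-- (OI_CA) the Carathéodory function of a normalised ray (helper1, W/H1/Ca.lean). -/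
def CaS : Prop := ∀ (q f C1 : ℤ[X]) (a : ℝ) (n : ℕ), Loc q f a → f.coeff 0 = 1 →
  C1.coeff 0 = 1 → (∀ z : ℂ, ‖z‖ < 1 → aeval z C1 ≠ 0) → 1 ≤ n → f - q = C (n : ℤ) * X * C1 →
    ∃ CA : ℂ → ℂ, DifferentiableOn ℂ CA (Metric.ball 0 1) ∧
      (∀ z : ℂ, ‖z‖ < 1 → 0 ≤ (CA z).re) ∧
      CA 0 = n - 2 * ((f.coeff 1 : ℂ) - C1.coeff 1) ∧
      ∀ z : ℂ, ‖z‖ < 1 → z ≠ 0 → CA z = n + 2 * (1 - aeval z f / aeval z C1) / z - 2 * z

theorem avg_ne (hCa : CaS) {q f C1 : ℤ[X]} {a : ℝ} {n m : ℕ} (hloc : Loc q f a)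
    (hf : f.coeff 0 = 1) (hC : C1.coeff 0 = 1) (hz : ∀ z : ℂ, ‖z‖ < 1 → aeval z C1 ≠ 0)
    (hn : 1 ≤ n) (hq : f - q = C (n : ℤ) * X * C1) (hm : 2 ≤ m) (P1 CC : ℤ[X])
    (hP : P1 * C1 = expand ℤ m CC) (z : ℂ) (hz1 : ‖z‖ < 1) (hz0 : z ≠ 0)
    (hCC : aeval (z ^ m) CC ≠ 0) :
    (n : ℂ) * aeval (z ^ m) CC - aeval (z ^ m) (dc m (P1 * f)) ≠ 0 := by
  obtain ⟨CA, -, hre, -, hform⟩ := hCa q f C1 a n hloc hf hC hz hn hq
  have hm0 : m ≠ 0 := by lia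
  obtain ⟨ζ, hζ⟩ : ∃ ζ : ℂ, IsPrimitiveRoot ζ m := ⟨_, Complex.isPrimitiveRoot_exp m hm0⟩
  have hζn : ‖ζ‖ = 1 := hζ.norm'_eq_one hm0
  have hζ0 : ζ ≠ 0 := hζ.ne_zero hm0
  intro h0
  set κ : ℂ := aeval (z ^ m) CC with hκ
  have hw : ∀ i : ℕ, ‖ζ ^ i * z‖ < 1 ∧ ζ ^ i * z ≠ 0 ∧ (ζ ^ i * z) ^ m = z ^ m := by
    intro i
    refine ⟨?_, mul_ne_zero (pow_ne_zero _ hζ0) hz0, ?_⟩
    · rw [norm_mul, norm_pow, hζn, one_pow, one_mul]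
      exact hz1
    · rw [mul_pow, ← pow_mul, mul_comm i m, pow_mul, hζ.pow_eq_one, one_pow, one_mul]
  have h1 : ∀ i ∈ Finset.range m, κ * CA (ζ ^ i * z) =
      n * κ + 2 * κ * z⁻¹ * (ζ⁻¹) ^ i - 2 * (aeval (ζ ^ i * z) (P1 * f) * (ζ ^ i * z)⁻¹) -
        2 * κ * z * ζ ^ i := by
    intro i _
    obtain ⟨hw1, hw2, hw3⟩ := hw i
    have h2 : aeval (ζ ^ i * z) P1 * aeval (ζ ^ i * z) C1 = κ := by
      rw [← map_mul, hP, expand_aeval, hw3]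
    have h3 := hz _ hw1
    rw [hform _ hw1 hw2]
    have h4 : κ * (aeval (ζ ^ i * z) f / aeval (ζ ^ i * z) C1) = aeval (ζ ^ i * z) (P1 * f) := by
      rw [← h2, map_mul]
      field_simp
    have h5 : (ζ⁻¹) ^ i * z⁻¹ = (ζ ^ i * z)⁻¹ := by
      rw [mul_inv, inv_pow]
    rw [← h4, div_eq_mul_inv (2 * _), ← h5]
    ring
  have h2 : ∑ i ∈ Finset.range m, (ζ⁻¹) ^ i = 0 := hζ.inv.geom_sum_eq_zero (by lia)
  have h3 : ∑ i ∈ Finset.range m, ζ ^ i = 0 := hζ.geom_sum_eq_zero (by lia)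
  have h4 : κ * ∑ i ∈ Finset.range m, CA (ζ ^ i * z) =
      m * (n * κ) - 2 * (m * aeval (z ^ m) (dc m (P1 * f))) := by
    rw [Finset.mul_sum, Finset.sum_congr rfl h1, Finset.sum_sub_distrib, Finset.sum_sub_distrib,
      Finset.sum_add_distrib, ← Finset.mul_sum, ← Finset.mul_sum, ← Finset.mul_sum,
      ← Finset.mul_sum, h2, h3, sum_root hm hζ (P1 * f) z hz0, Finset.sum_const, Finset.card_range, nsmul_eq_mul]
    ring
  have h5 : aeval (z ^ m) (dc m (P1 * f)) = n * κ := (sub_eq_zero.1 h0).symm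
  rw [h5] at h4
  have h6 : ∑ i ∈ Finset.range m, CA (ζ ^ i * z) = -(m * n : ℂ) := by
    apply mul_left_cancel₀ hCC
    rw [h4]
    ring
  have h7 := congrArg Complex.re h6
  rw [Complex.re_sum] at h7
  have h8 : 0 ≤ ∑ i ∈ Finset.range m, (CA (ζ ^ i * z)).re :=
    Finset.sum_nonneg fun i _ => hre _ (hw i).1
  rw [h7] at h8
  have h9 : (-(m * n : ℂ)).re = -(m * n : ℝ) := by
    simp
  rw [h9] at h8
  have h10 : (0 : ℝ) < m * n := by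
    have h11 : 0 < m * n := Nat.mul_pos (by lia) (by lia)
    exact_mod_cast h11
  linarith

theorem g1_le (hCa : CaS) {q f C1 : ℤ[X]} {a : ℝ} {n : ℕ} (hloc : Loc q f a)
    (hf : f.coeff 0 = 1) (hC : C1.coeff 0 = 1) (hz : ∀ z : ℂ, ‖z‖ < 1 → aeval z C1 ≠ 0)
    (hn : 1 ≤ n) (hq : f - q = C (n : ℤ) * X * C1) (g : ℕ → ℤ)
    (hg : (C1 : PowerSeries ℤ) * PowerSeries.mk g = (f : PowerSeries ℤ)) : 1 ≤ (n : ℤ) - g 1 := by
  obtain ⟨CA, -, hre, h0, -⟩ := hCa q f C1 a n hloc hf hC hz hn hq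
  have h1 := hre 0 (by simp)
  have e0 := congrArg (PowerSeries.coeff 0) hg
  have e1 := congrArg (PowerSeries.coeff 1) hg
  rw [PowerSeries.coeff_mul, Finset.Nat.sum_antidiagonal_eq_sum_range_succ_mk] at e0 e1
  simp only [Finset.sum_range_succ, Finset.sum_range_zero, coeff_coe, PowerSeries.coeff_mk, hC, hf,
    zero_add, one_mul, Nat.sub_zero, Nat.sub_self] at e0 e1
  have e2 : f.coeff 1 = g 1 + C1.coeff 1 := by
    rw [← e1, e0, mul_one]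
  rw [h0] at h1
  have h2 : ((n : ℂ) - 2 * ((f.coeff 1 : ℂ) - C1.coeff 1)).re =
      (((n : ℤ) - 2 * (f.coeff 1 - C1.coeff 1) : ℤ) : ℝ) := by
    push_cast
    simp
  rw [h2] at h1
  have h3 : 0 ≤ (n : ℤ) - 2 * (f.coeff 1 - C1.coeff 1) := by exact_mod_cast h1
  lia

theorem classV_unit {N : ℝ} {Q : RO ℤ} (u : (RO ℤ)ˣ) (h : ClassV N Q) :
    ClassV N ((u : RO ℤ) * Q) := by
  obtain ⟨hN, n, q, rfl, h0, hz⟩ := h
  obtain ⟨k, s, hs⟩ := unit_mz u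
  refine ⟨hN, k + n, C (s : ℤ) * q, ?_, ?_, ?_⟩
  · rw [hs, map_mul, toLaurent_C]
    have h1 : (mz k (s : ℤ) : RO ℤ) = LaurentPolynomial.C (s : ℤ) * LaurentPolynomial.T k := by
      rw [← LaurentPolynomial.single_eq_C_mul_T]
      rfl
    rw [h1, LaurentPolynomial.T_add]
    ring
  · rw [coeff_C_mul, map_mul, norm_mul, h0]
    rcases Int.isUnit_iff.1 s.isUnit with h1 | h1 <;> rw [h1] <;> simp
  · intro z hz1
    rw [Polynomial.map_mul, map_C, eval_mul, eval_C]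
    refine mul_ne_zero ?_ (hz z hz1)
    rcases Int.isUnit_iff.1 s.isUnit with h1 | h1 <;> rw [h1] <;> simp

theorem emb_int (x : ℤ) : (Coef.emb x : ℂ) = x := by
  simp

theorem map_emb (p : ℤ[X]) (z : ℂ) : (p.map (Coef.emb : ℤ →+* ℂ)).eval z = aeval z p := by
  have h : (Coef.emb : ℤ →+* ℂ) = algebraMap ℤ ℂ := Subsingleton.elim _ _
  rw [h, eval_map_algebraMap]

theorem classV_poly {N : ℤ} (hN : 1 ≤ N) {F : ℤ[X]} (h0 : |F.coeff 0| = N)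
    (hz : ∀ z : ℂ, ‖z‖ < 1 → aeval z F ≠ 0) : ClassV (N : ℝ) (toLaurent F) := by
  refine ⟨by exact_mod_cast hN, 0, F, ?_, ?_, fun z hz1 => ?_⟩
  · rw [LaurentPolynomial.T_zero, one_mul]
  · rw [emb_int, Complex.norm_intCast, ← h0, Int.cast_abs]
  · rw [map_emb]
    exact hz z hz1

end Pool.Agent.B5.Dcm
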