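import Pool.Agent.Lib.MP_b5021c_nt.DCM.H61.Fac
import Pool.Agent.Lib.MP_b5021c_nt.E.H07.Mxu
import Pool.Agent.Lib.MP_b5021c_nt.IfaceE0

/-!
# MP_b5021c_nt, board b5, chapter DCM: DECIMATION (helper61)
-/

set_option linter.unusedSectionVars false

namespace Pool.Agent.B5.Dcm

open scoped LaurentPolynomial
open Pool.Agent.B5 Pool.Agent.B5.H83 Pool.Agent.B5.H07 Pool.Agent.B5.H96

section

variable {O : Type} [CommRing O] [IsDomain O] [IsPrincipalIdealRing O] [Coef O] {P : Type}
  [Fintype P] [DecidableEq P] {L : Type} [AddCommGroup L] [Module.Free ℤ L] [Module.Finite ℤ L]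
  {Q : Type} [AddCommGroup Q]

theorem pos_prod (hC0 : Coeff0S) (mu : L →+ ℤ) {n : ℕ} (G : Fin n → AO O L)
    (hG : ∀ i, Pos mu (G i)) (h0 : ∀ i, (G i).coeff 0 ≠ 0) (s : Finset (Fin n)) :
    Pos mu (∏ i ∈ s, G i) ∧ (∏ i ∈ s, G i).coeff 0 ≠ 0 := by
  classical
  induction s using Finset.induction_on with
  | empty =>
    rw [Finset.prod_empty]
    constructor
    · intro a ha ha0
      exfalso
      rw [Finsupp.mem_support_iff, AddMonoidAlgebra.one_def, AddMonoidAlgebra.coeff_single,
        Finsupp.single_apply, if_neg (fun h => ha0 h.symm)] at ha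
      exact ha rfl
    · rw [AddMonoidAlgebra.one_def, AddMonoidAlgebra.coeff_single, Finsupp.single_eq_same]
      exact one_ne_zero
  | insert i s hi ih =>
    rw [Finset.prod_insert hi]
    obtain ⟨h1, h2⟩ := hC0 O L (G i) (∏ j ∈ s, G j) mu (hG i) ih.1
    exact ⟨h2, by rw [h1]; exact mul_ne_zero (h0 i) ih.2⟩

theorem cst_pos (hC0 : Coeff0S) (mu : L →+ ℤ) (c : RO O) (hc : c ≠ 0) (G : AO O L)
    (hG : Pos mu G) (h0 : G.coeff 0 ≠ 0) : Pos mu (cst c * G) ∧ (cst c * G).coeff 0 ≠ 0 := by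
  constructor
  · intro a ha ha0
    apply hG a _ ha0
    rw [Finsupp.mem_support_iff, cst_mul_coeff] at ha
    rw [Finsupp.mem_support_iff]
    exact right_ne_zero_of_mul ha
  · rw [cst_mul_coeff]
    exact mul_ne_zero hc h0

variable {phi : L →+ (P → ℤ)} {D : AO O L} {S : L} {i0 : P} {eta : (RO O)ˣ}
  {h : co phi i0 S = 1} {g : Q} {l : L →+ Q} {r : Q} {p : RO O}

/-- THE HOMOGENEOUS PART IS IRREDUCIBLE UP TO CONTENT. -/
theorem E_irr [Fintype Q] [Fintype (AddChar Q Circle)] (h2 : MultiS) (h3 : StSpecS)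
    (h5 : B2cS) (h6 : G0S) (h7 : EvRS) (hA : A3bS) (hZ : ZfinS) (hM : MinS) (hSl : SlMulS)
    (hC0 : Coeff0S) (hC1a : C1aS) (hC1b : C1bS) (hPr : PrimS) (hFa : FactS) (hWW : WWfS)
    (H : DC phi D S i0 eta h g l r p) :
    ∃ (c1 : RO O) (D' : AO O L), c1 ≠ 0 ∧ dcm g l r (cst p * D) = cst c1 * D' ∧
      Stable D' ∧ Unitary D' ∧ Irreducible D' := by
  classical
  obtain ⟨lam, hlS, hlam⟩ := H.cc.ray.2.2
  have hD := H.cc.dd
  have hSt := E_stable h2 h3 h5 h6 h7 hA hZ H
  have hUn := E_unitary h6 H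
  have hPosE := pos_E H hlS hlam
  obtain ⟨c, n, G, hc, hE, hG⟩ := hFa O L _ hSt hUn
  have hE0 : dcm g l r (cst p * D) ≠ 0 := by
    intro h0
    apply hSt.1
    rw [h0]
    rfl
  set mu := lam + co phi i0 with hmu
  have hGpos : ∀ i, Pos mu (G i) := fun i => ((hG i).2.2.2.2 mu).2 hPosE |>.2.1
  have hG0 : ∀ i, (G i).coeff 0 ≠ 0 := fun i => (hG i).2.2.1.1
  have hkE : Nn (co phi i0) (dcm g l r (cst p * D)) := by
    intro a ha
    have h8 := hD.bin a (supp_E (Finsupp.mem_support_iff.1 ha)) i0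
    change 0 ≤ phi a i0
    omega
  have hkG : ∀ i, Nn (co phi i0) (G i) := fun i => ((hG i).2.2.2.2 (co phi i0)).1 hkE
  -- no factor is free of the port
  have hno : ∀ i, ¬ ∀ a ∈ supp (G i), co phi i0 a = 0 := by
    intro i hi
    have hprod : dcm g l r (cst p * D) = G i * (cst c * ∏ j ∈ Finset.univ.erase i, G j) := by
      rw [hE, ← Finset.mul_prod_erase Finset.univ G (Finset.mem_univ i)]
      ring
    exact factor_false h2 h3 h5 h6 h7 hZ hM hSl hC1a hC1b hPr H lam hlS hlam (G i) _ hprod hE0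
      (hG i).1 (hG i).2.1 (((hG i).2.2.2.2 mu).2 hPosE) hi
  -- there is a factor
  have hn0 : n ≠ 0 := by
    rintro rfl
    obtain ⟨t, ht, hkt⟩ := E_top h6 H hSt.1
    rw [hE, Finset.univ_eq_empty, Finset.prod_empty, mul_one] at ht
    have ht' : (cst c : AO O L).coeff t ≠ 0 := ht
    unfold cst at ht'
    rw [AddMonoidAlgebra.coeff_single, Finsupp.single_apply] at ht'
    by_cases h8 : (0 : L) = t
    · rw [← h8, map_zero] at hkt
      omega
    · rw [if_neg h8] at ht'
      exact ht' rfl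
  -- there is only one
  have hn1 : n = 1 := by
    by_contra hne
    let i : Fin n := ⟨0, by omega⟩
    let j : Fin n := ⟨1, by omega⟩
    have hij : j ∈ Finset.univ.erase i := by
      rw [Finset.mem_erase]
      exact ⟨by simp [i, j], Finset.mem_univ _⟩
    set W := cst c * ∏ j ∈ Finset.univ.erase i, G j with hW
    have hprod : dcm g l r (cst p * D) = G i * W := by
      rw [hE, ← Finset.mul_prod_erase Finset.univ G (Finset.mem_univ i)]
      ring
    have hp1 := pos_prod hC0 mu G hGpos hG0 (Finset.univ.erase i)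
    have hp2 := cst_pos hC0 mu c hc _ hp1.1 hp1.2
    have hww := hWW O P L phi ∅ Finset.univ (G i) W (by
        intro a ha
        rw [← hprod] at ha
        have h8 := hD.bin a (supp_E ha)
        refine ⟨fun j _ => h8 j, Or.inl fun i hi => absurd hi (Finset.notMem_empty i),
          fun j _ hj => absurd (Finset.mem_univ j) hj⟩) (hG0 i) hp2.2
    rcases hww.2 i0 (Finset.mem_univ i0) with h8 | h8
    · exact hno i h8
    · apply hno j
      have hW2 : W = G j * (cst c * ∏ j ∈ (Finset.univ.erase i).erase j, G j) := by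
        rw [hW, ← Finset.mul_prod_erase (Finset.univ.erase i) G hij]
        ring
      have hp3 := pos_prod hC0 mu G hGpos hG0 ((Finset.univ.erase i).erase j)
      have hp4 := cst_pos hC0 mu c hc _ hp3.1 hp3.2
      intro a ha
      have hGj : G j ≠ 0 := by
        intro h9
        apply hG0 j
        rw [h9]
        rfl
      have h10 := hM O L (G j) (cst c * ∏ j ∈ (Finset.univ.erase i).erase j, G j) hGj hp4.2
        (-(co phi i0)) 0 (by
          intro b hb
          rw [← hW2] at hb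
          have h11 : co phi i0 b = 0 := h8 b hb
          rw [AddMonoidHom.neg_apply, h11, neg_zero]) a ha
      have h11 := hkG j a (Finsupp.mem_support_iff.2 ha)
      rw [AddMonoidHom.neg_apply] at h10
      omega
  subst hn1
  refine ⟨c, G 0, hc, ?_, (hG 0).2.2.1, (hG 0).2.2.2.1, (hG 0).1⟩
  rw [hE]
  simp

end

section ranks

variable {O : Type} [CommRing O] [IsDomain O] {L : Type} [AddCommGroup L] [Module.Free ℤ L]
  [Module.Finite ℤ L]

theorem supp_cst {c : RO O} (hc : c ≠ 0) (G : AO O L) : supp (cst c * G) = supp G := by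
  ext a
  change (cst c * G).coeff a ≠ 0 ↔ G.coeff a ≠ 0
  rw [cst_mul_coeff]
  constructor
  · exact right_ne_zero_of_mul
  · exact mul_ne_zero hc

theorem supp_cl (k : L →+ ℤ) (S : L) (h : k S = 1) (eta : (RO O)ˣ) (G : AO O L) :
    supp (cl k S h eta G) ⊆ prj k S h '' supp G := by
  classical
  intro b hb
  by_contra hcon
  apply hb
  let f : AO O L →+ RO O :=
    { toFun := fun G => (cl k S h eta G).coeff b
      map_zero' := by rw [map_zero]; rfl
      map_add' := fun p q => by rw [map_add, AddMonoidAlgebra.coeff_add]; rfl }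
  have : f G = (0 : AO O L →+ RO O) G := by
    refine eq_of_single f 0 G fun a ha => ?_
    change (cl k S h eta (AddMonoidAlgebra.single a (G.coeff a))).coeff b = 0
    rw [cl_single, AddMonoidAlgebra.coeff_single, Finsupp.single_apply, if_neg]
    intro h9
    exact hcon ⟨a, ha, h9⟩
  exact this

theorem rk_cl (hR : RkS) (k : L →+ ℤ) (S : L) (h : k S = 1) (eta : (RO O)ˣ) (G : AO O L) :
    rk (supp (cl k S h eta G)) ≤ rk (supp G) ∧
      (S ∈ supp G → rk (supp (cl k S h eta G)) + 1 ≤ rk (supp G)) := by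
  constructor
  · exact ((hR (Ker k) (Ker k)).2.1 _ _ (supp_cl k S h eta G)).trans
      ((hR L (Ker k)).2.2.2.2.1 (prj k S h) (supp G))
  · intro hS
    set T := supp (cl k S h eta G) with hT
    set K1 : Submodule ℤ L := Submodule.span ℤ (incl (Ker k) '' T) with hK1
    have e1 : Module.finrank ℤ K1 = rk T := by
      have := (hR (Ker k) L).2.2.2.1 (incl (Ker k)) T (incl_inj (Ker k))
      exact this
    have h1 : satur K1 ≤ Ker k := by
      rintro a ⟨m, hm, ha⟩
      have h2 : K1 ≤ Ker k := by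
        rw [hK1, Submodule.span_le]
        rintro _ ⟨b, -, rfl⟩
        exact b.2
      have h3 := h2 ha
      rw [mem_Ker, map_zsmul, smul_eq_mul] at h3
      exact (mul_eq_zero.1 h3).resolve_left hm
    have h2 : S ∉ satur K1 := by
      intro h3
      have h4 := h1 h3
      rw [mem_Ker, h] at h4
      exact one_ne_zero h4
    have h3 := H07.finrank_sup_eq (H63.satur_sat K1) h2
    rw [H07.finrank_satur, e1] at h3
    have h4 : satur K1 ⊔ Submodule.span ℤ {S} ≤ satur (Submodule.span ℤ (supp G)) := by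
      refine sup_le (H63.satur_le ?_) ?_
      · rw [hK1, Submodule.span_le]
        rintro _ ⟨b, hb, rfl⟩
        obtain ⟨a, ha, hab⟩ := supp_cl k S h eta G hb
        apply H63.le_satur
        rw [incl_apply, ← hab, prj_coe]
        exact Submodule.sub_mem _ (Submodule.subset_span ha)
          (Submodule.smul_mem _ _ (Submodule.subset_span hS))
      · rw [Submodule.span_singleton_le_iff_mem]
        exact H63.le_satur _ (Submodule.subset_span hS)
    have h5 := Submodule.finrank_mono h4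
    rw [h3, H07.finrank_satur] at h5
    exact h5

end ranks

/-- (DCM) DECIMATION. -/
theorem dcm_st (h2 : MultiS) (h3 : StSpecS) (h5 : B2cS) (h6 : G0S) (h7 : EvRS) (hA : A3bS)
    (hZ : ZfinS) (hM : MinS) (hSl : SlMulS) (hC0 : Coeff0S) (hC1a : C1aS) (hC1b : C1bS)
    (hPr : PrimS) (hFa : FactS) (hWW : WWfS) (hR : RkS) (hL : LatResS) : DcmS := by
  intro O _ _ _ _ P L _ _ _ _ _ phi D S i0 eta h Q _ _ g l r p hcc hp hpr het hhm
  have H : DC phi D S i0 eta h g l r p := ⟨hcc, hp, hpr, het, hhm⟩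
  haveI : Fintype Q := Fintype.ofFinite _
  haveI : Finite (AddChar Q Circle) :=
    Finite.of_equiv _ (AddChar.circleEquivComplex (α := Q)).symm.toEquiv
  haveI : Fintype (AddChar Q Circle) := Fintype.ofFinite _
  obtain ⟨c1, D', hc1, hE, hst, hun, hirr⟩ :=
    E_irr h2 h3 h5 h6 h7 hA hZ hM hSl hC0 hC1a hC1b hPr hFa hWW H
  have hcl : cst p * cl (co phi i0) S h eta D = cst c1 * cl (co phi i0) S h eta D' := by
    rw [← cl_E H, hE, map_mul, cl_cst]
  have hsub : ∀ a ∈ supp D', a ∈ supp D := by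
    intro a ha
    rw [← supp_cst hc1 D', ← hE] at ha
    exact supp_E ha
  have hsupp : supp (cl (co phi i0) S h eta D) = supp (cl (co phi i0) S h eta D') := by
    rw [← supp_cst hp (cl (co phi i0) S h eta D), hcl, supp_cst hc1]
  have hrk := rk_cl hR (co phi i0) S h eta D'
  rw [← hsupp] at hrk
  obtain ⟨l1, l2, l3, l4, l5, l6⟩ := hL O L D' (Submodule.span ℤ (supp D')) rfl hst.1
  refine ⟨c1, D', hc1, hE, hcl, hsub, hst, hun, hirr, hrk.1, hrk.2, ?_, l6⟩
  refine ⟨?_, ?_, l3 hst, l2 hun, l1 hirr, ?_⟩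
  · intro a b hab
    exact Subtype.ext (hcc.dd.inj hab)
  · intro a ha
    have ha' : (a : L) ∈ supp D' := ha
    exact hcc.dd.bin a (hsub a ha')
  · rw [l5, l6]

end Pool.Agent.B5.Dcm
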