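import Pool.Agent.Lib.MP_b5021c_nt.DCM.H61.Row
import Pool.Agent.Lib.MP_b5021c_nt.W.H1.Ca

/-!
# MP_b5021c_nt, board b5, row O1_DCV: the Carathéodory function (proved by helper1)
-/

set_option linter.unusedSectionVars false

namespace Pool.Agent.B5.Dcm

open scoped LaurentPolynomial
open Pool.Agent.B5 Polynomial
open Pool.Agent.B5.Nr.Sch

theorem ca_st : CaS := by
  intro q f C1 a n hloc hf hC hz hn hfq
  have h : LocA q f C1 a n := ⟨hloc, hf, hC, hz, by rw [← hfq]; ring, hn⟩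
  exact ⟨_, h.diff, h.cara.re, by rw [h.val0]; push_cast; ring, fun z hz1 hz0 => h.val hz1 hz0⟩

/-- The row O1_DCV with the additional hypothesis `Wdep (G i)`. -/
theorem dcv_wd' (hDcm : DcmS) (hPr : PrimS) (hKe : KerEvS) (hM1 : M1S) (hMm : MmulS)
    (hA7 : A7S) (hMV : MVS) (hG0 : G0S) (hRk : RkS)
    {P L : Type} [Fintype P] [DecidableEq P] [AddCommGroup L]
    [Module.Free ℤ L] [Module.Finite ℤ L] (phi : L →+ (P → ℤ)) (D : AO ℤ L) (S : L) (i0 : P)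
    (h : co phi i0 S = 1) (q f C1 : ℤ[X]) (e w : (RO ℤ)ˣ) (a : ℝ) (c : RO ℤ) (n0 : ℕ)
    (G : Fin n0 → AO ℤ (Ker (co phi i0))) (n m : ℕ) (g : ℕ → ℤ) (hwd : ∀ i, Wdep (G i)) :
    DD phi D → 2 ≤ Module.finrank ℤ L → Ray D S → RN D S q f e a → f.coeff 0 = 1 →
    Zfd phi D S i0 h (-e) c n0 G → C1.coeff 0 = 1 → c = (w : RO ℤ) * toLaurent C1 → 1 ≤ n →
    f - q = C (n : ℤ) * X * C1 →
    (C1 : PowerSeries ℤ) * PowerSeries.mk g = (f : PowerSeries ℤ) → 2 ≤ m →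
      ∃ (e0 e1 cm : ℤ[X]) (D' : AO ℤ L) (u0 w' : (RO ℤ)ˣ),
        e0 - e1 = C (n : ℤ) * cm ∧ cm.coeff 0 = 1 ∧
        (cm : PowerSeries ℤ) * PowerSeries.mk (fun k => g (m * k + 1)) = -(e1 : PowerSeries ℤ) ∧
        Stable D' ∧ Unitary D' ∧ Irreducible D' ∧ supp D' ⊆ supp D ∧
        (u0 : RO ℤ) * D'.coeff 0 = toLaurent (expand ℤ m e0) ∧
        (u0 : RO ℤ) * (((-e : (RO ℤ)ˣ) : RO ℤ) * D'.coeff S) = -toLaurent (expand ℤ m e1) ∧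
        ClassV ((n : ℝ) - g 1) (D'.coeff 0) ∧
        ClassV 1 ((w' : RO ℤ) * toLaurent (expand ℤ m cm)) ∧
        cl (co phi i0) S h (-e) D' = cst ((w' : RO ℤ) * toLaurent (expand ℤ m cm)) * ∏ i, G i ∧
        Module.finrank ℤ L ≤ rk (supp D') + 1 ∧ (e1 ≠ 0 → rk (supp D') = Module.finrank ℤ L) :=
  dcv_wd hDcm hPr hKe hM1 hMm hA7 hMV hG0 hRk ca_st phi D S i0 h q f C1 e w a c n0 G n m g hwd

/-- (O1_DCV) -/
theorem dcv_st (hDcm : DcmS) (hPr : PrimS) (hKe : KerEvS) (hM1 : M1S) (hMm : MmulS)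
    (hA7 : A7S) (hMV : MVS) (hG0 : G0S) (hRk : RkS) : DcvS := by
  intro P L _ _ _ _ _ phi D S i0 h q f C1 e w a c n0 G n m g hD h2 hRay hRN hf0 hZ
  exact dcv_wd' hDcm hPr hKe hM1 hMm hA7 hMV hG0 hRk phi D S i0 h q f C1 e w a c n0 G n m g
    hZ.wd hD h2 hRay hRN hf0 hZ

end Pool.Agent.B5.Dcm
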