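import Pool.Agent.Lib.MP_b5021c_nt.DCM.H61.Avg
import Pool.Agent.Lib.MP_b5021c_nt.E.H78.Fcl

/-!
# MP_b5021c_nt, board b5, row O1_DCV: DECIMATION at a z-free closing (helper61)
-/

set_option linter.unusedSectionVars false

namespace Pool.Agent.B5.Dcm

open scoped LaurentPolynomial
open Pool.Agent.B5 Pool.Agent.B5.H83 Pool.Agent.B5.H96 Polynomial
open Pool.Agent.B5.Nr.Sch (Loc)

theorem pm_toLaurent {Q : Type} [AddCommGroup Q] (g r : Q) {m : ℕ} (hm : 2 ≤ m)
    (hgr : ∀ n : ℤ, n • g = r ↔ (m : ℤ) ∣ n - 1) (F : ℤ[X]) :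
    pm g r (toLaurent F) = mz 1 1 * exL m (toLaurent (dc m F)) := by
  apply AddMonoidAlgebra.ext
  ext n
  rw [mz_mul_coeff]
  have hm0 : 0 < m := by lia
  by_cases h : (m : ℤ) ∣ n - 1
  · obtain ⟨t, ht⟩ := h
    rw [pm_coeff, if_pos ((hgr n).2 ⟨t, ht⟩), ht, exL_coeff hm0]
    rcases le_or_gt 0 t with h0 | h0
    · obtain ⟨k, rfl⟩ := Int.eq_ofNat_of_zero_le h0
      have h1 : n = ((m * k + 1 : ℕ) : ℤ) := by
        push_cast
        linarith
      rw [h1, toLaurent_coeff_nonneg, toLaurent_coeff_nonneg, dc_coeff hm0]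
    · rw [toLaurent_coeff_neg _ t h0, toLaurent_coeff_neg]
      nlinarith
  · rw [pm_coeff, if_neg (fun h2 => h ((hgr n).1 h2)), exL_coeff_not _ _ h]

theorem mzs_coeff (k s : ℤ) (G : RO ℤ) (l : ℤ) : (mz k s * G).coeff l = s * G.coeff (l - k) := by
  unfold mz
  rw [AddMonoidAlgebra.coeff_single_mul_eq_mul_coeff (l - k)]
  intro m' _
  constructor
  · intro h3
    rw [← h3]
    abel
  · intro h3
    rw [h3]
    abel

theorem pm_unit {Q : Type} [AddCommGroup Q] (g r x : Q) (k : ℤ) (s : ℤ) (hk : k • g = x)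
    (F : RO ℤ) : mz k s * pm g (r - x) F = pm g r (mz k s * F) := by
  apply AddMonoidAlgebra.ext
  ext n
  rw [mzs_coeff, pm_coeff, pm_coeff, mzs_coeff]
  have h4 : (n - k) • g = r - x ↔ n • g = r := by
    rw [sub_smul, hk, sub_left_inj]
  by_cases h5 : n • g = r
  · rw [if_pos h5, if_pos (h4.2 h5)]
  · rw [if_neg h5, if_neg (fun h6 => h5 (h4.1 h6)), mul_zero]

/-- Powers of `X^K - 1`. -/
theorem classV_cyc {K : ℕ} (hK : 0 < K) (μ : ℕ) {F : ℤ[X]} (hF : F ∣ (X ^ K - 1) ^ μ) :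
    ∀ z : ℂ, ‖z‖ < 1 → aeval z F ≠ 0 := by
  intro z hz h0
  obtain ⟨t, ht⟩ := hF
  have h1 : aeval z ((X ^ K - 1 : ℤ[X]) ^ μ) = 0 := by
    rw [ht, map_mul, h0, zero_mul]
  rw [map_pow, map_sub, map_pow, aeval_X, map_one] at h1
  have h2 : z ^ K - 1 = 0 := by
    by_contra hne
    exact pow_ne_zero μ hne h1
  have h3 : z ^ K = 1 := sub_eq_zero.1 h2
  have h4 : ‖z‖ ^ K = 1 := by rw [← norm_pow, h3, norm_one]
  have h5 : ‖z‖ ^ K < 1 := pow_lt_one₀ (norm_nonneg z) hz hK.ne'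
  linarith

theorem unit_coeff0 {K : ℕ} (hK : 0 < K) (μ : ℕ) : IsUnit (((X ^ K - 1 : ℤ[X]) ^ μ).coeff 0) := by
  have h1 : ((X ^ K - 1 : ℤ[X]) ^ μ).coeff 0 = (-1) ^ μ := by
    rw [coeff_zero_eq_eval_zero, eval_pow, eval_sub, eval_pow, eval_X, eval_one, zero_pow hK.ne',
      zero_sub]
  rw [h1]
  exact (isUnit_one.neg).pow μ

section

variable {P L : Type} [Fintype P] [DecidableEq P] [AddCommGroup L]
  [Module.Free ℤ L] [Module.Finite ℤ L]

theorem wdep_of_rk {D : AO ℤ L} (h0 : D.coeff 0 ≠ 0) (h1 : 1 ≤ rk (supp D)) : Wdep D := by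
  by_contra hcon
  have h2 : ∀ b ∈ supp D, b = 0 := by
    intro b hb
    by_contra hb0
    exact hcon ⟨b, hb, 0, h0, hb0⟩
  have h3 : Submodule.span ℤ (supp D) = ⊥ := by
    rw [Submodule.span_eq_bot]
    exact h2
  unfold rk at h1
  rw [h3, finrank_bot] at h1
  omega

/-- THE GENERAL FORM: `G` primitive and z-free. -/
theorem dcv_core (hDcm : DcmS) (hPr : PrimS) (hKe : KerEvS) (hM1 : M1S) (hMm : MmulS)
    (hA7 : A7S) (hMV : MVS) (hG0 : G0S) (hRk : RkS) (hCa : CaS)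
    (phi : L →+ (P → ℤ)) (D : AO ℤ L) (S : L) (i0 : P)
    (h : co phi i0 S = 1) (q f C1 : ℤ[X]) (e w : (RO ℤ)ˣ) (a : ℝ) (c : RO ℤ)
    (G : AO ℤ (Ker (co phi i0))) (n m : ℕ) (g : ℕ → ℤ)
    (hD : DD phi D) (h2 : 2 ≤ Module.finrank ℤ L) (hRay : Ray D S) (hRN : RN D S q f e a)
    (hf0 : f.coeff 0 = 1) (hcV : ClassV 1 c) (hcl : cl (co phi i0) S h (-e) D = cst c * G)
    (hGp : Prim G) (hGz : ZFree G)
    (hdr : Module.finrank ℤ L = rk (supp (cl (co phi i0) S h (-e) D)) + 1)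
    (hC10 : C1.coeff 0 = 1) (hc : c = (w : RO ℤ) * toLaurent C1) (hn : 1 ≤ n)
    (hfq : f - q = C (n : ℤ) * X * C1)
    (hg : (C1 : PowerSeries ℤ) * PowerSeries.mk g = (f : PowerSeries ℤ)) (hm : 2 ≤ m) :
      ∃ (e0 e1 cm : ℤ[X]) (D' : AO ℤ L) (u0 w' : (RO ℤ)ˣ),
        e0 - e1 = C (n : ℤ) * cm ∧ cm.coeff 0 = 1 ∧
        (cm : PowerSeries ℤ) * PowerSeries.mk (fun k => g (m * k + 1)) = -(e1 : PowerSeries ℤ) ∧
        Stable D' ∧ Unitary D' ∧ Irreducible D' ∧ supp D' ⊆ supp D ∧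
        (u0 : RO ℤ) * D'.coeff 0 = toLaurent (expand ℤ m e0) ∧
        (u0 : RO ℤ) * (((-e : (RO ℤ)ˣ) : RO ℤ) * D'.coeff S) = -toLaurent (expand ℤ m e1) ∧
        ClassV ((n : ℝ) - g 1) (D'.coeff 0) ∧
        ClassV 1 ((w' : RO ℤ) * toLaurent (expand ℤ m cm)) ∧
        cl (co phi i0) S h (-e) D' = cst ((w' : RO ℤ) * toLaurent (expand ℤ m cm)) * G ∧
        Module.finrank ℤ L ≤ rk (supp D') + 1 ∧ (e1 ≠ 0 → rk (supp D') = Module.finrank ℤ L) := by
  classical
  have hm0 : 0 < m := by lia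
  -- 1. `C1` has no zeros in the disc
  have hC1z : ∀ z : ℂ, ‖z‖ < 1 → aeval z C1 ≠ 0 := by
    obtain ⟨-, n1, q1, hq1, -, hz1⟩ := hcV
    have h3 : C1 ∣ q1 := by
      apply toLaurent_dvd (by rw [hC10]; exact one_ne_zero)
      refine ⟨LaurentPolynomial.T (-n1) * (w : RO ℤ), ?_⟩
      have h4 : (toLaurent q1 : RO ℤ) = LaurentPolynomial.T (-n1) * c := by
        rw [hq1, ← mul_assoc, ← LaurentPolynomial.T_add, neg_add_cancel, LaurentPolynomial.T_zero,
          one_mul]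
      rw [h4, hc]
      ring
    obtain ⟨t, ht⟩ := h3
    intro z hz h0
    apply hz1 z hz
    rw [map_emb, ht, map_mul, h0, zero_mul]
  -- 2. Kronecker
  obtain ⟨hrec, N, μ, hN, hdvd⟩ := kron hA7 _ C1 rfl (by rw [hC10]; exact isUnit_one) (by
    intro z hz
    have h3 := hC1z z hz
    rwa [← eval_map_algebraMap] at h3)
  set CC : ℤ[X] := (X ^ N - 1) ^ μ with hCC
  have hexp : expand ℤ m CC = (X ^ (N * m) - 1) ^ μ := by
    rw [hCC, map_pow, map_sub, map_one, map_pow, expand_X, ← pow_mul, mul_comm m N]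
  have hdvd2 : C1 ∣ expand ℤ m CC := by
    rw [hexp]
    refine hdvd.trans (pow_dvd_pow_of_dvd ?_ μ)
    rw [pow_mul]
    have := sub_dvd_pow_sub_pow (X ^ N : ℤ[X]) 1 m
    rwa [one_pow] at this
  obtain ⟨P1, hP1⟩ := hdvd2
  have hNm : 0 < N * m := Nat.mul_pos hN hm0
  have hCCu : IsUnit (CC.coeff 0) := unit_coeff0 hN μ
  have hCC0 : CC ≠ 0 := by
    intro h0
    rw [h0, coeff_zero] at hCCu
    exact not_isUnit_zero hCCu
  have hexp0 : expand ℤ m CC ≠ 0 := by
    intro h0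
    have h3 : (expand ℤ m CC).coeff 0 = CC.coeff 0 := by
      rw [coeff_expand hm0, if_pos (dvd_zero _), Nat.zero_div]
    rw [← h3, h0, coeff_zero] at hCCu
    exact not_isUnit_zero hCCu
  have hC10' : C1 ≠ 0 := by
    rintro rfl
    rw [coeff_zero] at hC10
    exact zero_ne_one hC10
  have hP10 : P1 ≠ 0 := by
    rintro rfl
    rw [mul_zero] at hP1
    exact hexp0 hP1
  set p : RO ℤ := toLaurent P1 with hp
  have hp0 : p ≠ 0 := by
    intro h0
    exact hP10 (toLaurent_inj' (h0.trans (map_zero toLaurent).symm))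
  have hLC : (toLaurent C1 : RO ℤ) ≠ 0 := by
    intro h0
    exact hC10' (toLaurent_inj' (h0.trans (map_zero toLaurent).symm))
  have hC1P : (toLaurent C1 : RO ℤ) * p = exL m (toLaurent CC) := by
    rw [hp, ← map_mul, ← hP1, exL_toLaurent]
  have hprec : Associated (rsh p) p := by
    refine rec_cancel hLC hrec ?_
    rw [hp, ← map_mul, ← hP1, hexp, map_pow]
    exact rec_pow (rec_X _) μ
  -- 3. the grading
  obtain ⟨qG, lG, nG, hqG, hZ⟩ := hGz
  obtain ⟨ke, se, hse⟩ := unit_mz e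
  obtain ⟨kc, sc, hsc⟩ := unit_mz w
  have hsc2 : (sc : ℤ) * sc = 1 := by
    rcases Int.isUnit_iff.1 sc.isUnit with h | h <;> rw [h] <;> norm_num
  have hse2 : (se : ℤ) * se = 1 := by
    rcases Int.isUnit_iff.1 se.isUnit with h | h <;> rw [h] <;> norm_num
  have hV0 : D.coeff 0 + ((-e : (RO ℤ)ˣ) : RO ℤ) * D.coeff S =
      -(toLaurent (C (n : ℤ) * X) * toLaurent C1) := by
    have h3 : ((-e : (RO ℤ)ˣ) : RO ℤ) * D.coeff S = -(toLaurent f) := by
      rw [Units.val_neg, neg_mul, hRN.DS]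
    rw [h3, hRN.D0, ← map_mul, ← hfq, map_sub]
    ring
  have hnX : (toLaurent (C (n : ℤ) * X) : RO ℤ) = mz 1 (n : ℤ) := by
    rw [map_mul, toLaurent_C, toLaurent_X]
    unfold mz
    rw [LaurentPolynomial.single_eq_C_mul_T]
  have hn0 : (n : ℤ) ≠ 0 := by
    have : n ≠ 0 := by lia
    exact_mod_cast this
  have hmzn : (mz 1 (n : ℤ) : RO ℤ) ≠ 0 := by
    unfold mz
    intro h0
    rw [AddMonoidAlgebra.single_eq_zero] at h0
    exact hn0 h0
  have hCCtx : Pool.Agent.B5.CC phi D S i0 (-e) := ⟨hD, h2, hRay, h, by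
    rw [hV0, hnX]
    exact neg_ne_zero.2 (mul_ne_zero hmzn hLC)⟩
  have hG00 : G.coeff 0 = -(mz (1 - kc) (sc * n : ℤ)) := by
    have h3 := (hG0 ℤ P L phi D S i0 (-e) h hCCtx).2.2.1
    rw [hcl, H78.cstm, hV0, hnX, hc, hsc] at h3
    have h4 : mz kc (sc : ℤ) * G.coeff 0 = -(mz 1 (n : ℤ)) := by
      apply mul_left_cancel₀ hLC
      linear_combination h3
    have h5 : mz (-kc) (sc : ℤ) * (mz kc (sc : ℤ) * G.coeff 0) = G.coeff 0 := by
      rw [← mul_assoc, mz_mul, neg_add_cancel, hsc2]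
      exact one_mul _
    rw [← h5, h4, mul_neg, mz_mul]
    congr 2
    ring
  have hnG : nG = 1 - kc := by
    have h3 := hZ 0 (1 - kc) (by
      rw [hG00]
      change -((mz (1 - kc) (sc * n : ℤ) : RO ℤ).coeff (1 - kc)) ≠ 0
      unfold mz
      rw [AddMonoidAlgebra.coeff_single, Finsupp.single_eq_same]
      exact neg_ne_zero.2 (mul_ne_zero sc.ne_zero hn0))
    rw [map_zero, zero_add] at h3
    have h4 : (qG : ℤ) ≠ 0 := by exact_mod_cast hqG.ne'
    exact (mul_left_cancel₀ h4 h3).symm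
  have : NeZero (qG * m) := ⟨(Nat.mul_pos hqG hm0).ne'⟩
  let l' : L →+ ℤ := (AddMonoidHom.mulLeft ((qG : ℤ) * ke)).comp (co phi i0) -
    lG.comp (prj (co phi i0) S h)
  have hl' : ∀ a, l' a = (qG : ℤ) * ke * co phi i0 a - lG (prj (co phi i0) S h a) := fun a => rfl
  let l : L →+ ZMod (qG * m) := (Int.castAddHom (ZMod (qG * m))).comp l'
  have hl : ∀ a, l a = ((l' a : ℤ) : ZMod (qG * m)) := fun a => rfl
  set g' : ZMod (qG * m) := ((qG : ℤ) : ZMod (qG * m)) with hg'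
  have hsm : ∀ k : ℤ, k • g' = ((k * qG : ℤ) : ZMod (qG * m)) := by
    intro k
    rw [hg', zsmul_eq_mul, Int.cast_mul]
  have hcast : ∀ x y : ℤ, ((x : ℤ) : ZMod (qG * m)) = ((y : ℤ) : ZMod (qG * m)) ↔
      ((qG : ℤ) * m) ∣ y - x := by
    intro x y
    rw [ZMod.intCast_eq_intCast_iff_dvd_sub]
    push_cast
    rfl
  have hgr : ∀ k : ℤ, k • g' = g' ↔ (m : ℤ) ∣ k - 1 := by
    intro k
    rw [hsm, hg', hcast]
    have h4 : (qG : ℤ) ≠ 0 := by exact_mod_cast hqG.ne'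
    rw [show (qG : ℤ) - k * qG = qG * (1 - k) by ring, mul_dvd_mul_iff_left h4, ← dvd_neg,
      neg_sub]
  have hlS : ke • g' = l S := by
    rw [hsm, hl, hl', h]
    have h3 : prj (co phi i0) S h S = 0 := by
      apply Subtype.ext
      rw [prj_coe, h, one_smul, sub_self]
      rfl
    rw [h3, map_zero]
    congr 1
    ring
  have hpc : p * c = mz kc (sc : ℤ) * exL m (toLaurent CC) := by
    rw [hc, hsc, ← hC1P]
    ring
  have hpccl : cst p * cl (co phi i0) S h (-e) D = cst (p * c) * G := by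
    rw [hcl, ← mul_assoc, H78.cst_cst]
  have hHG : Hmg g' (l.comp (incl (Ker (co phi i0)))) (((qG : ℤ) * nG : ℤ) : ZMod (qG * m)) G := by
    intro b k hk
    have h3 := hZ b k hk
    have h4 : co phi i0 (b : L) = 0 := b.2
    have h5 : prj (co phi i0) S h (b : L) = b := by
      apply Subtype.ext
      rw [prj_coe, h4, zero_smul, sub_zero]
    change k • g' + l (b : L) = _
    rw [hsm, hl, hl', h4, h5, ← Int.cast_add]
    congr 1
    linarith
  have hHc : Hmg g' (l.comp (incl (Ker (co phi i0)))) ((kc * (qG : ℤ) : ℤ) : ZMod (qG * m))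
      (cst (p * c) : AO ℤ (Ker (co phi i0))) := by
    intro b k hk
    unfold cst at hk
    rw [AddMonoidAlgebra.coeff_single, Finsupp.single_apply] at hk
    by_cases hb : (0 : Ker (co phi i0)) = b
    · rw [if_pos hb, hpc, mzs_coeff] at hk
      rw [← hb]
      change k • g' + l ((0 : Ker (co phi i0)) : L) = _
      rw [Submodule.coe_zero, map_zero, add_zero, hsm, hcast]
      have h3 : (m : ℤ) ∣ k - kc := by
        by_contra h4
        apply hk
        rw [exL_coeff_not _ _ h4, mul_zero]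
      obtain ⟨t, ht⟩ := h3
      refine ⟨-t, ?_⟩
      have h5 : k = kc + m * t := by linarith
      rw [h5]
      ring
    · rw [if_neg hb] at hk
      exact absurd rfl hk
  have hHm : Hmg g' (l.comp (incl (Ker (co phi i0)))) g'
      (cst p * cl (co phi i0) S h (-e) D) := by
    rw [hpccl]
    have h3 := hmg_mul hHc hHG
    have h4 : (((kc * (qG : ℤ) : ℤ) : ZMod (qG * m)) + (((qG : ℤ) * nG : ℤ) : ZMod (qG * m))) =
        g' := by
      rw [← Int.cast_add, hg']
      congr 1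
      rw [hnG]
      ring
    rwa [h4] at h3
  -- 4. decimation
  obtain ⟨c1, D', hc1, hE, hEcl, hsupp, hst, hun, hirr, hrk1, hrk2, -, -⟩ :=
    hDcm ℤ P L phi D S i0 (-e) h (ZMod (qG * m)) g' l g' p hCCtx hp0 hprec (by
      intro k hk
      rw [Units.val_neg, hse] at hk
      change -((mz ke (se : ℤ) : RO ℤ).coeff k) ≠ 0 at hk
      unfold mz at hk
      rw [AddMonoidAlgebra.coeff_single, Finsupp.single_apply] at hk
      by_cases h3 : ke = k
      · rw [← h3]
        exact hlS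
      · rw [if_neg h3] at hk
        simp at hk) hHm
  have hD'0 : D' ≠ 0 := hirr.ne_zero
  have hcstinj : ∀ (x : RO ℤ), x ≠ 0 → (cst x : AO ℤ L) ≠ 0 := by
    intro x hx h0
    unfold cst at h0
    rw [AddMonoidAlgebra.single_eq_zero] at h0
    exact hx h0
  have hcstinj' : ∀ (x : RO ℤ), x ≠ 0 → (cst x : AO ℤ (Ker (co phi i0))) ≠ 0 := by
    intro x hx h0
    unfold cst at h0
    rw [AddMonoidAlgebra.single_eq_zero] at h0
    exact hx h0
  set E : AO ℤ L := dcm g' l g' (cst p * D) with hEdef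
  have hE0 : E ≠ 0 := by
    rw [hE]
    exact mul_ne_zero (hcstinj c1 hc1) hD'0
  have hPr' : Prim D' := by
    refine (hPr ℤ L D' D').2.1 hirr (wdep_of_rk hst.1 ?_)
    omega
  -- 5. contents
  have hpc0 : p * c ≠ 0 := by
    rw [hc]
    exact mul_ne_zero hp0 (mul_ne_zero w.ne_zero hLC)
  have hMpc : M (p * c) = 1 := by
    have h3 : ClassV ((1 : ℤ) : ℝ) (toLaurent (expand ℤ m CC)) := by
      apply classV_poly (le_refl _)
      · rw [coeff_expand hm0, if_pos (dvd_zero _), Nat.zero_div]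
        rcases Int.isUnit_iff.1 hCCu with h | h <;> rw [h] <;> simp
      · rw [hexp]
        exact classV_cyc hNm μ (dvd_refl _)
    have h4 := classV_unit w h3
    have h5 : p * c = (w : RO ℤ) * toLaurent (expand ℤ m CC) := by
      rw [hpc, hsc, exL_toLaurent]
    rw [h5, (hMV ℤ).1 _ _ h4 |>.2, Int.cast_one]
  have hres : ∀ (a : L) (k k' : ℤ), (E.coeff a).coeff k ≠ 0 → (E.coeff a).coeff k' ≠ 0 →
      (m : ℤ) ∣ k - k' := by
    intro a k k' hk hk'
    have h3 := dcm_hmg g' l g' (cst p * D) a k hk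
    have h4 := dcm_hmg g' l g' (cst p * D) a k' hk'
    have h5 : k • g' = k' • g' := add_right_cancel (h3.trans h4.symm)
    rw [hsm, hsm, hcast] at h5
    have h6 : (qG : ℤ) ≠ 0 := by exact_mod_cast hqG.ne'
    rw [show k' * (qG : ℤ) - k * qG = qG * (k' - k) by ring, mul_dvd_mul_iff_left h6, ← dvd_neg,
      neg_sub] at h5
    exact h5
  obtain ⟨δ, D'', v, hδ, hED, hDv, hcδ, -⟩ := content hPr hKe hM1 hMm hm0 E D' c1 (p * c) hE0 hE
    hPr' (gauss hGp c1 (p * c) (by rw [← hpccl, hEcl]; exact Dvd.intro _ rfl)) hpc0 hMpc hres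
  -- 6. the divisor `δ`
  have hexδ : exL m δ ≠ 0 := fun h0 => hδ (exL_inj hm0 h0)
  have hcstv : (cst (exL m δ) : AO ℤ (Ker (co phi i0))) * cl (co phi i0) S h (-e) D'' =
      cst (p * c) * G := by
    rw [hDv, map_mul, ← hpccl, hEcl, hcδ, ← H78.cst_cst, mul_assoc]
    congr 2
    unfold cst
    rw [cl_single, map_zero, map_zero, zpow_zero, Units.val_one, mul_one]
  have hδd : δ ∣ toLaurent CC := by
    apply exL_dvd hm0
    have h3 : exL m δ ∣ p * c := by
      apply gauss hGp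
      rw [← hcstv]
      exact Dvd.intro _ rfl
    rw [hpc] at h3
    have h4 : IsUnit (mz kc (sc : ℤ) : RO ℤ) := by
      rw [← hsc]
      exact w.isUnit
    exact (h4.dvd_mul_left).1 h3
  obtain ⟨δ', hδ'⟩ := hδd
  obtain ⟨v1, w1, δ0, cm, hv1, hw1, hCCs, hcm0, hδ00⟩ := lau_split CC hCCu δ δ' hδ'
  have hδ0ne : δ0 ≠ 0 := by
    rintro rfl
    exact hδ00 (coeff_zero 0)
  have hLδ0 : (toLaurent δ0 : RO ℤ) ≠ 0 := by
    intro h0
    exact hδ0ne (toLaurent_inj' (h0.trans (map_zero toLaurent).symm))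
  -- 7. the closing
  let w' : (RO ℤ)ˣ := w * Units.map (exL (O := ℤ) m).toMonoidHom w1
  have hw' : (w' : RO ℤ) = (w : RO ℤ) * exL m (w1 : RO ℤ) := rfl
  have hclD : cl (co phi i0) S h (-e) D'' =
      cst ((w' : RO ℤ) * toLaurent (expand ℤ m cm)) * G := by
    apply mul_left_cancel₀ (hcstinj' _ hexδ)
    rw [hcstv, ← mul_assoc, H78.cst_cst]
    congr 2
    rw [hpc, ← hsc, hw', hδ', map_mul, hw1, map_mul, exL_toLaurent]
    ring
  -- 8. the coefficients
  have hE00 : exL m δ * D''.coeff 0 = mz 1 1 * exL m (toLaurent (dc m (P1 * q))) := by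
    have h3 : E.coeff 0 = exL m δ * D''.coeff 0 := by rw [hED, H78.cstm]
    rw [← h3, hEdef, dcm_coeff, map_zero, sub_zero, H78.cstm, hRN.D0, hp, ← map_mul,
      pm_toLaurent g' g' hm hgr]
  have hES : exL m δ * ((e : RO ℤ) * D''.coeff S) =
      mz 1 1 * exL m (toLaurent (dc m (P1 * f))) := by
    have h3 : E.coeff S = exL m δ * D''.coeff S := by rw [hED, H78.cstm]
    have h4 : (e : RO ℤ) * E.coeff S = mz 1 1 * exL m (toLaurent (dc m (P1 * f))) := by
      rw [hEdef, dcm_coeff, hse, pm_unit g' g' (l S) ke se hlS, H78.cstm, ← hse,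
        mul_left_comm, hRN.DS, hp, ← map_mul, pm_toLaurent g' g' hm hgr]
    rw [← h4, h3]
    ring
  -- 9. the polynomial `e1`
  have hW1 : δ0 ∣ dc m (P1 * f) := by
    apply toLaurent_dvd hδ00
    have h3 : exL m δ ∣ exL m (toLaurent (dc m (P1 * f))) := by
      have h4 : exL m (toLaurent (dc m (P1 * f))) =
          mz (-1) 1 * (exL m δ * ((e : RO ℤ) * D''.coeff S)) := by
        rw [hES, ← mul_assoc, mz_mul, neg_add_cancel, one_mul]
        exact (one_mul _).symm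
      rw [h4]
      exact Dvd.intro (mz (-1) 1 * ((e : RO ℤ) * D''.coeff S)) (by ring)
    have h5 := exL_dvd hm0 h3
    rw [hv1] at h5
    exact (Dvd.intro_left _ rfl).trans h5
  obtain ⟨t1, ht1⟩ := hW1
  have hu : IsUnit (-(mz (-1) 1 * exL m (v1 : RO ℤ)) : RO ℤ) :=
    ((exL_T_unit (-1)).mul (v1.isUnit.map (exL m))).neg
  have hD''S : (hu.unit : RO ℤ) * ((e : RO ℤ) * D''.coeff S) =
      toLaurent (expand ℤ m (-t1)) := by
    have h3 : exL m (toLaurent δ0) ≠ 0 := fun h0 => hLδ0 (exL_inj hm0 h0)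
    apply mul_left_cancel₀ h3
    change exL m (toLaurent δ0) * (-(mz (-1) 1 * exL m (v1 : RO ℤ)) * _) = _
    have h4 : exL m (toLaurent δ0) * (-(mz (-1) 1 * exL m (v1 : RO ℤ)) *
        ((e : RO ℤ) * D''.coeff S)) =
        -(mz (-1) 1 * (exL m δ * ((e : RO ℤ) * D''.coeff S))) := by
      rw [hv1, map_mul]
      ring
    rw [h4, hES, ← mul_assoc, mz_mul, neg_add_cancel, one_mul, ht1, map_mul, map_mul,
      ← exL_toLaurent, map_neg, map_neg]
    change -(1 * _) = _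
    ring
  have hdcq : dc m (P1 * q) = dc m (P1 * f) - C (n : ℤ) * CC := by
    have h3 : P1 * q = P1 * f - C (n : ℤ) * X * expand ℤ m CC := by
      rw [hP1]
      linear_combination (-P1) * hfq
    ext k
    rw [coeff_sub, dc_coeff hm0, dc_coeff hm0, h3, coeff_sub, mul_assoc, coeff_C_mul, coeff_C_mul,
      mul_comm X, coeff_mul_X, coeff_expand_mul' hm0]
  have hD''0 : (hu.unit : RO ℤ) * D''.coeff 0 =
      toLaurent (expand ℤ m (-t1 + C (n : ℤ) * cm)) := by
    have h3 : exL m (toLaurent δ0) ≠ 0 := fun h0 => hLδ0 (exL_inj hm0 h0)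
    apply mul_left_cancel₀ h3
    change exL m (toLaurent δ0) * (-(mz (-1) 1 * exL m (v1 : RO ℤ)) * _) = _
    have h4 : exL m (toLaurent δ0) * (-(mz (-1) 1 * exL m (v1 : RO ℤ)) * D''.coeff 0) =
        -(mz (-1) 1 * (exL m δ * D''.coeff 0)) := by
      rw [hv1, map_mul]
      ring
    have h5 : dc m (P1 * q) = -(δ0 * (-t1 + C (n : ℤ) * cm)) := by
      rw [hdcq, ht1]
      linear_combination (-C (n : ℤ)) * hCCs
    rw [h4, hE00, ← mul_assoc, mz_mul, neg_add_cancel, one_mul, h5, map_neg, map_neg, map_mul,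
      map_mul, ← exL_toLaurent]
    change -(1 * _) = _
    ring
  -- 10. the power series
  have hser : (cm : PowerSeries ℤ) * PowerSeries.mk (fun k => g (m * k + 1)) =
      -((-t1 : ℤ[X]) : PowerSeries ℤ) := by
    have h3 : psi m (PowerSeries.mk g) = PowerSeries.mk (fun k => g (m * k + 1)) := by
      ext k
      simp only [psi, PowerSeries.coeff_mk]
    have h4 : ((dc m (P1 * f) : ℤ[X]) : PowerSeries ℤ) =
        (CC : PowerSeries ℤ) * psi m (PowerSeries.mk g) := by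
      rw [dc_ser hm0, ← psi_mul hm, hP1, coe_mul, coe_mul, ← hg]
      congr 1
      ring
    rw [ht1, hCCs, coe_mul, coe_mul] at h4
    have h5 : (δ0 : PowerSeries ℤ) ≠ 0 := by
      intro h0
      exact hδ0ne (coe_eq_zero_iff.1 h0)
    rw [← h3]
    apply mul_left_cancel₀ h5
    rw [coe_neg, neg_neg, h4]
    ring
  -- 11. class `V`
  have hcmC : cm ∣ (X ^ N - 1) ^ μ := by
    rw [← hCC, hCCs]
    exact Dvd.intro_left _ rfl
  have hg1 : 1 ≤ (n : ℤ) - g 1 := g1_le hCa hRN.loc hf0 hC10 hC1z hn hfq g hg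
  have ht10 : t1.coeff 0 = g 1 := by
    have h3 := congrArg (PowerSeries.coeff 0) hser
    rw [PowerSeries.coeff_mul, Finset.Nat.antidiagonal_zero, Finset.sum_singleton, coeff_coe,
      PowerSeries.coeff_mk, hcm0, coe_neg, neg_neg, coeff_coe] at h3
    rw [← h3]
    simp
  have he00 : (-t1 + C (n : ℤ) * cm).coeff 0 = (n : ℤ) - g 1 := by
    rw [coeff_add, coeff_neg, coeff_C_mul, hcm0, ht10]
    ring
  have hzf : ∀ z : ℂ, ‖z‖ < 1 → aeval z (expand ℤ m (-t1 + C (n : ℤ) * cm)) ≠ 0 := by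
    intro z hz1 h0
    by_cases hz0 : z = 0
    · rw [hz0, ← coeff_zero_eq_aeval_zero', coeff_expand hm0, if_pos (dvd_zero _), Nat.zero_div,
        he00] at h0
      have h3 : (n : ℤ) - g 1 = 0 := by
        have h4 : (((n : ℤ) - g 1 : ℤ) : ℂ) = 0 := h0
        exact_mod_cast h4
      lia
    · have h3 : aeval (z ^ m) CC ≠ 0 := by
        apply classV_cyc hN μ (dvd_refl _)
        rw [norm_pow]
        exact pow_lt_one₀ (norm_nonneg z) hz1 hm0.ne'
      apply avg_ne hCa hRN.loc hf0 hC10 hC1z hn hfq hm P1 CC (by rw [hP1]; ring) z hz1 hz0 h3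
      rw [expand_aeval] at h0
      have h4 : (n : ℂ) * aeval (z ^ m) CC - aeval (z ^ m) (dc m (P1 * f)) =
          aeval (z ^ m) δ0 * aeval (z ^ m) (-t1 + C (n : ℤ) * cm) := by
        have h5 : (n : ℂ) = aeval (z ^ m) (C (n : ℤ) : ℤ[X]) := by
          rw [aeval_C]
          simp
        rw [h5, ← map_mul, ← map_sub, ← map_mul, ht1]
        congr 1
        linear_combination (C (n : ℤ)) * hCCs
      rw [h4, h0, mul_zero]
  have hVD : ClassV ((n : ℝ) - g 1) (D''.coeff 0) := by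
    have h3 : ClassV (((n : ℤ) - g 1 : ℤ) : ℝ) (toLaurent (expand ℤ m (-t1 + C (n : ℤ) * cm))) := by
      refine classV_poly hg1 ?_ hzf
      rw [coeff_expand hm0, if_pos (dvd_zero _), Nat.zero_div, he00]
      exact abs_of_nonneg (by lia)
    have h4 := classV_unit hu.unit⁻¹ h3
    rw [← hD''0, Units.inv_mul_cancel_left] at h4
    push_cast at h4
    exact h4
  have hVc : ClassV 1 ((w' : RO ℤ) * toLaurent (expand ℤ m cm)) := by
    have h3 : ClassV ((1 : ℤ) : ℝ) (toLaurent (expand ℤ m cm)) := by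
      refine classV_poly (le_refl _) ?_ ?_
      · rw [coeff_expand hm0, if_pos (dvd_zero _), Nat.zero_div, hcm0]
        simp
      · intro z hz1
        rw [expand_aeval]
        apply classV_cyc hN μ hcmC
        rw [norm_pow]
        exact pow_lt_one₀ (norm_nonneg z) hz1 hm0.ne'
    rw [Int.cast_one] at h3
    exact classV_unit w' h3
  -- 12. the result
  have hvu : IsUnit (v : RO ℤ) := v.isUnit
  have hvz : ∀ z : Circle, evR z (v : RO ℤ) ≠ 0 := fun z => (hvu.map (evR z)).ne_zero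
  have hsD : supp D'' = supp D' := by rw [hDv, H78.supp_cst_mul v.ne_zero]
  have hrkle : rk (supp D'') ≤ Module.finrank ℤ L := (hRk L L).2.2.1 _
  refine ⟨-t1 + C (n : ℤ) * cm, -t1, cm, D'', hu.unit, w', by ring, hcm0, hser, ?_, ?_, ?_, ?_,
    hD''0, ?_, hVD, hVc, hclD, ?_, ?_⟩
  · rw [hDv]
    exact H78.stable_cst v.ne_zero hvz hst
  · rw [hDv]
    exact H78.unitary_cst hvu hun
  · rw [hDv]
    exact (associated_unit_mul_left _ _ (H78.isUnit_cst hvu)).symm.irreducible hirr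
  · rw [hsD]
    exact fun b hb => hsupp b hb
  · rw [← hD''S, Units.val_neg]
    ring
  · rw [hsD]
    omega
  · intro he1
    have h3 : S ∈ supp D'' := by
      intro h4
      have h5 : D''.coeff S = 0 := h4
      rw [h5, mul_zero, mul_zero] at hD''S
      apply he1
      have h6 := toLaurent_inj' (hD''S.symm.trans (map_zero toLaurent).symm)
      exact (expand_eq_zero hm0).1 h6
    rw [hsD] at h3
    have h4 := hrk2 h3
    rw [hsD] at hrkle ⊢
    omega

end

end Pool.Agent.B5.Dcm
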