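import Pool.Agent.Lib.MP_b5021c_nt.DCM.H61.Main
import Pool.Agent.Lib.MP_b5021c_nt.B.H14.Pri

/-!
# MP_b5021c_nt, board b5, chapter DCM: the substitution `z → z^m` and contents (helper61)
-/

set_option linter.unusedSectionVars false

namespace Pool.Agent.B5.Dcm

open scoped LaurentPolynomial
open Pool.Agent.B5 Pool.Agent.B5.H83 Pool.Agent.B5.H96

section

variable {O : Type} [CommRing O]

/-- multiplication with `m` -/
def mulm (m : ℕ) : ℤ →+ ℤ := AddMonoidHom.mulLeft (m : ℤ)

theorem mulm_inj {m : ℕ} (hm : 0 < m) : Function.Injective (mulm m) := by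
  intro a b h
  have h1 : (m : ℤ) * a = (m : ℤ) * b := h
  have h2 : (m : ℤ) ≠ 0 := by exact_mod_cast hm.ne'
  exact mul_left_cancel₀ h2 h1

/-- the substitution `z → z^m` -/
noncomputable def exL (m : ℕ) : RO O →+* RO O := AddMonoidAlgebra.mapDomainRingHom O (mulm m)

theorem exL_mz (m : ℕ) (n : ℤ) (c : O) : exL m (mz n c) = mz ((m : ℤ) * n) c := by
  unfold exL mz
  rw [AddMonoidAlgebra.mapDomainRingHom_apply, AddMonoidAlgebra.mapDomain_single]
  rfl

theorem exL_coeff {m : ℕ} (hm : 0 < m) (q : RO O) (n : ℤ) :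
    (exL m q).coeff ((m : ℤ) * n) = q.coeff n :=
  Finsupp.mapDomain_apply (mulm_inj hm) q.coeff n

theorem exL_coeff_not {m : ℕ} (q : RO O) (n : ℤ) (hn : ¬ (m : ℤ) ∣ n) :
    (exL m q).coeff n = 0 := by
  refine Finsupp.mapDomain_of_notMem_range (f := mulm m) q.coeff n ?_
  rintro ⟨k, rfl⟩
  exact hn ⟨k, rfl⟩

theorem exL_inj {m : ℕ} (hm : 0 < m) {q : RO O} (h : exL m q = 0) : q = 0 := by
  apply AddMonoidAlgebra.ext
  ext n
  rw [← exL_coeff hm, h]
  rfl

theorem mz_mul_coeff (k : ℤ) (q : RO O) (n : ℤ) : (mz k 1 * q).coeff n = q.coeff (n - k) := by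
  have h : (mz k (1 : O) * q).coeff n = 1 * q.coeff (n - k) := by
    unfold mz
    rw [AddMonoidAlgebra.coeff_single_mul_eq_mul_coeff (n - k)]
    intro m' _
    constructor
    · intro h3
      rw [← h3]
      abel
    · intro h3
      rw [h3]
      abel
  rw [h, one_mul]

/-- a Laurent polynomial with exponents in one residue class -/
theorem exists_exL {m : ℕ} (hm : 0 < m) (q : RO O) (k : ℤ)
    (h : ∀ n, q.coeff n ≠ 0 → (m : ℤ) ∣ n - k) : ∃ q' : RO O, q = mz k 1 * exL m q' := by
  classical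
  let q' : RO O := AddMonoidAlgebra.ofCoeff (q.coeff.comapDomain (fun n => k + (m : ℤ) * n)
    (by
      intro a _ b _ hab
      have h2 : (m : ℤ) ≠ 0 := by exact_mod_cast hm.ne'
      exact mul_left_cancel₀ h2 (add_left_cancel hab)))
  have hq' : ∀ n, q'.coeff n = q.coeff (k + (m : ℤ) * n) := fun n => rfl
  refine ⟨q', ?_⟩
  apply AddMonoidAlgebra.ext
  ext n
  rw [mz_mul_coeff]
  by_cases hn : (m : ℤ) ∣ n - k
  · obtain ⟨t, ht⟩ := hn
    rw [ht, exL_coeff hm, hq', ← ht]
    congr 1
    ring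
  · rw [exL_coeff_not _ _ hn]
    by_contra h2
    exact hn (h n h2)

theorem exL_T_unit (k : ℤ) : IsUnit (mz k (1 : O)) := by
  refine IsUnit.of_mul_eq_one (mz (-k) 1) ?_
  rw [mz_mul, add_neg_cancel, one_mul]
  rfl

end

section

variable {O : Type} [CommRing O] [IsDomain O] [IsPrincipalIdealRing O] [Coef O] {L : Type}
  [AddCommGroup L] [Module.Free ℤ L] [Module.Finite ℤ L]

theorem evR_exL (m : ℕ) (z : Circle) (q : RO O) : evR z (exL m q) = evR (z ^ m) q := by
  let f : RO O →+ ℂ := ((evR z).comp (exL m)).toAddMonoidHom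
  let f' : RO O →+ ℂ := (evR (z ^ m)).toAddMonoidHom
  refine eq_of_single f f' q fun n _ => ?_
  change evR z (exL m (mz n (q.coeff n))) = evR (z ^ m) (mz n (q.coeff n))
  rw [exL_mz, evR_mz, evR_mz, zpow_mul, zpow_natCast]

/-- Gauss: a constant divisor of `c G`, `G` primitive, divides `c`. -/
theorem gauss {G : AO O L} (hG : Prim G) (x : RO O) :
    ∀ c : RO O, cst x ∣ cst c * G → x ∣ c := by
  have hG0 : G ≠ 0 := by
    rintro rfl
    have := hG 0 (dvd_zero _)
    exact not_isUnit_zero this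
  induction x using UniqueFactorizationMonoid.induction_on_prime with
  | h₁ =>
    intro c h
    have h1 : (cst c * G : AO O L) = 0 := by
      have h2 : (cst (0 : RO O) : AO O L) = 0 := AddMonoidAlgebra.single_zero _
      rw [h2, zero_dvd_iff] at h
      exact h
    rw [zero_dvd_iff]
    by_contra hc
    apply hG0
    apply AddMonoidAlgebra.ext
    apply Finsupp.ext
    intro a
    have h3 := congrArg (fun F : AO O L => F.coeff a) h1
    change (cst c * G).coeff a = 0 at h3
    rw [cst_mul_coeff] at h3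
    exact (mul_eq_zero.1 h3).resolve_left hc
  | h₂ x hx => exact fun c _ => hx.dvd
  | h₃ x π hx hπ ih =>
    intro c h
    have h1 : cst π ∣ cst c * G := by
      refine dvd_trans ?_ h
      rw [Pool.Agent.B5.H14.cst_mul]
      exact Dvd.intro _ rfl
    rcases Pool.Agent.B5.H14.prime_cst π hπ _ _ h1 with h2 | h2
    · have h3 : π ∣ c := by
        rw [Pool.Agent.B5.H14.cst_dvd_iff] at h2
        have h4 := h2 0
        unfold cst at h4
        rwa [AddMonoidAlgebra.coeff_single, Finsupp.single_eq_same] at h4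
      obtain ⟨c', rfl⟩ := h3
      refine mul_dvd_mul_left π (ih c' ?_)
      rw [Pool.Agent.B5.H14.cst_dvd_iff] at h ⊢
      intro a
      have h4 := h a
      rw [cst_mul_coeff, mul_assoc] at h4
      rw [cst_mul_coeff]
      exact (mul_dvd_mul_iff_left hπ.ne_zero).1 h4
    · exact absurd (hG π h2) hπ.not_isUnit

/-- THE CONTENT OF AN ELEMENT WITH EXPONENTS IN RESIDUE CLASSES. -/
theorem content (hPr : PrimS) (hKe : KerEvS) (hM1 : M1S) (hMm : MmulS) {m : ℕ} (hm : 0 < m)
    (E D' : AO O L) (c1 w : RO O) (hE0 : E ≠ 0) (hE : E = cst c1 * D') (hD' : Prim D')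
    (hw : c1 ∣ w) (hw0 : w ≠ 0) (hMw : M w = 1)
    (hcl : ∀ (a : L) (k k' : ℤ), (E.coeff a).coeff k ≠ 0 → (E.coeff a).coeff k' ≠ 0 →
      (m : ℤ) ∣ k - k') :
    ∃ (δ : RO O) (D'' : AO O L) (v : (RO O)ˣ), δ ≠ 0 ∧ E = cst (exL m δ) * D'' ∧
      D'' = cst (v : RO O) * D' ∧ c1 = exL m δ * (v : RO O) ∧
      ∀ (a : L) (k k' : ℤ), (D''.coeff a).coeff k ≠ 0 → (D''.coeff a).coeff k' ≠ 0 →
        (m : ℤ) ∣ k - k' := by
  classical
  -- exponents
  have hκ : ∀ a : L, ∃ k : ℤ, ∀ n, (E.coeff a).coeff n ≠ 0 → (m : ℤ) ∣ n - k := by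
    intro a
    by_cases h : ∃ k, (E.coeff a).coeff k ≠ 0
    · obtain ⟨k, hk⟩ := h
      exact ⟨k, fun n hn => hcl a n k hn hk⟩
    · push Not at h
      exact ⟨0, fun n hn => absurd (h n) hn⟩
  choose κ hκ using hκ
  have hE' : ∀ a : L, ∃ q' : RO O, E.coeff a = mz (κ a) 1 * exL m q' := fun a =>
    exists_exL hm (E.coeff a) (κ a) (hκ a)
  choose e' he' using hE'
  have he'0 : ∀ a, E.coeff a = 0 ↔ e' a = 0 := by
    intro a
    constructor
    · intro h
      rw [he' a] at h
      apply exL_inj hm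
      exact (mul_eq_zero.1 h).resolve_left (exL_T_unit (κ a)).ne_zero
    · intro h
      rw [he' a, h, map_zero, mul_zero]
  let E' : AO O L := AddMonoidAlgebra.ofCoeff (Finsupp.onFinset E.coeff.support e'
    (fun a ha => by
      rw [Finsupp.mem_support_iff]
      exact fun h => ha ((he'0 a).1 h)))
  have hE'c : ∀ a, E'.coeff a = e' a := fun a => rfl
  have hE'0 : E' ≠ 0 := by
    intro h
    apply hE0
    apply AddMonoidAlgebra.ext
    apply Finsupp.ext
    intro a
    have : e' a = 0 := by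
      rw [← hE'c, h]
      rfl
    exact (he'0 a).2 this
  obtain ⟨δ, E'', hδ, hE'', hPE⟩ := (hPr O L E' E').2.2 hE'0
  have hE''c : ∀ a, e' a = δ * E''.coeff a := by
    intro a
    rw [← hE'c, hE'', cst_mul_coeff]
  let D'' : AO O L := AddMonoidAlgebra.ofCoeff (Finsupp.onFinset E''.coeff.support
    (fun a => mz (κ a) 1 * exL m (E''.coeff a))
    (fun a ha => by
      rw [Finsupp.mem_support_iff]
      intro h
      rw [h, map_zero, mul_zero] at ha
      exact ha rfl))
  have hD''c : ∀ a, D''.coeff a = mz (κ a) 1 * exL m (E''.coeff a) := fun a => rfl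
  have hED : E = cst (exL m δ) * D'' := by
    apply AddMonoidAlgebra.ext
    apply Finsupp.ext
    intro a
    rw [cst_mul_coeff, hD''c, he' a, hE''c a, map_mul]
    ring
  have hexδ : exL m δ ≠ 0 := fun h => hδ (exL_inj hm h)
  have hc10 : c1 ≠ 0 := by
    rintro rfl
    obtain ⟨x, hx⟩ := hw
    exact hw0 (by rw [hx, zero_mul])
  -- `D''` is primitive
  have hPD : Prim D'' := by
    intro x hx
    by_contra hxu
    -- `x` divides `w`
    have h1 : cst (exL m δ * x) ∣ cst c1 * D' := by
      rw [← hE, hED, Pool.Agent.B5.H14.cst_mul]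
      exact mul_dvd_mul_left _ hx
    have h2 : exL m δ * x ∣ c1 := gauss hD' _ _ h1
    have h3 : x ∣ w := (Dvd.intro_left _ rfl).trans (h2.trans hw)
    obtain ⟨y, hy⟩ := h3
    have hx0 : x ≠ 0 := by
      rintro rfl
      exact hw0 (by rw [hy, zero_mul])
    have hy0 : y ≠ 0 := by
      rintro rfl
      exact hw0 (by rw [hy, mul_zero])
    have hMx : M x = 1 := by
      have h4 := (hMm O).1 x y hx0 hy0
      rw [← hy, hMw] at h4
      have h5 := (hMm O).2.1 x
      have h6 := (hMm O).2.1 y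
      nlinarith
    have h7 : ∃ z : Circle, evR z x = 0 := by
      by_contra hcon
      push Not at hcon
      exact hxu (hM1 O x hx0 hMx hcon)
    obtain ⟨z, hz⟩ := h7
    have h8 : ∀ a, evR (z ^ m) (E''.coeff a) = 0 := by
      intro a
      rw [Pool.Agent.B5.H14.cst_dvd_iff] at hx
      obtain ⟨y', hy'⟩ := hx a
      have h9 := congrArg (evR z) hy'
      rw [map_mul, hz, zero_mul, hD''c, map_mul] at h9
      have h10 : evR z (mz (κ a) (1 : O)) ≠ 0 := ((exL_T_unit (κ a)).map (evR z)).ne_zero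
      rw [← evR_exL]
      exact (mul_eq_zero.1 h9).resolve_left h10
    obtain ⟨y', hy'u, hy'⟩ := hKe O (z ^ m) (E''.coeff.support.image fun a => E''.coeff a) (by
        by_contra hcon
        push Not at hcon
        have : E'' = 0 := by
          apply AddMonoidAlgebra.ext
          apply Finsupp.ext
          intro a
          by_contra h9
          exact h9 (hcon _ (Finset.mem_image_of_mem _ (Finsupp.mem_support_iff.2 h9)))
        rw [this] at hE''
        rw [mul_zero] at hE''
        exact hE'0 hE'') (by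
        intro q hq
        obtain ⟨a, -, rfl⟩ := Finset.mem_image.1 hq
        exact h8 a)
    apply hy'u
    apply hPE
    rw [Pool.Agent.B5.H14.cst_dvd_iff]
    intro a
    by_cases h9 : E''.coeff a = 0
    · rw [h9]
      exact dvd_zero _
    · exact hy' _ (Finset.mem_image_of_mem _ (Finsupp.mem_support_iff.2 h9))
  -- comparison
  have h11 : c1 ∣ exL m δ := by
    apply gauss hPD
    rw [← hED, hE]
    exact Dvd.intro _ rfl
  have h12 : exL m δ ∣ c1 := by
    apply gauss hD'
    rw [← hE, hED]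
    exact Dvd.intro _ rfl
  obtain ⟨v, hv⟩ := associated_of_dvd_dvd h12 h11
  refine ⟨δ, D'', v, hδ, hED, ?_, hv.symm, ?_⟩
  · apply AddMonoidAlgebra.ext
    apply Finsupp.ext
    intro a
    rw [cst_mul_coeff]
    apply mul_left_cancel₀ hexδ
    have h13 := congrArg (fun F : AO O L => F.coeff a) hED
    change E.coeff a = (cst (exL m δ) * D'').coeff a at h13
    rw [cst_mul_coeff] at h13
    rw [← h13, hE, cst_mul_coeff, ← hv]
    ring
  · intro a k k' hk hk'
    have h14 : ∀ n, (D''.coeff a).coeff n ≠ 0 → (m : ℤ) ∣ n - κ a := by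
      intro n hn
      rw [hD''c, mz_mul_coeff] at hn
      by_contra h15
      exact hn (exL_coeff_not _ _ h15)
    have h15 := dvd_sub (h14 k hk) (h14 k' hk')
    rwa [sub_sub_sub_cancel_right] at h15

end

end Pool.Agent.B5.Dcm
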