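import Pool.Agent.Lib.MP_b5021c_nt.DCM.H61.Uni

/-!
# MP_b5021c_nt, board b5, chapter DCM: no factor of the homogeneous part is free of `w^S`
(helper61)
-/

set_option linter.unusedSectionVars false

namespace Pool.Agent.B5.Dcm

open scoped LaurentPolynomial
open Pool.Agent.B5 Pool.Agent.B5.H83 Pool.Agent.B5.H07 Pool.Agent.B5.H96

section alg

variable {O : Type} [CommRing O] {L : Type} [AddCommGroup L]

theorem emK_single (K : Submodule ℤ L) (a : K) (q : RO O) :
    emK K (AddMonoidAlgebra.single a q) = AddMonoidAlgebra.single (a : L) q := by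
  unfold emK
  simp [incl_apply]

theorem emK_res (K : Submodule ℤ L) (G : AO O L) (h : ∀ a ∈ supp G, a ∈ K) :
    emK K (res K G) = G := by
  apply AddMonoidAlgebra.ext
  apply Finsupp.ext
  intro a
  by_cases ha : a ∈ K
  · have h1 := emK_coeff K (res K G) ⟨a, ha⟩
    rw [res_coeff] at h1
    exact h1
  · rw [emK_coeff_not K _ a ha]
    by_contra h2
    exact ha (h a (fun h3 => h2 h3.symm))

theorem res_emK_mul (K : Submodule ℤ L) (A : AO O K) (W : AO O L) :
    res K (emK K A * W) = A * res K W := by
  let resH : AO O L →+ AO O K :=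
    { toFun := res K
      map_zero' := res_zero K
      map_add' := res_add K }
  let f : AO O K →+ AO O K := resH.comp ((AddMonoidHom.mulRight W).comp (emK K).toAddMonoidHom)
  let f' : AO O K →+ AO O K := AddMonoidHom.mulRight (res K W)
  refine eq_of_single f f' A fun a _ => ?_
  change res K (emK K (AddMonoidAlgebra.single a (A.coeff a)) * W) =
    AddMonoidAlgebra.single a (A.coeff a) * res K W
  generalize A.coeff a = q
  let e : AO O L →+ AO O K := resH.comp (AddMonoidHom.mulLeft (emK K (AddMonoidAlgebra.single a q)))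
  let e' : AO O L →+ AO O K := (AddMonoidHom.mulLeft (AddMonoidAlgebra.single a q)).comp resH
  refine eq_of_single e e' W fun b _ => ?_
  change res K (emK K (AddMonoidAlgebra.single a q) * AddMonoidAlgebra.single b (W.coeff b)) =
    AddMonoidAlgebra.single a q * res K (AddMonoidAlgebra.single b (W.coeff b))
  generalize W.coeff b = c
  rw [emK_single, AddMonoidAlgebra.single_mul_single]
  by_cases hb : b ∈ K
  · rw [res_single_mem K b hb, res_single_mem K ((a : L) + b) (K.add_mem a.2 hb),
      AddMonoidAlgebra.single_mul_single]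
    rfl
  · rw [res_single_not K b hb, res_single_not K, mul_zero]
    intro h2
    apply hb
    have h3 := K.sub_mem h2 a.2
    rwa [add_sub_cancel_left] at h3

theorem cl_emK (k : L →+ ℤ) (S : L) (h : k S = 1) (eta : (RO O)ˣ) (A : AO O (Ker k)) :
    cl k S h eta (emK (Ker k) A) = A := by
  let f : AO O (Ker k) →+ AO O (Ker k) :=
    ((cl k S h eta).comp (emK (Ker k))).toAddMonoidHom
  refine eq_of_single f (AddMonoidHom.id _) A fun a _ => ?_
  change cl k S h eta (emK (Ker k) (AddMonoidAlgebra.single a (A.coeff a))) =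
    AddMonoidAlgebra.single a (A.coeff a)
  rw [emK_single, cl_single]
  have h0 : k (a : L) = 0 := a.2
  have h1 : prj k S h (a : L) = a := by
    apply Subtype.ext
    rw [prj_coe, h0, zero_smul, sub_zero]
  rw [h1, h0, zpow_zero, Units.val_one, mul_one]

/-- the element from the restriction and from the closed element -/
theorem split (k : L →+ ℤ) (S : L) (h : k S = 1) (eta : (RO O)ˣ) (D : AO O L)
    (hb : ∀ a ∈ supp D, k a = 0 ∨ k a = 1) :
    D = emK (Ker k) (res (Ker k) D) + AddMonoidAlgebra.single S ((eta⁻¹ : (RO O)ˣ) : RO O) *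
      emK (Ker k) (cl k S h eta D - res (Ker k) D) := by
  let resH : AO O L →+ AO O (Ker k) :=
    { toFun := res (Ker k)
      map_zero' := res_zero _
      map_add' := res_add _ }
  let f : AO O L →+ AO O L := (emK (Ker k)).toAddMonoidHom.comp resH +
    (AddMonoidHom.mulLeft (AddMonoidAlgebra.single S ((eta⁻¹ : (RO O)ˣ) : RO O))).comp
      ((emK (Ker k)).toAddMonoidHom.comp ((cl k S h eta).toAddMonoidHom - resH))
  refine eq_of_single (AddMonoidHom.id _) f D fun a ha => ?_
  change AddMonoidAlgebra.single a (D.coeff a) =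
    emK (Ker k) (res (Ker k) (AddMonoidAlgebra.single a (D.coeff a))) +
      AddMonoidAlgebra.single S ((eta⁻¹ : (RO O)ˣ) : RO O) *
        emK (Ker k) (cl k S h eta (AddMonoidAlgebra.single a (D.coeff a)) -
          res (Ker k) (AddMonoidAlgebra.single a (D.coeff a)))
  rw [cl_single]
  rcases hb a ha with h0 | h1
  · have hm : a ∈ Ker k := h0
    have hp : prj k S h a = ⟨a, hm⟩ := by
      apply Subtype.ext
      rw [prj_coe, h0, zero_smul, sub_zero]
    rw [res_single_mem _ a hm, hp, h0, zpow_zero, Units.val_one, mul_one, sub_self, map_zero,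
      mul_zero, add_zero, emK_single]
  · have hm : a ∉ Ker k := by
      intro h2
      rw [mem_Ker, h1] at h2
      exact one_ne_zero h2
    rw [res_single_not _ a hm, h1, zpow_one, sub_zero, map_zero, zero_add, emK_single,
      AddMonoidAlgebra.single_mul_single, prj_coe, h1, one_smul]
    congr 1
    · abel
    · rw [mul_comm (D.coeff a), ← mul_assoc, Units.inv_mul, one_mul]

end alg

section

variable {O : Type} [CommRing O] [IsDomain O] [IsPrincipalIdealRing O] [Coef O] {P : Type}
  [Fintype P] [DecidableEq P] {L : Type} [AddCommGroup L] [Module.Free ℤ L] [Module.Finite ℤ L]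
  {Q : Type} [AddCommGroup Q]

variable {phi : L →+ (P → ℤ)} {D : AO O L} {S : L} {i0 : P} {eta : (RO O)ˣ}
  {h : co phi i0 S = 1} {g : Q} {l : L →+ Q} {r : Q} {p : RO O}

theorem nn_spec {lam : L →+ ℤ} {G : AO O L} (hG : Nn lam G) (z : Circle) : Nn lam (spec z G) := by
  intro a ha
  apply hG a
  rw [Finsupp.mem_support_iff] at ha ⊢
  intro h1
  rw [spec_coeff, h1, map_zero] at ha
  exact ha rfl

/-- NO FACTOR IS FREE OF `w^S`. -/
theorem factor_false [Fintype Q] [Fintype (AddChar Q Circle)] (h2 : MultiS) (h3 : StSpecS)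
    (h5 : B2cS) (h6 : G0S) (h7 : EvRS) (hZ : ZfinS) (hM : MinS) (hSl : SlMulS) (hC1a : C1aS)
    (hC1b : C1bS) (hPr : PrimS) (H : DC phi D S i0 eta h g l r p) (lam : L →+ ℤ)
    (hS : lam S = 0) (hlam : ∀ a ∈ supp D, a ≠ 0 → a ≠ S → 0 < lam a) (F W : AO O L)
    (hFW : dcm g l r (cst p * D) = F * W) (hE0 : dcm g l r (cst p * D) ≠ 0)
    (hirr : Irreducible F) (hwd : Wdep F) (hfull : FullAt (lam + co phi i0) F)
    (hk : ∀ a ∈ supp F, co phi i0 a = 0) : False := by
  set k := co phi i0 with hkdef
  have hD : DD phi D := H.cc.dd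
  have hbin : ∀ a ∈ supp D, k a = 0 ∨ k a = 1 := fun a ha => hD.bin a ha i0
  obtain ⟨hF0, hFpos, hFfull⟩ := hfull
  have hW0 : W ≠ 0 := by
    intro h0
    rw [h0, mul_zero] at hFW
    exact hE0 hFW
  have hln : ∀ a ∈ supp D, 0 ≤ lam a := by
    intro a ha
    rcases eq_or_ne a 0 with rfl | h0
    · rw [map_zero]
    · rcases eq_or_ne a S with rfl | h1
      · rw [hS]
      · exact (hlam a ha h0 h1).le
  -- degrees of `W`
  have hWlam : Nn lam W := by
    intro a ha
    refine hM O L W F hW0 hF0 lam 0 ?_ a (Finsupp.mem_support_iff.1 ha)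
    intro b hb
    rw [mul_comm, ← hFW] at hb
    exact hln b (supp_E hb)
  set F0 : AO O (Ker k) := res (Ker k) F with hF0def
  have hFK : ∀ a ∈ supp F, a ∈ Ker k := fun a ha => hk a ha
  have hemF : emK (Ker k) F0 = F := emK_res (Ker k) F hFK
  set lam' := lam.comp (incl (Ker k)) with hlam'
  have hmu : ∀ a : Ker k, (lam + k) (a : L) = lam' a := by
    intro a
    change lam (a : L) + k (a : L) = lam (a : L)
    have : k (a : L) = 0 := a.2
    rw [this, add_zero]
  have hF0pos : Pos lam' F0 := by
    intro a ha ha0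
    rw [← hmu]
    apply hFpos
    · rw [Finsupp.mem_support_iff, res_coeff] at ha
      exact Finsupp.mem_support_iff.2 ha
    · intro h0
      exact ha0 (Subtype.ext h0)
  have hF00 : F0.coeff 0 ≠ 0 := by
    rw [hF0def, res_coeff]
    exact hF0
  set X : AO O (Ker k) := res (Ker k) D with hX
  set V : AO O (Ker k) := cl k S h eta D with hV
  have hXn : Nn lam' X := by
    intro a ha
    rw [Finsupp.mem_support_iff, hX, res_coeff] at ha
    exact hln a ha
  -- the two products
  have hresE : res (Ker k) (dcm g l r (cst p * D)) = F0 * res (Ker k) W := by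
    rw [hFW, ← hemF, res_emK_mul]
  have hclE : cst p * V = F0 * cl k S h eta W := by
    rw [← cl_E H, hFW, map_mul, ← hemF, cl_emK]
  have hresWn : Nn lam' (res (Ker k) W) := by
    intro a ha
    rw [Finsupp.mem_support_iff, res_coeff] at ha
    exact hWlam a (Finsupp.mem_support_iff.2 ha)
  have hclWn : Nn lam' (cl k S h eta W) := by
    classical
    -- exponents of the closed element
    have hsub : ∀ G : AO O L, Nn lam G → Nn lam' (cl k S h eta G) := by
      intro G hG
      by_contra hcon
      have : ∃ b, (cl k S h eta G).coeff b ≠ 0 ∧ lam' b < 0 := by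
        by_contra h9
        push Not at h9
        exact hcon fun a ha => h9 a (Finsupp.mem_support_iff.1 ha)
      obtain ⟨b, hb, hb'⟩ := this
      apply hb
      let f : AO O L →+ RO O :=
        { toFun := fun G => (cl k S h eta G).coeff b
          map_zero' := by rw [map_zero]; rfl
          map_add' := fun p q => by rw [map_add, AddMonoidAlgebra.coeff_add]; rfl }
      have : f G = (0 : AO O L →+ RO O) G := by
        refine eq_of_single f 0 G fun a ha => ?_
        change (cl k S h eta (AddMonoidAlgebra.single a (G.coeff a))).coeff b = 0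
        rw [cl_single, AddMonoidAlgebra.coeff_single, Finsupp.single_apply, if_neg]
        intro h9
        have h10 : lam' (prj k S h a) = lam a := by
          rw [hlam', AddMonoidHom.comp_apply, incl_apply, prj_coe, map_sub, map_zsmul, hS,
            smul_zero, sub_zero]
        have h11 := hG a (Finsupp.mem_support_iff.2 ha)
        rw [← h10, h9] at h11
        omega
      exact this
    exact hsub W hWlam
  -- divisibility of the slices
  have hslice : ∀ z : Circle, evR z (p * (D.coeff 0 + (eta : RO O) * D.coeff S)) ≠ 0 →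
      ∀ v : AddChar (Ker k) Circle, sl v lam' (spec z F0) ∣ sl v lam' (spec z X) := by
    intro z hz v
    have hA := fun (x : AddChar Q Circle) (s : ℂ) (hs : ‖s‖ < 1) =>
      Ax_le h2 h3 h5 h6 h7 H lam hS hlam hz v s hs x
    have e1 : Wp phi D S i0 eta h p lam z v =
        sl v lam' (spec z F0) * sl v lam' (spec z (cl k S h eta W)) := by
      have e0 : Wp phi D S i0 eta h p lam z v = sl v lam' (spec z (cst p * V)) := rfl
      rw [e0, hclE, map_mul]
      exact (hSl (Ker k) v lam' _ _ (nn_spec (pos_nn hF0pos) z) (nn_spec hclWn z)).1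
    have e2 : ∑ x : AddChar Q Circle, Ax phi D i0 g l r p lam z v x =
        Polynomial.C (Fintype.card Q : ℂ) *
          (sl v lam' (spec z F0) * sl v lam' (spec z (res (Ker k) W))) := by
      have e0 : ∑ x : AddChar Q Circle, Ax phi D i0 g l r p lam z v x =
          Polynomial.C (Fintype.card Q : ℂ) *
            sl v lam' (spec z (res (Ker k) (dcm g l r (cst p * D)))) := Ax_sum lam z v
      rw [e0, hresE, map_mul]
      rw [(hSl (Ker k) v lam' _ _ (nn_spec (pos_nn hF0pos) z) (nn_spec hresWn z)).1]
    have hF0z : evR z (F.coeff 0) ≠ 0 := by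
      have h9 := (hA 1 0 (by simp)).1
      rw [e1, Polynomial.eval_mul] at h9
      have h10 := left_ne_zero_of_mul h9
      rw [← Polynomial.coeff_zero_eq_eval_zero, sl_coeff_zero (pos_spec hF0pos z), spec_coeff,
        hF0def, res_coeff] at h10
      exact h10
    have hpole := pole (Wp phi D S i0 eta h p lam z v) (sl v lam' (spec z F0))
      (fun x : AddChar Q Circle => Ax phi D i0 g l r p lam z v x)
      (fun s hs => (hA 1 s hs).1) (fun x s hs => (hA x s hs).2)
      (by rw [e1]; exact Dvd.intro _ rfl)
      (by rw [e2, ← mul_assoc, mul_comm (Polynomial.C _), mul_assoc]; exact Dvd.intro _ rfl)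
      (by
        intro s hs
        refine hFfull z hF0z (v.compAddMonoidHom (prj k S h)) s ?_
        rw [← hemF, sl_emK]
        have h9 : (v.compAddMonoidHom (prj k S h)).compAddMonoidHom (incl (Ker k)) = v := by
          ext a
          rw [AddChar.compAddMonoidHom_apply, AddChar.compAddMonoidHom_apply]
          congr 2
          apply Subtype.ext
          rw [prj_coe, incl_apply]
          have : k (a : L) = 0 := a.2
          rw [this, zero_smul, sub_zero]
        have h10 : (lam + k).comp (incl (Ker k)) = lam' := by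
          ext a
          exact hmu a
        rw [h9, h10]
        exact hs) 1
    have hpz : evR z p ≠ 0 := by
      rw [map_mul] at hz
      exact left_ne_zero_of_mul hz
    unfold Ax at hpole
    have h11 : tw (1 : AddChar Q Circle) (l.comp (incl (Ker (co phi i0)))) v = v := by
      ext a
      rw [tw_apply]
      simp
    have h12 : ((1 : AddChar Q Circle) (-r) : ℂ) * evR ((1 : AddChar Q Circle) g * z) p =
        evR z p := by simp
    have h13 : (1 : AddChar Q Circle) g * z = z := by simp
    rw [h12, h11, h13] at hpole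
    have hu : IsUnit (Polynomial.C (evR z p)) := Polynomial.isUnit_C.2 (isUnit_iff_ne_zero.2 hpz)
    exact (hu.dvd_mul_left).1 hpole
  -- division
  have hPrimF : Prim F := (hPr O L F F).2.1 hirr hwd
  have hPrimF0 : Prim F0 := by
    intro c hc
    apply hPrimF
    rw [← hemF, ← emK_cst (Ker k) c]
    exact map_dvd (emK (Ker k)) hc
  have hfin : {z : Circle | ¬ ∀ v : AddChar (Ker k) Circle,
      sl v lam' (spec z F0) ∣ sl v lam' (spec z X)}.Finite := by
    refine (hZ O (p * (D.coeff 0 + (eta : RO O) * D.coeff S))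
      (mul_ne_zero H.p0 H.cc.v0)).subset ?_
    intro z hz
    by_contra h9
    exact hz (hslice z h9)
  obtain ⟨n, hn⟩ := hC1a O (Ker k) F0 X lam' hF00 hF0pos hXn hfin
  have hdX : F0 ∣ X := hC1b O (Ker k) F0 X (F0.coeff 0 ^ n) hPrimF0 (pow_ne_zero _ hF00) hn
  have hdV : F0 ∣ V := hC1b O (Ker k) F0 V p hPrimF0 H.p0 (by rw [hclE]; exact Dvd.intro _ rfl)
  have hdD : F ∣ D := by
    rw [split k S h eta D hbin, ← hemF]
    exact dvd_add (map_dvd (emK (Ker k)) hdX)
      (Dvd.dvd.mul_left (map_dvd (emK (Ker k)) (dvd_sub hdV hdX)) _)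
  -- contradiction
  obtain ⟨w, hw⟩ := hdD
  have hwu : IsUnit w := by
    rcases hD.irr.isUnit_or_isUnit hw with h9 | h9
    · exact absurd h9 hirr.not_isUnit
    · exact h9
  obtain ⟨b, c, hc, hbc⟩ := (Pool.Agent.B5.H03.una O L w).1 hwu
  have hcoef : ∀ a, D.coeff a = F.coeff (a - b) * c := by
    intro a
    rw [hw, hbc, AddMonoidAlgebra.coeff_mul_single_eq_coeff_mul (a - b)]
    intro m' _
    constructor
    · intro h3
      rw [← h3, add_sub_cancel_right]
    · intro h3
      rw [h3, sub_add_cancel]
  have h20 : k (0 - b) = 0 := by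
    apply hk
    intro h9
    have h10 : F.coeff (0 - b) = 0 := h9
    have := hcoef 0
    rw [h10, zero_mul] at this
    exact hD.st.1 this
  have h21 : k (S - b) = 0 := by
    apply hk
    intro h9
    have h10 : F.coeff (S - b) = 0 := h9
    have := hcoef S
    rw [h10, zero_mul] at this
    exact H.cc.ray.1 this
  rw [map_sub, map_zero] at h20
  rw [map_sub, h] at h21
  omega

end

end Pool.Agent.B5.Dcm
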