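import Pool.Agent.Lib.MP_b5021c_nt.IfaceDcm
import Pool.Agent.Lib.MP_b5021c_nt.B.H24.B5u
import Pool.Agent.Lib.MP_b5021c_nt.B.H83.I1A
import Pool.Agent.Lib.MP_b5021c_nt.H96.Emb

/-!
# MP_b5021c_nt, board b5, chapter DCM: gradings by a finite group (helper61)
-/

namespace Pool.Agent.B5.Dcm

open scoped LaurentPolynomial
open Pool.Agent.B5 Pool.Agent.B5.H83

section alg

variable {O : Type} [CommRing O] {L : Type} [AddCommGroup L] {Q : Type} [AddCommGroup Q]

/-- the monomial `c z^n` -/
noncomputable def mz (n : ℤ) (c : O) : RO O := AddMonoidAlgebra.single n c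

theorem mz_mul (n m : ℤ) (c d : O) : mz n c * mz m d = mz (n + m) (c * d) := by
  unfold mz
  rw [AddMonoidAlgebra.single_mul_single]

/-- additive functions are determined by the values on monomials of the support -/
theorem ext2 {M : Type} [AddCommMonoid M] (f g : AO O L →+ M) (D : AO O L)
    (h : ∀ (a : L) (n : ℤ), (D.coeff a).coeff n ≠ 0 →
      f (AddMonoidAlgebra.single a (mz n ((D.coeff a).coeff n))) =
        g (AddMonoidAlgebra.single a (mz n ((D.coeff a).coeff n)))) : f D = g D := by
  refine eq_of_single f g D fun a _ => ?_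
  let F : RO O →+ M := f.comp (AddMonoidAlgebra.singleAddHom a)
  let G : RO O →+ M := g.comp (AddMonoidAlgebra.singleAddHom a)
  exact eq_of_single F G (D.coeff a) fun n hn => h a n hn

theorem pm_zero (g r : Q) : pm g r (0 : RO O) = 0 := by
  apply AddMonoidAlgebra.ext
  ext n
  rw [pm_coeff]
  simp

theorem pm_add (g r : Q) (p q : RO O) : pm g r (p + q) = pm g r p + pm g r q := by
  apply AddMonoidAlgebra.ext
  ext n
  rw [AddMonoidAlgebra.coeff_add, Finsupp.add_apply, pm_coeff, pm_coeff, pm_coeff,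
    AddMonoidAlgebra.coeff_add, Finsupp.add_apply]
  split_ifs <;> simp

open Classical in
theorem pm_mz (g r : Q) (n : ℤ) (c : O) : pm g r (mz n c) = if n • g = r then mz n c else 0 := by
  apply AddMonoidAlgebra.ext
  ext m
  rw [pm_coeff]
  unfold mz
  rw [AddMonoidAlgebra.coeff_single]
  by_cases h : n • g = r
  · rw [if_pos h, AddMonoidAlgebra.coeff_single]
    by_cases h2 : m • g = r
    · rw [if_pos h2]
    · rw [if_neg h2, Finsupp.single_apply, if_neg]
      rintro rfl
      exact h2 h
  · rw [if_neg h]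
    by_cases h2 : m • g = r
    · rw [if_pos h2, Finsupp.single_apply, if_neg]
      · rfl
      · rintro rfl
        exact h h2
    · rw [if_neg h2]
      rfl

theorem dcm_zero (g : Q) (l : L →+ Q) (r : Q) : dcm g l r (0 : AO O L) = 0 := by
  apply AddMonoidAlgebra.ext
  apply Finsupp.ext
  intro a
  rw [dcm_coeff]
  exact pm_zero _ _

theorem dcm_add (g : Q) (l : L →+ Q) (r : Q) (p q : AO O L) :
    dcm g l r (p + q) = dcm g l r p + dcm g l r q := by
  apply AddMonoidAlgebra.ext
  apply Finsupp.ext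
  intro a
  rw [AddMonoidAlgebra.coeff_add, Finsupp.add_apply, dcm_coeff, dcm_coeff, dcm_coeff,
    AddMonoidAlgebra.coeff_add, Finsupp.add_apply, pm_add]

/-- `dcm` as an additive function -/
noncomputable def dcmH (g : Q) (l : L →+ Q) (r : Q) : AO O L →+ AO O L where
  toFun := dcm g l r
  map_zero' := dcm_zero g l r
  map_add' := dcm_add g l r

theorem dcm_single (g : Q) (l : L →+ Q) (r : Q) (a : L) (q : RO O) :
    dcm g l r (AddMonoidAlgebra.single a q) =
      AddMonoidAlgebra.single a (pm g (r - l a) q) := by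
  classical
  apply AddMonoidAlgebra.ext
  apply Finsupp.ext
  intro b
  rw [dcm_coeff, AddMonoidAlgebra.coeff_single, AddMonoidAlgebra.coeff_single,
    Finsupp.single_apply, Finsupp.single_apply]
  split_ifs with h
  · rw [h]
  · exact pm_zero _ _

open Classical in
theorem dcm_mono (g : Q) (l : L →+ Q) (r : Q) (a : L) (n : ℤ) (c : O) :
    dcm g l r (AddMonoidAlgebra.single a (mz n c)) =
      if n • g + l a = r then AddMonoidAlgebra.single a (mz n c) else 0 := by
  rw [dcm_single, pm_mz]
  by_cases h : n • g + l a = r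
  · rw [if_pos h, if_pos (by rw [← h]; abel)]
  · rw [if_neg h, if_neg]
    · exact AddMonoidAlgebra.single_zero a
    · intro h2
      apply h
      rw [h2]
      abel

theorem dcm_hmg (g : Q) (l : L →+ Q) (r : Q) (D : AO O L) : Hmg g l r (dcm g l r D) := by
  classical
  intro a n h
  rw [dcm_coeff, pm_coeff] at h
  by_cases h2 : n • g = r - l a
  · rw [h2]
    abel
  · rw [if_neg h2] at h
    exact absurd rfl h

theorem dcm_of_hmg {g : Q} {l : L →+ Q} {r : Q} {D : AO O L} (h : Hmg g l r D) :
    dcm g l r D = D := by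
  classical
  apply AddMonoidAlgebra.ext
  apply Finsupp.ext
  intro a
  apply AddMonoidAlgebra.ext
  ext n
  rw [dcm_coeff, pm_coeff]
  by_cases h2 : (D.coeff a).coeff n = 0
  · rw [h2]
    simp
  · rw [if_pos]
    rw [← h a n h2]
    abel

/-- multiplication with a homogeneous element -/
theorem dcm_mul {g : Q} {l : L →+ Q} {s : Q} {G : AO O L} (hG : Hmg g l s G) (r : Q)
    (D : AO O L) : dcm g l r (G * D) = G * dcm g l (r - s) D := by
  classical
  let f : AO O L →+ AO O L := (dcmH g l r).comp (AddMonoidHom.mulRight D)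
  let f' : AO O L →+ AO O L := AddMonoidHom.mulRight (dcm g l (r - s) D)
  refine ext2 f f' G fun a n hn => ?_
  have hs := hG a n hn
  change dcm g l r (AddMonoidAlgebra.single a (mz n ((G.coeff a).coeff n)) * D) =
    AddMonoidAlgebra.single a (mz n ((G.coeff a).coeff n)) * dcm g l (r - s) D
  generalize (G.coeff a).coeff n = c
  let e : AO O L →+ AO O L := (dcmH g l r).comp
    (AddMonoidHom.mulLeft (AddMonoidAlgebra.single a (mz n c)))
  let e' : AO O L →+ AO O L := (AddMonoidHom.mulLeft (AddMonoidAlgebra.single a (mz n c))).comp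
    (dcmH g l (r - s))
  refine ext2 e e' D fun b m _ => ?_
  change dcm g l r (AddMonoidAlgebra.single a (mz n c) *
    AddMonoidAlgebra.single b (mz m ((D.coeff b).coeff m))) =
    AddMonoidAlgebra.single a (mz n c) *
      dcm g l (r - s) (AddMonoidAlgebra.single b (mz m ((D.coeff b).coeff m)))
  generalize (D.coeff b).coeff m = d
  rw [AddMonoidAlgebra.single_mul_single, mz_mul, dcm_mono, dcm_mono]
  have hiff : (n + m) • g + l (a + b) = r ↔ m • g + l b = r - s := by
    rw [add_smul, map_add, ← hs]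
    constructor
    · intro h
      rw [← h]
      abel
    · intro h
      have h2 : n • g + m • g + (l a + l b) = (m • g + l b) + (n • g + l a) := by abel
      rw [h2, h]
      abel
  by_cases h : (n + m) • g + l (a + b) = r
  · rw [if_pos h, if_pos (hiff.1 h), AddMonoidAlgebra.single_mul_single, mz_mul]
  · rw [if_neg h, if_neg (fun h2 => h (hiff.2 h2)), mul_zero]

theorem hmg_mul {g : Q} {l : L →+ Q} {r s : Q} {G D : AO O L} (hG : Hmg g l s G)
    (hD : Hmg g l r D) : Hmg g l (s + r) (G * D) := by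
  have h := dcm_mul hG (s + r) D
  rw [add_sub_cancel_left, dcm_of_hmg hD] at h
  rw [← h]
  exact dcm_hmg _ _ _ _

/-- the degree of a homogeneous element is unique -/
theorem hmg_unique {g : Q} {l : L →+ Q} {r s : Q} {D : AO O L} (h0 : D ≠ 0) (h : Hmg g l r D)
    (h' : Hmg g l s D) : r = s := by
  have h1 : ∃ a, D.coeff a ≠ 0 := by
    by_contra hcon
    push Not at hcon
    apply h0
    apply AddMonoidAlgebra.ext
    apply Finsupp.ext
    intro a
    exact hcon a
  obtain ⟨a, ha⟩ := h1
  have h2 : ∃ n, (D.coeff a).coeff n ≠ 0 := by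
    by_contra hcon
    push Not at hcon
    apply ha
    apply AddMonoidAlgebra.ext
    apply Finsupp.ext
    intro n
    exact hcon n
  obtain ⟨n, hn⟩ := h2
  rw [← h a n hn, ← h' a n hn]

theorem supp_dcm {g : Q} {l : L →+ Q} {r : Q} {D : AO O L} {a : L}
    (h : a ∈ supp (dcm g l r D)) : a ∈ supp D := by
  intro h0
  apply h
  have h1 : D.coeff a = 0 := h0
  change (dcm g l r D).coeff a = 0
  rw [dcm_coeff, h1, pm_zero]

/-- restriction to a sublattice -/
theorem dcm_res (K : Submodule ℤ L) (g : Q) (l : L →+ Q) (r : Q) (D : AO O L) :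
    res K (dcm g l r D) = dcm g (l.comp (incl K)) r (res K D) := by
  apply AddMonoidAlgebra.ext
  apply Finsupp.ext
  intro a
  rw [res_coeff, dcm_coeff, dcm_coeff, res_coeff]
  rfl

end alg

section unit

variable {O : Type} [CommRing O] [IsDomain O] {L : Type} [AddCommGroup L] {Q : Type}
  [AddCommGroup Q]

/-- a unit of `R` is a monomial -/
theorem unit_mz (eta : (RO O)ˣ) : ∃ (n : ℤ) (u : Oˣ), (eta : RO O) = mz n (u : O) := by
  obtain ⟨n, u, hu, h⟩ := (Pool.Agent.B5.H02.unit_laurent (eta : RO O)).1 eta.isUnit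
  refine ⟨n, hu.unit, ?_⟩
  rw [h, ← LaurentPolynomial.single_eq_C_mul_T]
  rfl

omit [IsDomain O] in
theorem zpow_mz (eta : (RO O)ˣ) (n : ℤ) (u : Oˣ) (h : (eta : RO O) = mz n (u : O)) (k : ℤ) :
    ((eta ^ k : (RO O)ˣ) : RO O) = mz (k * n) ((u ^ k : Oˣ) : O) := by
  -- the homomorphism `u^k z^(k n)`
  let v : (RO O)ˣ := ⟨mz n (u : O), mz (-n) ((u⁻¹ : Oˣ) : O), by
    rw [mz_mul, add_neg_cancel, Units.mul_inv]; rfl, by
    rw [mz_mul, neg_add_cancel, Units.inv_mul]; rfl⟩
  have hv : eta = v := Units.ext h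
  rw [hv]
  have hnat : ∀ m : ℕ, ((v ^ m : (RO O)ˣ) : RO O) = mz (m * n) ((u ^ m : Oˣ) : O) := by
    intro m
    induction m with
    | zero =>
      rw [pow_zero, pow_zero, Units.val_one, Units.val_one, Nat.cast_zero, zero_mul]
      rfl
    | succ m ih =>
      rw [pow_succ, Units.val_mul, ih, pow_succ, Units.val_mul]
      change mz _ _ * mz n (u : O) = _
      rw [mz_mul]
      congr 1
      push_cast
      ring
  have hinv : ∀ m : ℕ, ((v⁻¹ ^ m : (RO O)ˣ) : RO O) = mz (-(m * n)) ((u⁻¹ ^ m : Oˣ) : O) := by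
    intro m
    induction m with
    | zero =>
      rw [pow_zero, pow_zero, Units.val_one, Units.val_one, Nat.cast_zero, zero_mul, neg_zero]
      rfl
    | succ m ih =>
      rw [pow_succ, Units.val_mul, ih, pow_succ, Units.val_mul]
      change mz _ _ * mz (-n) ((u⁻¹ : Oˣ) : O) = _
      rw [mz_mul]
      congr 1
      push_cast
      ring
  rcases Int.eq_nat_or_neg k with ⟨m, rfl | rfl⟩
  · rw [zpow_natCast, zpow_natCast, hnat]
  · rw [zpow_neg, zpow_natCast, ← inv_pow, hinv, zpow_neg, zpow_natCast, ← inv_pow, neg_mul]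

/-- closing is homogeneous -/
theorem dcm_cl (k : L →+ ℤ) (S : L) (h : k S = 1) (eta : (RO O)ˣ) (g : Q) (l : L →+ Q) (r : Q)
    (hη : ∀ n : ℤ, (eta : RO O).coeff n ≠ 0 → n • g = l S) (D : AO O L) :
    cl k S h eta (dcm g l r D) = dcm g (l.comp (incl (Ker k))) r (cl k S h eta D) := by
  classical
  obtain ⟨n0, u, hu⟩ := unit_mz eta
  have hn0 : n0 • g = l S := by
    apply hη
    rw [hu]
    unfold mz
    rw [AddMonoidAlgebra.coeff_single, Finsupp.single_eq_same]
    exact u.ne_zero
  let f : AO O L →+ AO O (Ker k) := (cl k S h eta).toAddMonoidHom.comp (dcmH g l r)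
  let f' : AO O L →+ AO O (Ker k) := (dcmH g (l.comp (incl (Ker k))) r).comp
    (cl k S h eta).toAddMonoidHom
  refine ext2 f f' D fun a n _ => ?_
  change cl k S h eta (dcm g l r (AddMonoidAlgebra.single a (mz n ((D.coeff a).coeff n)))) =
    dcm g (l.comp (incl (Ker k))) r
      (cl k S h eta (AddMonoidAlgebra.single a (mz n ((D.coeff a).coeff n))))
  generalize (D.coeff a).coeff n = c
  rw [cl_single, zpow_mz eta n0 u hu, mz_mul, dcm_mono, dcm_mono]
  have hd : (n + k a * n0) • g + (l.comp (incl (Ker k))) (prj k S h a) = n • g + l a := by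
    rw [AddMonoidHom.comp_apply, incl_apply, prj_coe, map_sub, map_zsmul, add_smul, mul_smul, hn0]
    abel
  rw [hd]
  by_cases h2 : n • g + l a = r
  · rw [if_pos h2, if_pos h2, cl_single, zpow_mz eta n0 u hu, mz_mul]
  · rw [if_neg h2, if_neg h2, map_zero]

end unit

section ev

variable {O : Type} [CommRing O] [IsDomain O] [IsPrincipalIdealRing O] [Coef O] {L : Type}
  [AddCommGroup L] {Q : Type} [AddCommGroup Q]

theorem rsh_mz (n : ℤ) (c : O) : rsh (mz n c) = mz (-n) ((Coef.conj : O ≃+* O) c) := by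
  have h := Pool.Agent.B5.H24.rsh_C_T c n
  rw [← LaurentPolynomial.single_eq_C_mul_T, ← LaurentPolynomial.single_eq_C_mul_T] at h
  exact h

theorem dcm_sharp (g : Q) (l : L →+ Q) (r : Q) (D : AO O L) :
    sharp (dcm g l r D) = dcm g l (-r) (sharp D) := by
  classical
  let f : AO O L →+ AO O L := (sharp (O := O) (L := L)).toAddMonoidHom.comp (dcmH g l r)
  let f' : AO O L →+ AO O L := (dcmH g l (-r)).comp (sharp (O := O) (L := L)).toAddMonoidHom
  refine ext2 f f' D fun a n _ => ?_
  change sharp (dcm g l r (AddMonoidAlgebra.single a (mz n ((D.coeff a).coeff n)))) =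
    dcm g l (-r) (sharp (AddMonoidAlgebra.single a (mz n ((D.coeff a).coeff n))))
  generalize (D.coeff a).coeff n = c
  rw [Pool.Agent.B5.H24.sharp_single, rsh_mz, dcm_mono, dcm_mono]
  have hd : (-n) • g + l (-a) = -r ↔ n • g + l a = r := by
    rw [map_neg, neg_smul, ← neg_add, neg_inj]
  by_cases h : n • g + l a = r
  · rw [if_pos h, if_pos (hd.2 h), Pool.Agent.B5.H24.sharp_single, rsh_mz]
  · rw [if_neg h, if_neg (fun h2 => h (hd.1 h2)), map_zero]

theorem hmg_sharp {g : Q} {l : L →+ Q} {r : Q} {D : AO O L} (h : Hmg g l r D) :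
    Hmg g l (-r) (sharp D) := by
  have h2 := dcm_sharp g l r D
  rw [dcm_of_hmg h] at h2
  rw [h2]
  exact dcm_hmg _ _ _ _

/-! ## Evaluation -/

/-- evaluation with arbitrary values of the exponents -/
noncomputable def Ph {M : Type} [AddCommGroup M] [Module ℂ M] (z : Circle) (u : AddChar L Circle)
    (c : L → M) : AO O L →+ M where
  toFun D := D.coeff.sum fun a q => (evR z q * (u a : ℂ)) • c a
  map_zero' := by simp
  map_add' p q := by
    rw [AddMonoidAlgebra.coeff_add]
    apply Finsupp.sum_add_index'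
    · intro a; simp
    · intro a b d; rw [map_add, add_mul, add_smul]

theorem Ph_apply {M : Type} [AddCommGroup M] [Module ℂ M] (z : Circle) (u : AddChar L Circle)
    (c : L → M) (D : AO O L) :
    Ph z u c D = D.coeff.sum fun a q => (evR z q * (u a : ℂ)) • c a := rfl

theorem Ph_single {M : Type} [AddCommGroup M] [Module ℂ M] (z : Circle) (u : AddChar L Circle)
    (c : L → M) (a : L) (q : RO O) :
    Ph z u c (AddMonoidAlgebra.single a q) = (evR z q * (u a : ℂ)) • c a := by
  rw [Ph_apply, AddMonoidAlgebra.coeff_single]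
  apply Finsupp.sum_single_index
  simp

omit [IsDomain O] [IsPrincipalIdealRing O] in
theorem evR_mz (z : Circle) (n : ℤ) (c : O) :
    evR z (mz n c) = Coef.emb c * ((z ^ n : Circle) : ℂ) := by
  unfold mz
  rw [LaurentPolynomial.single_eq_C_mul_T, map_mul]
  unfold evR
  rw [LaurentPolynomial.eval₂_C, LaurentPolynomial.eval₂_T]
  congr 1
  rw [← map_zpow]
  rfl

/-- the translated character -/
noncomputable def tw (x : AddChar Q Circle) (l : L →+ Q) (u : AddChar L Circle) :
    AddChar L Circle := u * x.compAddMonoidHom l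

theorem tw_apply (x : AddChar Q Circle) (l : L →+ Q) (u : AddChar L Circle) (a : L) :
    tw x l u a = u a * x (l a) := rfl

theorem Ph_hmg {M : Type} [AddCommGroup M] [Module ℂ M] {g : Q} {l : L →+ Q} {r : Q}
    {D : AO O L} (h : Hmg g l r D) (x : AddChar Q Circle) (z : Circle) (u : AddChar L Circle)
    (c : L → M) : Ph (x g * z) (tw x l u) c D = (x r : ℂ) • Ph z u c D := by
  let f : AO O L →+ M := Ph (x g * z) (tw x l u) c
  let f' : AO O L →+ M := (DistribSMul.toAddMonoidHom M (x r : ℂ)).comp (Ph z u c)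
  refine ext2 f f' D fun a n hn => ?_
  have hr := h a n hn
  change Ph (x g * z) (tw x l u) c _ = (x r : ℂ) • Ph z u c _
  rw [Ph_single, Ph_single, evR_mz, evR_mz, tw_apply, smul_smul]
  congr 1
  rw [mul_zpow, ← AddChar.map_zsmul_eq_zpow, ← hr, AddChar.map_add_eq_mul]
  push_cast
  ring

theorem Ph_avg {M : Type} [AddCommGroup M] [Module ℂ M] [Fintype Q]
    [Fintype (AddChar Q Circle)] (g : Q) (l : L →+ Q) (r : Q) (D : AO O L) (z : Circle)
    (u : AddChar L Circle) (c : L → M) :
    ∑ x : AddChar Q Circle, (x (-r) : ℂ) • Ph (x g * z) (tw x l u) c D =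
      (Fintype.card Q : ℂ) • Ph z u c (dcm g l r D) := by
  classical
  let f : AO O L →+ M := ∑ x : AddChar Q Circle,
    (DistribSMul.toAddMonoidHom M (x (-r) : ℂ)).comp (Ph (x g * z) (tw x l u) c)
  let f' : AO O L →+ M := (DistribSMul.toAddMonoidHom M (Fintype.card Q : ℂ)).comp
    ((Ph z u c).comp (dcmH g l r))
  have hf : f D = ∑ x : AddChar Q Circle, (x (-r) : ℂ) • Ph (x g * z) (tw x l u) c D := by
    simp only [f, AddMonoidHom.finsetSum_apply]
    rfl
  rw [← hf]
  refine ext2 f f' D fun a n hn => ?_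
  generalize (D.coeff a).coeff n = d
  have h1 : f (AddMonoidAlgebra.single a (mz n d)) = ∑ x : AddChar Q Circle,
      (x (-r) : ℂ) • Ph (x g * z) (tw x l u) c (AddMonoidAlgebra.single a (mz n d)) := by
    simp only [f, AddMonoidHom.finsetSum_apply]
    rfl
  rw [h1]
  change _ = (Fintype.card Q : ℂ) • Ph z u c (dcm g l r (AddMonoidAlgebra.single a (mz n d)))
  have hx : ∀ x : AddChar Q Circle,
      (x (-r) : ℂ) • Ph (x g * z) (tw x l u) c (AddMonoidAlgebra.single a (mz n d)) =
        (x (n • g + l a - r) : ℂ) • Ph z u c (AddMonoidAlgebra.single a (mz n d)) := by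
    intro x
    rw [Ph_single, Ph_single, evR_mz, evR_mz, tw_apply, smul_smul, smul_smul]
    congr 1
    rw [mul_zpow, ← AddChar.map_zsmul_eq_zpow, sub_eq_add_neg, AddChar.map_add_eq_mul,
      AddChar.map_add_eq_mul]
    push_cast
    ring
  have hsum : ∑ x : AddChar Q Circle, ((x (n • g + l a - r) : Circle) : ℂ) =
      if n • g + l a - r = 0 then (Fintype.card Q : ℂ) else 0 := by
    rw [← AddChar.sum_apply_eq_ite (n • g + l a - r)]
    exact Fintype.sum_equiv (AddChar.circleEquivComplex (α := Q)).toEquiv _ _ fun x => rfl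
  rw [Finset.sum_congr rfl fun x _ => hx x, ← Finset.sum_smul, hsum, dcm_mono]
  by_cases h2 : n • g + l a = r
  · rw [if_pos h2, if_pos (by rw [h2, sub_self])]
  · rw [if_neg h2, if_neg (fun h3 => h2 (sub_eq_zero.1 h3)), map_zero, zero_smul, smul_zero]

theorem sl_eq_Ph (z : Circle) (u : AddChar L Circle) (lam : L →+ ℤ) (D : AO O L) :
    sl u lam (spec z D) = Ph z u (fun a => Polynomial.monomial (lam a).toNat (1 : ℂ)) D := by
  let f : AO O L →+ Polynomial ℂ :=
    { toFun := fun D => sl u lam (spec z D)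
      map_zero' := by rw [map_zero, sl_zero]
      map_add' := fun p q => by rw [map_add, sl_add] }
  refine eq_of_single f _ D fun a _ => ?_
  change sl u lam (spec z (AddMonoidAlgebra.single a (D.coeff a))) = _
  rw [spec_single, sl_single, Ph_single, Polynomial.smul_monomial, smul_eq_mul, mul_one]

theorem mev_eq_Ph {ι : Type} [Fintype ι] (z : Circle) (u : AddChar L Circle) (mu : ι → L →+ ℤ)
    (t : ι → ℂ) (D : AO O L) :
    mev u mu t (spec z D) = Ph z u (fun a => ∏ i, t i ^ (mu i a).toNat) D := by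
  let f : AO O L →+ ℂ :=
    { toFun := fun D => mev u mu t (spec z D)
      map_zero' := by rw [map_zero, mev_zero]
      map_add' := fun p q => by rw [map_add, mev_add] }
  refine eq_of_single f _ D fun a _ => ?_
  change mev u mu t (spec z (AddMonoidAlgebra.single a (D.coeff a))) = _
  rw [spec_single, mev_single, Ph_single, smul_eq_mul]

theorem Ph_cst {M : Type} [AddCommGroup M] [Module ℂ M] (z : Circle) (u : AddChar L Circle)
    (c : L → M) (p : RO O) (D : AO O L) : Ph z u c (cst p * D) = evR z p • Ph z u c D := by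
  induction D using AddMonoidAlgebra.induction_linear with
  | zero => rw [mul_zero, map_zero, smul_zero]
  | add f g hf hg => rw [mul_add, map_add, map_add, smul_add, hf, hg]
  | single a q =>
    have h : (cst p * AddMonoidAlgebra.single a q : AO O L) =
        AddMonoidAlgebra.single a (p * q) := by
      unfold cst
      rw [AddMonoidAlgebra.single_mul_single, zero_add]
    rw [h, Ph_single, Ph_single, map_mul, smul_smul, mul_assoc]

end ev

end Pool.Agent.B5.Dcm
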