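import Pool.Agent.Lib.MP_b5021c_nt.DCM.H61.Exp

/-!
# MP_b5021c_nt, board b5, chapter DCM: polynomials with Mahler measure one (helper61)
-/

set_option linter.unusedSectionVars false

namespace Pool.Agent.B5.Dcm

open scoped LaurentPolynomial
open Pool.Agent.B5 Polynomial

theorem rec_mul {A B : RO ℤ} (hA : Associated (rsh A) A) (hB : Associated (rsh B) B) :
    Associated (rsh (A * B)) (A * B) := by
  rw [map_mul]
  exact hA.mul_mul hB

theorem rec_cancel {A B : RO ℤ} (hA0 : A ≠ 0) (hA : Associated (rsh A) A)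
    (hAB : Associated (rsh (A * B)) (A * B)) : Associated (rsh B) B := by
  rw [map_mul] at hAB
  refine hAB.of_mul_left hA ?_
  intro h0
  have h1 := hA.eq_zero_iff.1 h0
  exact hA0 h1

theorem rec_prod {ι : Type} (s : Finset ι) (A : ι → RO ℤ)
    (h : ∀ i ∈ s, Associated (rsh (A i)) (A i)) : Associated (rsh (∏ i ∈ s, A i)) (∏ i ∈ s, A i) := by
  classical
  induction s using Finset.induction_on with
  | empty => rw [Finset.prod_empty, map_one]
  | insert i s hi ih =>
    rw [Finset.prod_insert hi]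
    exact rec_mul (h i (Finset.mem_insert_self i s))
      (ih fun j hj => h j (Finset.mem_insert_of_mem hj))

theorem rec_pow {A : RO ℤ} (h : Associated (rsh A) A) (n : ℕ) :
    Associated (rsh (A ^ n)) (A ^ n) := by
  rw [map_pow]
  exact h.pow_pow

theorem rec_X (n : ℕ) : Associated (rsh (toLaurent (X ^ n - 1 : ℤ[X]))) (toLaurent (X ^ n - 1)) := by
  have h1 : toLaurent (X ^ n - 1 : ℤ[X]) = LaurentPolynomial.T (n : ℤ) - 1 := by
    rw [map_sub, map_one, toLaurent_X_pow]
  rw [h1, rsh_int, map_sub, map_one, LaurentPolynomial.invert_T]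
  have hu : IsUnit (-(LaurentPolynomial.T (n : ℤ)) : RO ℤ) :=
    (LaurentPolynomial.isUnit_T (R := ℤ) (n : ℤ)).neg
  refine ⟨hu.unit, ?_⟩
  change (LaurentPolynomial.T (-(n : ℤ)) - 1) * (-(LaurentPolynomial.T (n : ℤ)) : RO ℤ) = _
  rw [mul_neg, sub_mul, ← LaurentPolynomial.T_add, neg_add_cancel, LaurentPolynomial.T_zero,
    one_mul]
  ring

theorem rec_cyc (n : ℕ) (hn : 0 < n) :
    Associated (rsh (toLaurent (cyclotomic n ℤ))) (toLaurent (cyclotomic n ℤ)) := by
  induction n using Nat.strong_induction_on with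
  | _ n ih =>
    have h1 := prod_cyclotomic_eq_X_pow_sub_one hn ℤ
    rw [← Nat.insert_self_properDivisors hn.ne',
      Finset.prod_insert Nat.self_notMem_properDivisors] at h1
    have h2 : toLaurent (∏ d ∈ n.properDivisors, cyclotomic d ℤ) =
        ∏ d ∈ n.properDivisors, toLaurent (cyclotomic d ℤ) := map_prod _ _ _
    have h3 : toLaurent (∏ d ∈ n.properDivisors, cyclotomic d ℤ) ≠ 0 := by
      intro h3
      have h4 := Polynomial.toLaurent_injective (R := ℤ) (h3.trans (map_zero toLaurent).symm)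
      exact Finset.prod_ne_zero_iff.2 (fun d _ => cyclotomic_ne_zero d ℤ) h4
    refine rec_cancel (A := toLaurent (∏ d ∈ n.properDivisors, cyclotomic d ℤ)) h3 ?_ ?_
    · rw [h2]
      refine rec_prod _ _ fun d hd => ?_
      have hd' := Nat.mem_properDivisors.1 hd
      exact ih d hd'.2 (Nat.pos_of_dvd_of_pos hd'.1 hn)
    · rw [← map_mul, mul_comm, h1]
      exact rec_X n

/-- KRONECKER: a polynomial with constant coefficient `± 1` and without zeros in the open disc. -/
theorem kron (hA7 : A7S) : ∀ (d : ℕ) (C1 : ℤ[X]), C1.natDegree = d → IsUnit (C1.coeff 0) →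
    (∀ z : ℂ, ‖z‖ < 1 → (C1.map (Int.castRingHom ℂ)).eval z ≠ 0) →
      Associated (rsh (toLaurent C1)) (toLaurent C1) ∧
        ∃ N μ : ℕ, 0 < N ∧ C1 ∣ (X ^ N - 1) ^ μ := by
  intro d
  induction d using Nat.strong_induction_on with
  | _ d ih =>
    intro C1 hd h0 hz
    have hne : C1 ≠ 0 := by
      rintro rfl
      rw [coeff_zero] at h0
      exact not_isUnit_zero h0
    rcases Nat.eq_zero_or_pos d with hd0 | hdpos
    · have h1 : C1 = C (C1.coeff 0) := eq_C_of_natDegree_eq_zero (by rw [hd, hd0])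
      have h2 : IsUnit C1 := by
        rw [h1]
        exact isUnit_C.2 h0
      refine ⟨?_, 1, 0, one_pos, by rw [pow_zero]; exact h2.dvd⟩
      have h3 : IsUnit (toLaurent C1 : RO ℤ) := h2.map toLaurent
      have h4 : IsUnit (rsh (toLaurent C1 : RO ℤ)) := h3.map rsh
      exact associated_of_dvd_dvd h4.dvd h3.dvd
    · have hM : (C1.map (Int.castRingHom ℂ)).mahlerMeasure = 1 := by
        rw [hA7 (C1.map (Int.castRingHom ℂ)) hz, coeff_map]
        rcases Int.isUnit_iff.1 h0 with h | h <;> simp [h]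
      have hX : ¬ X ∣ C1 := by
        rw [X_dvd_iff]
        intro h
        rw [h] at h0
        exact not_isUnit_zero h0
      have hdeg : C1.degree ≠ 0 := by
        rw [degree_eq_natDegree hne, hd]
        exact_mod_cast hdpos.ne'
      obtain ⟨n, hn, C', hC'⟩ := cyclotomic_dvd_of_mahlerMeasure_eq_one hM hX hdeg
      have h5 : IsUnit ((cyclotomic n ℤ).coeff 0 * C'.coeff 0) := by
        rw [← mul_coeff_zero, ← hC']
        exact h0
      have h6 : IsUnit (C'.coeff 0) := isUnit_of_mul_isUnit_right h5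
      have hz' : ∀ z : ℂ, ‖z‖ < 1 → (C'.map (Int.castRingHom ℂ)).eval z ≠ 0 := by
        intro z hz1 h7
        apply hz z hz1
        rw [hC', Polynomial.map_mul, eval_mul, h7, mul_zero]
      have hC'0 : C' ≠ 0 := by
        rintro rfl
        rw [mul_zero] at hC'
        exact hne hC'
      have hlt : C'.natDegree < d := by
        have h8 : C1.natDegree = (cyclotomic n ℤ).natDegree + C'.natDegree := by
          rw [hC', natDegree_mul (cyclotomic_ne_zero n ℤ) hC'0]
        rw [natDegree_cyclotomic, hd] at h8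
        have h9 := Nat.totient_pos.2 hn
        omega
      obtain ⟨hr, N, μ, hN, hdv⟩ := ih _ hlt C' rfl h6 hz'
      refine ⟨?_, n * N, μ + 1, Nat.mul_pos hn hN, ?_⟩
      · rw [hC', map_mul]
        exact rec_mul (rec_cyc n hn) hr
      · rw [hC', pow_succ, mul_comm]
        refine mul_dvd_mul (hdv.trans (pow_dvd_pow_of_dvd ?_ μ)) ?_
        · rw [mul_comm n N, pow_mul]
          have := sub_dvd_pow_sub_pow (X ^ N : ℤ[X]) 1 n
          rwa [one_pow] at this
        · refine (cyclotomic.dvd_X_pow_sub_one n ℤ).trans ?_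
          rw [pow_mul]
          have := sub_dvd_pow_sub_pow (X ^ n : ℤ[X]) 1 N
          rwa [one_pow] at this

end Pool.Agent.B5.Dcm
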