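import Mathlib

/-!
# MP_b5021c_nt, board b5, chapter DCM: poles of functions with nonnegative real part (helper61)

If `V` has no zero in the open disc, `|V - A_i| ≤ |A_i|` there, `H` divides `V` and the sum of the
`A_i`, and all zeros of `H` are unimodular, then `H` divides every `A_i`.
-/

namespace Pool.Agent.B5.Dcm

open Polynomial Filter Topology

/-- The leading coefficient at a boundary point. -/
theorem dir_nonneg (A V A1 V1 : ℂ[X]) (σ : ℂ) (hσ : ‖σ‖ = 1) (j d : ℕ)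
    (hA : A = (X - C σ) ^ j * A1) (hV : V = (X - C σ) ^ (j + d) * V1) (hV1 : V1.eval σ ≠ 0)
    (hV0 : ∀ s : ℂ, ‖s‖ < 1 → V.eval s ≠ 0)
    (hre : ∀ s : ℂ, ‖s‖ < 1 → 0 ≤ (A.eval s / V.eval s).re) (ω : ℂ) (hω : 0 < ω.re) :
    0 ≤ (A1.eval σ / V1.eval σ / (-σ) ^ d / ω ^ d).re := by
  have hσ0 : σ ≠ 0 := by
    intro h
    rw [h, norm_zero] at hσ
    exact zero_ne_one hσ
  have hω0 : ω ≠ 0 := by
    intro h
    rw [h, Complex.zero_re] at hω
    exact lt_irrefl _ hω
  -- the path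
  let p : ℝ → ℂ := fun ρ => σ * (1 - (ρ : ℂ) * ω)
  have hp : Continuous p := by
    show Continuous fun ρ : ℝ => σ * (1 - (ρ : ℂ) * ω)
    fun_prop
  have hp0 : p 0 = σ := by simp [p]
  have hlim : Tendsto (fun ρ : ℝ => A1.eval (p ρ) / V1.eval (p ρ) / (-σ) ^ d / ω ^ d)
      (𝓝[>] 0) (𝓝 (A1.eval σ / V1.eval σ / (-σ) ^ d / ω ^ d)) := by
    have h1 : ContinuousAt (fun ρ : ℝ => A1.eval (p ρ) / V1.eval (p ρ) / (-σ) ^ d / ω ^ d) 0 := by
      have h2 : ContinuousAt (fun ρ : ℝ => A1.eval (p ρ)) 0 :=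
        (A1.continuous.comp hp).continuousAt
      have h3 : ContinuousAt (fun ρ : ℝ => V1.eval (p ρ)) 0 :=
        (V1.continuous.comp hp).continuousAt
      exact ((h2.div h3 (by rw [hp0]; exact hV1)).div_const _).div_const _
    have h4 := h1.tendsto
    simp only [hp0] at h4
    exact h4.mono_left nhdsWithin_le_nhds
  have hlim2 := (Complex.continuous_re.tendsto _).comp hlim
  refine ge_of_tendsto hlim2 ?_
  -- near `0` the point is in the disc
  have hnear : ∀ᶠ ρ : ℝ in 𝓝[>] 0, 0 < ρ ∧ ‖p ρ‖ < 1 := by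
    have h5 : ∀ᶠ ρ : ℝ in 𝓝[>] 0, ρ < 2 * ω.re / (‖ω‖ ^ 2) := by
      have h6 : (0 : ℝ) < 2 * ω.re / (‖ω‖ ^ 2) := by
        have := norm_pos_iff.2 hω0
        positivity
      exact nhdsWithin_le_nhds (Iio_mem_nhds h6)
    filter_upwards [h5, self_mem_nhdsWithin] with ρ h7 h8
    have h8' : (0 : ℝ) < ρ := h8
    refine ⟨h8', ?_⟩
    have h9 : ‖p ρ‖ = ‖1 - (ρ : ℂ) * ω‖ := by
      show ‖σ * (1 - (ρ : ℂ) * ω)‖ = _
      rw [norm_mul, hσ, one_mul]
    rw [h9]
    have h10 : ‖1 - (ρ : ℂ) * ω‖ ^ 2 < 1 := by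
      rw [← Complex.normSq_eq_norm_sq, Complex.normSq_apply]
      simp only [Complex.sub_re, Complex.one_re, Complex.mul_re, Complex.ofReal_re,
        Complex.ofReal_im, zero_mul, sub_zero, Complex.sub_im, Complex.one_im, Complex.mul_im,
        add_zero]
      have h11 : ‖ω‖ ^ 2 = ω.re * ω.re + ω.im * ω.im := by
        rw [← Complex.normSq_eq_norm_sq, Complex.normSq_apply]
      have h12 : ρ * ‖ω‖ ^ 2 < 2 * ω.re := by
        have h13 : 0 < ‖ω‖ ^ 2 := by
          have := norm_pos_iff.2 hω0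
          positivity
        rwa [lt_div_iff₀ h13] at h7
      rw [h11] at h12
      nlinarith [mul_lt_mul_of_pos_left h12 h8']
    have h14 := norm_nonneg (1 - (ρ : ℂ) * ω)
    nlinarith
  filter_upwards [hnear] with ρ hρ
  obtain ⟨hρ0, hρ1⟩ := hρ
  have h15 := hre (p ρ) hρ1
  have h16 := hV0 (p ρ) hρ1
  have h17 : p ρ - σ = -σ * ((ρ : ℂ) * ω) := by
    show σ * (1 - (ρ : ℂ) * ω) - σ = _
    ring
  have hρc : (ρ : ℂ) ≠ 0 := by exact_mod_cast hρ0.ne'
  have hne : p ρ - σ ≠ 0 := by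
    rw [h17]
    exact mul_ne_zero (neg_ne_zero.2 hσ0) (mul_ne_zero hρc hω0)
  rw [hV, eval_mul, eval_pow, eval_sub, eval_X, eval_C] at h16
  have hV1p : V1.eval (p ρ) ≠ 0 := right_ne_zero_of_mul h16
  rw [hA, hV, eval_mul, eval_mul, eval_pow, eval_pow, eval_sub, eval_X, eval_C] at h15
  have h18 : (p ρ - σ) ^ j * A1.eval (p ρ) / ((p ρ - σ) ^ (j + d) * V1.eval (p ρ)) =
      ((ρ ^ d : ℝ) : ℂ)⁻¹ * (A1.eval (p ρ) / V1.eval (p ρ) / (-σ) ^ d / ω ^ d) := by
    rw [pow_add, h17]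
    push_cast
    have h19 : (-σ * ((ρ : ℂ) * ω)) ^ j ≠ 0 := by
      rw [← h17]
      exact pow_ne_zero _ hne
    rw [mul_pow (-σ) ((ρ : ℂ) * ω) d, mul_pow (ρ : ℂ) ω d]
    have h20 : (-σ) ^ d ≠ 0 := pow_ne_zero _ (neg_ne_zero.2 hσ0)
    have h21 : (ρ : ℂ) ^ d ≠ 0 := pow_ne_zero _ hρc
    have h22 : ω ^ d ≠ 0 := pow_ne_zero _ hω0
    generalize (-σ * ((ρ : ℂ) * ω)) ^ j = a at h19
    generalize (-σ) ^ d = b at h20
    generalize (ρ : ℂ) ^ d = c at h21
    generalize ω ^ d = e at h22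
    field_simp
  rw [h18, ← Complex.ofReal_inv, Complex.re_ofReal_mul] at h15
  have h23 : 0 < (ρ ^ d)⁻¹ := inv_pos.2 (pow_pos hρ0 _)
  exact nonneg_of_mul_nonneg_right h15 h23

/-- no pole of order at least two -/
theorem no_double (G : ℂ) (d : ℕ) (hd : 2 ≤ d) (h : ∀ ω : ℂ, 0 < ω.re → 0 ≤ (G / ω ^ d).re) :
    G = 0 := by
  have hd0 : (d : ℝ) ≠ 0 := by
    have : 0 < d := by omega
    positivity
  have hd2 : (2 : ℝ) ≤ d := by exact_mod_cast hd
  set t : ℝ := 2 * Real.pi / (3 * d) with ht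
  have ht0 : 0 < t := by positivity
  have ht1 : t < Real.pi / 2 := by
    rw [ht, div_lt_div_iff₀ (by positivity) (by norm_num)]
    nlinarith [Real.pi_pos]
  have hc : 0 < Real.cos t := Real.cos_pos_of_mem_Ioo ⟨by linarith, ht1⟩
  have hdt : (d : ℝ) * t = 2 * Real.pi / 3 := by
    rw [ht]
    field_simp
  have h1 := h 1 (by simp)
  have h2 := h (Complex.exp ((t : ℂ) * Complex.I)) (by
    rw [Complex.exp_ofReal_mul_I_re]
    exact hc)
  have h3 := h (Complex.exp (((-t : ℝ) : ℂ) * Complex.I)) (by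
    rw [Complex.exp_ofReal_mul_I_re, Real.cos_neg]
    exact hc)
  have hc3 : Real.cos (2 * Real.pi / 3) = -(1 / 2) := by
    have : 2 * Real.pi / 3 = Real.pi - Real.pi / 3 := by ring
    rw [this, Real.cos_pi_sub, Real.cos_pi_div_three]
  have hs3 : 0 < Real.sin (2 * Real.pi / 3) := by
    refine Real.sin_pos_of_pos_of_lt_pi (by positivity) ?_
    nlinarith [Real.pi_pos]
  set y : ℝ := Real.sin (2 * Real.pi / 3) with hy
  have e2 : G / Complex.exp ((t : ℂ) * Complex.I) ^ d =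
      G * Complex.exp (((-(2 * Real.pi / 3) : ℝ) : ℂ) * Complex.I) := by
    rw [← Complex.exp_nat_mul, div_eq_mul_inv, ← Complex.exp_neg]
    congr 2
    have : ((-(2 * Real.pi / 3) : ℝ) : ℂ) = -((d : ℂ) * (t : ℂ)) := by
      rw [← hdt]
      push_cast
      ring
    rw [this]
    ring
  have e3 : G / Complex.exp (((-t : ℝ) : ℂ) * Complex.I) ^ d =
      G * Complex.exp (((2 * Real.pi / 3 : ℝ) : ℂ) * Complex.I) := by
    rw [← Complex.exp_nat_mul, div_eq_mul_inv, ← Complex.exp_neg]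
    congr 2
    have : ((2 * Real.pi / 3 : ℝ) : ℂ) = (d : ℂ) * (t : ℂ) := by
      rw [← hdt]
      push_cast
      ring
    rw [this]
    push_cast
    ring
  rw [one_pow, div_one] at h1
  rw [e2, Complex.mul_re, Complex.exp_ofReal_mul_I_re, Complex.exp_ofReal_mul_I_im, Real.cos_neg,
    Real.sin_neg, hc3, ← hy] at h2
  rw [e3, Complex.mul_re, Complex.exp_ofReal_mul_I_re, Complex.exp_ofReal_mul_I_im, hc3, ← hy] at h3
  have hre : G.re = 0 := by nlinarith
  rw [hre] at h2 h3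
  have him : G.im = 0 := by
    have h4 : 0 ≤ G.im * y := by nlinarith
    have h5 : G.im * y ≤ 0 := by nlinarith
    have h6 : G.im * y = 0 := le_antisymm h5 h4
    rcases mul_eq_zero.1 h6 with h7 | h7
    · exact h7
    · exact absurd h7 hs3.ne'
  exact Complex.ext hre him

/-- simple poles have nonnegative residues -/
theorem simple_re (G : ℂ) (h : ∀ ω : ℂ, 0 < ω.re → 0 ≤ (G / ω ^ 1).re) :
    0 ≤ G.re ∧ |G.im| ≤ G.re := by
  have h1 := h 1 (by simp)
  have h2 := h (1 + Complex.I) (by simp)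
  have h3 := h (1 - Complex.I) (by simp)
  rw [one_pow, div_one] at h1
  have e2 : G / (1 + Complex.I) ^ 1 = G * ((1 - Complex.I) / 2) := by
    have h4 : (1 + Complex.I) * (1 - Complex.I) = 2 := by
      ring_nf
      rw [Complex.I_sq]
      norm_num
    have h5 : (1 + Complex.I) ≠ 0 := by
      intro h6
      rw [h6, zero_mul] at h4
      exact two_ne_zero h4.symm
    rw [pow_one, div_eq_iff h5]
    have : G * ((1 - Complex.I) / 2) * (1 + Complex.I) =
      G * (((1 + Complex.I) * (1 - Complex.I)) / 2) := by ring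
    rw [this, h4]
    simp
  have e3 : G / (1 - Complex.I) ^ 1 = G * ((1 + Complex.I) / 2) := by
    have h4 : (1 + Complex.I) * (1 - Complex.I) = 2 := by
      ring_nf
      rw [Complex.I_sq]
      norm_num
    have h5 : (1 - Complex.I) ≠ 0 := by
      intro h6
      rw [h6, mul_zero] at h4
      exact two_ne_zero h4.symm
    rw [pow_one, div_eq_iff h5]
    have : G * ((1 + Complex.I) / 2) * (1 - Complex.I) =
      G * (((1 + Complex.I) * (1 - Complex.I)) / 2) := by ring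
    rw [this, h4]
    simp
  rw [e2] at h2
  rw [e3] at h3
  simp at h2 h3
  refine ⟨h1, abs_le.2 ⟨by linarith, by linarith⟩⟩

theorem re_of_norm {a v : ℂ} (hv : v ≠ 0) (h : ‖v - a‖ ≤ ‖a‖) : 0 ≤ (a / v).re := by
  have h1 : ‖1 - a / v‖ ≤ ‖a / v‖ := by
    have h2 : 1 - a / v = (v - a) / v := by field_simp
    rw [h2, norm_div, norm_div]
    exact div_le_div_of_nonneg_right h (norm_nonneg _)
  have h3 : ‖1 - a / v‖ ^ 2 ≤ ‖a / v‖ ^ 2 := pow_le_pow_left₀ (norm_nonneg _) h1 2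
  rw [← Complex.normSq_eq_norm_sq, ← Complex.normSq_eq_norm_sq, Complex.normSq_apply,
    Complex.normSq_apply, Complex.sub_re, Complex.sub_im, Complex.one_re, Complex.one_im] at h3
  nlinarith

/-- THE POLE LEMMA. -/
theorem pole {ι : Type} [Fintype ι] (V H : ℂ[X]) (A : ι → ℂ[X])
    (hV : ∀ s : ℂ, ‖s‖ < 1 → V.eval s ≠ 0)
    (hA : ∀ i, ∀ s : ℂ, ‖s‖ < 1 → ‖V.eval s - (A i).eval s‖ ≤ ‖(A i).eval s‖) (hHV : H ∣ V)
    (hHs : H ∣ ∑ i, A i) (hH : ∀ s : ℂ, H.eval s = 0 → ‖s‖ = 1) (i : ι) : H ∣ A i := by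
  classical
  have hV0 : V ≠ 0 := by
    intro h
    have := hV 0 (by simp)
    rw [h, eval_zero] at this
    exact this rfl
  have hH0 : H ≠ 0 := fun h => hV0 (zero_dvd_iff.1 (h ▸ hHV))
  by_cases hAi : A i = 0
  · rw [hAi]
    exact dvd_zero _
  rw [IsAlgClosed.dvd_iff_roots_le_roots hH0 hAi, Multiset.le_iff_count]
  intro σ
  rw [count_roots, count_roots]
  by_contra hcon
  push Not at hcon
  -- `σ` is a zero of `H`
  have hσ : ‖σ‖ = 1 := by
    apply hH
    have h1 : 0 < rootMultiplicity σ H := by omega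
    exact (rootMultiplicity_pos hH0).1 h1
  set v := rootMultiplicity σ V with hv
  obtain ⟨V1, hV1, hV1n⟩ := exists_eq_pow_rootMultiplicity_mul_and_not_dvd V hV0 σ
  rw [← hv] at hV1
  have hV1e : V1.eval σ ≠ 0 := fun h => hV1n (dvd_iff_isRoot.2 h)
  have hre : ∀ i, ∀ s : ℂ, ‖s‖ < 1 → 0 ≤ ((A i).eval s / V.eval s).re := fun i s hs =>
    re_of_norm (hV s hs) (hA i s hs)
  have hHm : rootMultiplicity σ H ≤ v := by
    rw [hv]
    have := hHV
    rw [IsAlgClosed.dvd_iff_roots_le_roots hH0 hV0, Multiset.le_iff_count] at this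
    have h2 := this σ
    rwa [count_roots, count_roots] at h2
  -- every `A i'` is divisible by `(X - σ)^(v-1)`
  have hdiv : ∀ i', (X - C σ) ^ (v - 1) ∣ A i' := by
    intro i'
    by_cases h0 : A i' = 0
    · rw [h0]
      exact dvd_zero _
    set b := rootMultiplicity σ (A i') with hb
    obtain ⟨A1, hA1, hA1n⟩ := exists_eq_pow_rootMultiplicity_mul_and_not_dvd (A i') h0 σ
    rw [← hb] at hA1
    by_cases hbv : v - 1 ≤ b
    · rw [hA1]
      exact Dvd.dvd.mul_right (pow_dvd_pow _ hbv) _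
    · exfalso
      push Not at hbv
      obtain ⟨d, hd⟩ : ∃ d, v = b + d := ⟨v - b, by omega⟩
      have h3 := no_double (A1.eval σ / V1.eval σ / (-σ) ^ d) d (by omega) fun ω hω =>
        dir_nonneg (A i') V A1 V1 σ hσ b d hA1 (by rw [← hd]; exact hV1) hV1e hV (hre i') ω hω
      have hσ0 : σ ≠ 0 := by
        intro h
        rw [h, norm_zero] at hσ
        exact zero_ne_one hσ
      have h4 : A1.eval σ = 0 := by
        rcases div_eq_zero_iff.1 h3 with h5 | h5
        · rcases div_eq_zero_iff.1 h5 with h6 | h6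
          · exact h6
          · exact absurd h6 hV1e
        · exact absurd h5 (pow_ne_zero _ (neg_ne_zero.2 hσ0))
      exact hA1n (dvd_iff_isRoot.2 h4)
  -- so `v = mult H = mult (A i) + 1`
  have hb1 : v - 1 ≤ rootMultiplicity σ (A i) := by
    rw [le_rootMultiplicity_iff hAi]
    exact hdiv i
  have hvH : v = rootMultiplicity σ H := by omega
  have hv1 : v = rootMultiplicity σ (A i) + 1 := by omega
  choose A1 hA1 using hdiv
  obtain ⟨b, hb⟩ : ∃ b, v = b + 1 := ⟨rootMultiplicity σ (A i), hv1⟩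
  rw [hb, Nat.add_sub_cancel] at hA1
  have hG : ∀ i', 0 ≤ ((A1 i').eval σ / V1.eval σ / (-σ) ^ 1).re ∧
      |((A1 i').eval σ / V1.eval σ / (-σ) ^ 1).im| ≤
        ((A1 i').eval σ / V1.eval σ / (-σ) ^ 1).re := by
    intro i'
    refine simple_re _ fun ω hω => ?_
    exact dir_nonneg (A i') V (A1 i') V1 σ hσ b 1 (hA1 i') (by rw [← hb]; exact hV1) hV1e hV
      (hre i') ω hω
  -- the sum vanishes
  have hX : (X - C σ : ℂ[X]) ≠ 0 := X_sub_C_ne_zero σ
  have hsum : (∑ i', A1 i').eval σ = 0 := by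
    have h7 : (X - C σ) ^ (b + 1) ∣ ∑ i', A i' := by
      refine dvd_trans ?_ hHs
      rw [← hb, hvH]
      exact pow_rootMultiplicity_dvd H σ
    have h8 : ∑ i', A i' = (X - C σ) ^ b * ∑ i', A1 i' := by
      rw [Finset.mul_sum]
      exact Finset.sum_congr rfl fun i' _ => hA1 i'
    rw [h8, pow_succ] at h7
    have h9 : (X - C σ) ∣ ∑ i', A1 i' := (mul_dvd_mul_iff_left (pow_ne_zero b hX)).1 h7
    exact dvd_iff_isRoot.1 h9
  have hsG : ∑ i', ((A1 i').eval σ / V1.eval σ / (-σ) ^ 1).re = 0 := by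
    rw [← Complex.re_sum, ← Finset.sum_div, ← Finset.sum_div, ← eval_finsetSum, hsum]
    simp
  have h10 := (Finset.sum_eq_zero_iff_of_nonneg fun i' _ => (hG i').1).1 hsG i (Finset.mem_univ i)
  have h11 := (hG i).2
  rw [h10] at h11
  have h12 : (A1 i).eval σ / V1.eval σ / (-σ) ^ 1 = 0 :=
    Complex.ext h10 (abs_nonpos_iff.1 h11)
  have hσ0 : σ ≠ 0 := by
    intro h
    rw [h, norm_zero] at hσ
    exact zero_ne_one hσ
  have h13 : (A1 i).eval σ = 0 := by
    rcases div_eq_zero_iff.1 h12 with h5 | h5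
    · rcases div_eq_zero_iff.1 h5 with h6 | h6
      · exact h6
      · exact absurd h6 hV1e
    · exact absurd h5 (pow_ne_zero _ (neg_ne_zero.2 hσ0))
  have h14 : (X - C σ) ^ (b + 1) ∣ A i := by
    rw [hA1 i, pow_succ]
    exact mul_dvd_mul_left _ (dvd_iff_isRoot.2 h13)
  have h15 : b + 1 ≤ rootMultiplicity σ (A i) := (le_rootMultiplicity_iff hAi).2 h14
  omega

end Pool.Agent.B5.Dcm
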