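import Pool.Agent.Lib.MP_b5021c_nt.DCM.H61.Nf
import Mathlib.RingTheory.RootsOfUnity.Complex

/-!
# MP_b5021c_nt, board b5, chapter DCM: every `m`-th coefficient (helper61)
-/

set_option linter.unusedSectionVars false

namespace Pool.Agent.B5.Dcm

open scoped LaurentPolynomial
open Pool.Agent.B5 Pool.Agent.B5.H83 Pool.Agent.B5.H96 Polynomial

theorem toLaurent_dvd {p q : ℤ[X]} (hp : p.coeff 0 ≠ 0) (h : toLaurent p ∣ toLaurent q) :
    p ∣ q := by
  obtain ⟨t, ht⟩ := h
  by_cases ht0 : t = 0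
  · rw [ht0, mul_zero] at ht
    have : q = 0 := toLaurent_inj' (ht.trans (map_zero toLaurent).symm)
    rw [this]
    exact dvd_zero _
  · obtain ⟨k, s, rfl, hs⟩ := lau_nf t ht0
    rcases le_or_gt 0 k with hk | hk
    · obtain ⟨k, rfl⟩ := Int.eq_ofNat_of_zero_le hk
      refine ⟨X ^ k * s, toLaurent_inj' ?_⟩
      rw [ht, map_mul, map_mul, toLaurent_X_pow]
    · exfalso
      obtain ⟨j, hj⟩ := Int.eq_ofNat_of_zero_le (a := -k) (by omega)
      have hj1 : j ≠ 0 := by
        rintro rfl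
        simp at hj
        omega
      have h1 : X ^ j * q = p * s := by
        apply toLaurent_inj'
        rw [map_mul, map_mul, ht, toLaurent_X_pow, ← hj]
        rw [mul_left_comm, ← mul_assoc (LaurentPolynomial.T (-k)), ← LaurentPolynomial.T_add,
          neg_add_cancel, LaurentPolynomial.T_zero, one_mul]
      have h2 := congrArg (fun F : ℤ[X] => F.coeff 0) h1
      simp only [mul_coeff_zero, coeff_X_pow, hj1.symm, if_false, zero_mul] at h2
      exact (mul_ne_zero hp hs) h2.symm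

/-- A factorisation of Laurent polynomials. -/
theorem lau_split (F : ℤ[X]) (hF : IsUnit (F.coeff 0)) (x y : RO ℤ) (h : toLaurent F = x * y) :
    ∃ (v w : (RO ℤ)ˣ) (p s : ℤ[X]), x = (v : RO ℤ) * toLaurent p ∧
      y = (w : RO ℤ) * toLaurent s ∧ F = p * s ∧ s.coeff 0 = 1 ∧ p.coeff 0 ≠ 0 := by
  have hF0 : toLaurent F ≠ 0 := by
    intro h0
    have h1 : F = 0 := toLaurent_inj' (h0.trans (map_zero toLaurent).symm)
    rw [h1, coeff_zero] at hF
    exact not_isUnit_zero hF
  have hx0 : x ≠ 0 := by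
    rintro rfl
    rw [zero_mul] at h
    exact hF0 h
  obtain ⟨k, p, hx, hp⟩ := lau_nf x hx0
  have h1 : p ∣ F := by
    apply toLaurent_dvd hp
    rw [h, hx]
    exact Dvd.intro (LaurentPolynomial.T k * y) (by ring)
  obtain ⟨s, hs⟩ := h1
  have h2 : IsUnit (s.coeff 0) := by
    rw [hs, mul_coeff_zero] at hF
    exact isUnit_of_mul_isUnit_right hF
  obtain ⟨c, hc⟩ := h2
  have hcc : (c : ℤ) * c = 1 := by
    rcases Int.isUnit_iff.1 c.isUnit with h | h <;> rw [h] <;> norm_num
  have hcu : IsUnit (toLaurent (C (c : ℤ)) : RO ℤ) := (isUnit_C.2 c.isUnit).map toLaurent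
  have hTu : IsUnit (LaurentPolynomial.T k : RO ℤ) := LaurentPolynomial.isUnit_T k
  have hTu' : IsUnit (LaurentPolynomial.T (-k) : RO ℤ) := LaurentPolynomial.isUnit_T (-k)
  have hCC : toLaurent (C (c : ℤ)) * toLaurent (C (c : ℤ)) = (1 : RO ℤ) := by
    rw [← map_mul, ← C_mul, hcc, C_1, map_one]
  refine ⟨(hTu.mul hcu).unit, (hTu'.mul hcu).unit, C (c : ℤ) * p, C (c : ℤ) * s, ?_, ?_, ?_, ?_, ?_⟩
  · rw [hx, map_mul]
    change _ = LaurentPolynomial.T k * toLaurent (C (c : ℤ)) * (toLaurent (C (c : ℤ)) * toLaurent p)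
    linear_combination (-LaurentPolynomial.T k * toLaurent p) * hCC
  · apply mul_left_cancel₀ hx0
    rw [← h, hs, hx, map_mul, map_mul]
    change _ = LaurentPolynomial.T k * toLaurent p *
      (LaurentPolynomial.T (-k) * toLaurent (C (c : ℤ)) * (toLaurent (C (c : ℤ)) * toLaurent s))
    have h3 : (LaurentPolynomial.T k : RO ℤ) * LaurentPolynomial.T (-k) = 1 := by
      rw [← LaurentPolynomial.T_add, add_neg_cancel, LaurentPolynomial.T_zero]
    linear_combination (-toLaurent p * toLaurent s) * hCC -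
      (toLaurent p * toLaurent s * toLaurent (C (c : ℤ)) * toLaurent (C (c : ℤ))) * h3
  · rw [hs]
    have h4 : (C (c : ℤ) * C (c : ℤ) : ℤ[X]) = 1 := by rw [← C_mul, hcc, C_1]
    linear_combination (-p * s) * h4
  · rw [coeff_C_mul, ← hc, hcc]
  · rw [coeff_C_mul]
    exact mul_ne_zero c.ne_zero hp

/-- every `m`-th coefficient -/
noncomputable def psi (m : ℕ) (s : PowerSeries ℤ) : PowerSeries ℤ :=
  PowerSeries.mk fun k => PowerSeries.coeff (m * k + 1) s

theorem psi_add (m : ℕ) (s t : PowerSeries ℤ) : psi m (s + t) = psi m s + psi m t := by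
  ext k
  rw [map_add]
  simp only [psi, PowerSeries.coeff_mk, map_add]

theorem psi_mul {m : ℕ} (hm : 2 ≤ m) (p : ℤ[X]) (s : PowerSeries ℤ) :
    psi m (((expand ℤ m p : ℤ[X]) : PowerSeries ℤ) * s) = (p : PowerSeries ℤ) * psi m s := by
  induction p using Polynomial.induction_on' with
  | add p q hp hq => rw [map_add, coe_add, coe_add, add_mul, add_mul, psi_add, hp, hq]
  | monomial k c =>
    rw [expand_monomial, ← C_mul_X_pow_eq_monomial, ← C_mul_X_pow_eq_monomial, coe_mul, coe_mul,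
      coe_C, coe_pow, coe_X, coe_pow, coe_X]
    ext n
    rw [mul_assoc, mul_assoc, PowerSeries.coeff_C_mul, PowerSeries.coeff_X_pow_mul']
    simp only [psi, PowerSeries.coeff_mk]
    rw [PowerSeries.coeff_C_mul, PowerSeries.coeff_X_pow_mul']
    by_cases h : k ≤ n
    · have h1 : m * k ≤ m * n := Nat.mul_le_mul_left m h
      rw [if_pos h, if_pos (by lia)]
      have h2 : m * n + 1 - k * m = m * (n - k) + 1 := by
        rw [Nat.mul_sub]
        lia
      rw [h2]
    · have h1 : m * (n + 1) ≤ m * k := Nat.mul_le_mul_left m (by lia)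
      rw [mul_add] at h1
      rw [if_neg h, if_neg (by lia)]

/-- The polynomial of the coefficients `m k + 1`. -/
noncomputable def dc (m : ℕ) (F : ℤ[X]) : ℤ[X] := contract m (divX F)

theorem dc_coeff {m : ℕ} (hm : 0 < m) (F : ℤ[X]) (k : ℕ) :
    (dc m F).coeff k = F.coeff (m * k + 1) := by
  unfold dc
  rw [coeff_contract hm.ne', coeff_divX, mul_comm]

theorem dc_ser {m : ℕ} (hm : 0 < m) (F : ℤ[X]) : ((dc m F : ℤ[X]) : PowerSeries ℤ) = psi m F := by
  ext k
  rw [coeff_coe, dc_coeff hm]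
  simp only [psi, PowerSeries.coeff_mk, coeff_coe]

theorem dc_add {m : ℕ} (hm : 0 < m) (F F' : ℤ[X]) : dc m (F + F') = dc m F + dc m F' := by
  ext k
  rw [coeff_add, dc_coeff hm, dc_coeff hm, dc_coeff hm, coeff_add]

/-- The sum over the roots of unity. -/
theorem sum_root {m : ℕ} (hm : 2 ≤ m) {ζ : ℂ} (hζ : IsPrimitiveRoot ζ m) (F : ℤ[X]) (z : ℂ)
    (hz : z ≠ 0) :
    ∑ i ∈ Finset.range m, aeval (ζ ^ i * z) F * (ζ ^ i * z)⁻¹ =
      m * aeval (z ^ m) (dc m F) := by
  have hm0 : 0 < m := by lia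
  have hζ0 : ζ ≠ 0 := hζ.ne_zero hm0.ne'
  induction F using Polynomial.induction_on' with
  | add p q hp hq =>
    rw [dc_add hm0, map_add, mul_add, ← hp, ← hq, ← Finset.sum_add_distrib]
    refine Finset.sum_congr rfl fun i _ => ?_
    rw [map_add, add_mul]
  | monomial k c =>
    rw [← C_mul_X_pow_eq_monomial]
    have h0 : ∀ w : ℂ, aeval w (C c * X ^ k : ℤ[X]) = c * w ^ k := by
      intro w
      rw [map_mul, map_pow, aeval_X, aeval_C]
      rfl
    simp only [h0]
    rcases Nat.eq_zero_or_pos k with rfl | hk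
    · have h1 : dc m (C c * X ^ 0 : ℤ[X]) = 0 := by
        ext j
        rw [dc_coeff hm0, pow_zero, mul_one, coeff_C, if_neg (by lia), coeff_zero]
      rw [h1, map_zero, mul_zero]
      have h2 : ∑ i ∈ Finset.range m, (ζ⁻¹) ^ i = 0 := hζ.inv.geom_sum_eq_zero (by lia)
      have h3 : ∀ i ∈ Finset.range m, (c : ℂ) * (ζ ^ i * z) ^ 0 * (ζ ^ i * z)⁻¹ =
          (c * z⁻¹) * (ζ⁻¹) ^ i := by
        intro i _
        rw [pow_zero, mul_one, mul_inv, inv_pow]
        ring
      rw [Finset.sum_congr rfl h3, ← Finset.mul_sum, h2, mul_zero]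
    · obtain ⟨j, rfl⟩ : ∃ j, k = j + 1 := ⟨k - 1, by lia⟩
      have h3 : ∀ i ∈ Finset.range m, (c : ℂ) * (ζ ^ i * z) ^ (j + 1) * (ζ ^ i * z)⁻¹ =
          (c * z ^ j) * (ζ ^ j) ^ i := by
        intro i _
        have h4 : ζ ^ i * z ≠ 0 := mul_ne_zero (pow_ne_zero _ hζ0) hz
        rw [pow_succ, mul_assoc, mul_assoc, mul_inv_cancel₀ h4, mul_one, mul_pow, ← pow_mul,
          ← pow_mul, mul_comm i j]
        ring
      rw [Finset.sum_congr rfl h3, ← Finset.mul_sum]
      by_cases hd : m ∣ j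
      · obtain ⟨t, rfl⟩ := hd
        have h5 : dc m (C c * X ^ (m * t + 1) : ℤ[X]) = C c * X ^ t := by
          ext l
          rw [dc_coeff hm0, coeff_C_mul_X_pow, coeff_C_mul_X_pow]
          by_cases hl : l = t
          · rw [hl, if_pos rfl, if_pos rfl]
          · rw [if_neg hl, if_neg]
            intro h6
            apply hl
            exact Nat.eq_of_mul_eq_mul_left hm0 (by lia)
        rw [h5, map_mul, map_pow, aeval_X, aeval_C, pow_mul ζ, hζ.pow_eq_one, one_pow]
        simp only [one_pow, Finset.sum_const, Finset.card_range, nsmul_eq_mul, mul_one]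
        rw [pow_mul]
        change (c : ℂ) * (z ^ m) ^ t * m = m * ((c : ℂ) * (z ^ m) ^ t)
        ring
      · have h5 : dc m (C c * X ^ (j + 1) : ℤ[X]) = 0 := by
          ext l
          rw [dc_coeff hm0, coeff_C_mul_X_pow, if_neg, coeff_zero]
          intro h6
          exact hd ⟨l, by lia⟩
        have h6 : ζ ^ j ≠ 1 := by
          intro h7
          exact hd (hζ.dvd_of_pow_eq_one j h7)
        rw [h5, map_zero, mul_zero, geom_sum_eq h6, ← pow_mul, mul_comm j m, pow_mul,
          hζ.pow_eq_one, one_pow, sub_self, zero_div, mul_zero]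

end Pool.Agent.B5.Dcm
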