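import Pool.Agent.Lib.MP_b5021c_nt.DCM.H61.Gr
import Pool.Agent.Lib.MP_b5021c_nt.E.H07.Res

/-!
# MP_b5021c_nt, board b5, chapter DCM: the homogeneous part is stable (helper61)
-/

set_option linter.unusedSectionVars false

namespace Pool.Agent.B5.Dcm

open scoped LaurentPolynomial
open Pool.Agent.B5 Pool.Agent.B5.H83 Pool.Agent.B5.H07

section

variable {O : Type} [CommRing O] [IsDomain O] [IsPrincipalIdealRing O] [Coef O] {P : Type}
  [Fintype P] [DecidableEq P] {L : Type} [AddCommGroup L] [Module.Free ℤ L] [Module.Finite ℤ L]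
  {Q : Type} [AddCommGroup Q]

/-- The context of a decimation. -/
structure DC (phi : L →+ (P → ℤ)) (D : AO O L) (S : L) (i0 : P) (eta : (RO O)ˣ)
    (h : co phi i0 S = 1) (g : Q) (l : L →+ Q) (r : Q) (p : RO O) : Prop where
  cc : CC phi D S i0 eta
  p0 : p ≠ 0
  pr : Associated (rsh p) p
  et : ∀ n : ℤ, (eta : RO O).coeff n ≠ 0 → n • g = l S
  hm : Hmg g (l.comp (incl (Ker (co phi i0)))) r (cst p * cl (co phi i0) S h eta D)

variable {phi : L →+ (P → ℤ)} {D : AO O L} {S : L} {i0 : P} {eta : (RO O)ˣ}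
  {h : co phi i0 S = 1} {g : Q} {l : L →+ Q} {r : Q} {p : RO O}

theorem cl_cst {k : L →+ ℤ} {S : L} {h : k S = 1} {eta : (RO O)ˣ} (c : RO O) :
    cl k S h eta (cst c : AO O L) = cst c := by
  unfold cst
  rw [cl_single]
  have h1 : prj k S h (0 : L) = 0 := map_zero _
  rw [h1, map_zero, zpow_zero, Units.val_one, mul_one]

/-- the closing of the homogeneous part -/
theorem cl_E (H : DC phi D S i0 eta h g l r p) :
    cl (co phi i0) S h eta (dcm g l r (cst p * D)) = cst p * cl (co phi i0) S h eta D := by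
  rw [dcm_cl (co phi i0) S h eta g l r H.et, map_mul, cl_cst, dcm_of_hmg H.hm]

/-- values at the translated points -/
theorem evR_hmg {q : RO O} {s : Q} (hq : ∀ n : ℤ, q.coeff n ≠ 0 → n • g = s)
    (x : AddChar Q Circle) (z : Circle) : evR (x g * z) q = (x s : ℂ) * evR z q := by
  have h1 : Hmg g (0 : Unit →+ Q) s (cst q : AO O Unit) := by
    intro a n hn
    have h2 : (cst q : AO O Unit).coeff a = q := by
      unfold cst
      rw [AddMonoidAlgebra.coeff_single]
      exact Finsupp.single_eq_same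
    rw [h2] at hn
    rw [AddMonoidHom.zero_apply, add_zero]
    exact hq n hn
  have h3 := Ph_hmg h1 x z (1 : AddChar Unit Circle) (fun _ => (1 : ℂ))
  unfold cst at h3
  rw [Ph_single, Ph_single] at h3
  simpa [tw] using h3

variable [Fintype (AddChar Q Circle)]

/-- the translated part without `w^S` -/
noncomputable def Ax (phi : L →+ (P → ℤ)) (D : AO O L) (i0 : P) (g : Q) (l : L →+ Q) (r : Q)
    (p : RO O) (lam : L →+ ℤ) (z : Circle) (v : AddChar (Ker (co phi i0)) Circle)
    (x : AddChar Q Circle) : Polynomial ℂ :=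
  Polynomial.C ((x (-r) : ℂ) * evR (x g * z) p) *
    sl (tw x (l.comp (incl (Ker (co phi i0)))) v) (lam.comp (incl (Ker (co phi i0))))
      (spec (x g * z) (res (Ker (co phi i0)) D))

/-- the closed element -/
noncomputable def Wp (phi : L →+ (P → ℤ)) (D : AO O L) (S : L) (i0 : P) (eta : (RO O)ˣ)
    (h : co phi i0 S = 1) (p : RO O) (lam : L →+ ℤ) (z : Circle)
    (v : AddChar (Ker (co phi i0)) Circle) : Polynomial ℂ :=
  sl v (lam.comp (incl (Ker (co phi i0)))) (spec z (cst p * cl (co phi i0) S h eta D))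

omit [Fintype (AddChar Q Circle)] [Module.Free ℤ L] [Module.Finite ℤ L] in
theorem Wp_eq (H : DC phi D S i0 eta h g l r p) (lam : L →+ ℤ) (z : Circle)
    (v : AddChar (Ker (co phi i0)) Circle) (x : AddChar Q Circle) :
    Wp phi D S i0 eta h p lam z v =
      Polynomial.C ((x (-r) : ℂ) * evR (x g * z) p) *
        sl (tw x (l.comp (incl (Ker (co phi i0)))) v) (lam.comp (incl (Ker (co phi i0))))
          (spec (x g * z) (cl (co phi i0) S h eta D)) := by
  unfold Wp
  rw [sl_eq_Ph, sl_eq_Ph]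
  have h1 := Ph_hmg H.hm x z v
    (fun a => Polynomial.monomial ((lam.comp (incl (Ker (co phi i0)))) a).toNat (1 : ℂ))
  rw [Ph_cst (x g * z)] at h1
  have hx : (x (-r) : ℂ) * (x r : ℂ) = 1 := by
    rw [← Circle.coe_mul, ← AddChar.map_add_eq_mul, neg_add_cancel, AddChar.map_zero_eq_one]
    rfl
  rw [← Polynomial.smul_eq_C_mul, mul_smul, h1, smul_smul, hx, one_smul]

omit [Fintype (AddChar Q Circle)] in
theorem v0_ne (H : DC phi D S i0 eta h g l r p) (h6 : G0S) {z : Circle}
    (hz : evR z (p * (D.coeff 0 + (eta : RO O) * D.coeff S)) ≠ 0) (x : AddChar Q Circle) :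
    evR (x g * z) p ≠ 0 ∧ evR (x g * z) (D.coeff 0 + (eta : RO O) * D.coeff S) ≠ 0 := by
  obtain ⟨-, -, g3, -⟩ := h6 O P L phi D S i0 eta h H.cc
  have h1 : evR (x g * z) (p * (D.coeff 0 + (eta : RO O) * D.coeff S)) =
      (x r : ℂ) * evR z (p * (D.coeff 0 + (eta : RO O) * D.coeff S)) := by
    apply evR_hmg
    intro n hn
    have h2 := H.hm 0 n
    rw [Pool.Agent.B5.H96.cst_mul_coeff, g3] at h2
    have h4 := h2 hn
    rwa [map_zero (l.comp (incl (Ker (co phi i0)))), add_zero] at h4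
  have h3 : evR (x g * z) (p * (D.coeff 0 + (eta : RO O) * D.coeff S)) ≠ 0 := by
    rw [h1]
    exact mul_ne_zero (Circle.coe_ne_zero _) hz
  rw [map_mul] at h3
  exact ⟨left_ne_zero_of_mul h3, right_ne_zero_of_mul h3⟩

omit [Fintype (AddChar Q Circle)] in
/-- the inequality -/
theorem Ax_le (h2 : MultiS) (h3 : StSpecS) (h5 : B2cS) (h6 : G0S) (h7 : EvRS)
    (H : DC phi D S i0 eta h g l r p) (lam : L →+ ℤ) (hS : lam S = 0)
    (hlam : ∀ a ∈ supp D, a ≠ 0 → a ≠ S → 0 < lam a) {z : Circle}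
    (hz : evR z (p * (D.coeff 0 + (eta : RO O) * D.coeff S)) ≠ 0)
    (v : AddChar (Ker (co phi i0)) Circle) (s : ℂ) (hs : ‖s‖ < 1) (x : AddChar Q Circle) :
    (Wp phi D S i0 eta h p lam z v).eval s ≠ 0 ∧
    ‖(Wp phi D S i0 eta h p lam z v).eval s - (Ax phi D i0 g l r p lam z v x).eval s‖ ≤
      ‖(Ax phi D i0 g l r p lam z v x).eval s‖ := by
  obtain ⟨hp, hv⟩ := v0_ne H h6 hz x
  obtain ⟨h8, h9⟩ := harn (h := h) h2 h3 h5 h6 h7 H.cc lam hS hlam (x g * z) hv
    (tw x (l.comp (incl (Ker (co phi i0)))) v) s hs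
  rw [Wp_eq H lam z v x]
  unfold Ax
  rw [Polynomial.eval_mul, Polynomial.eval_mul, Polynomial.eval_C, ← mul_sub]
  refine ⟨mul_ne_zero (mul_ne_zero (Circle.coe_ne_zero _) hp) h8, ?_⟩
  rw [norm_mul ((x (-r) : ℂ) * evR (x g * z) p), norm_mul ((x (-r) : ℂ) * evR (x g * z) p)]
  exact mul_le_mul_of_nonneg_left h9 (norm_nonneg ((x (-r) : ℂ) * evR (x g * z) p))

/-- the average -/
theorem Ax_sum [Fintype Q] (lam : L →+ ℤ) (z : Circle) (v : AddChar (Ker (co phi i0)) Circle) :
    ∑ x : AddChar Q Circle, Ax phi D i0 g l r p lam z v x =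
      Polynomial.C (Fintype.card Q : ℂ) *
        sl v (lam.comp (incl (Ker (co phi i0))))
          (spec z (res (Ker (co phi i0)) (dcm g l r (cst p * D)))) := by
  have h1 := Ph_avg g (l.comp (incl (Ker (co phi i0)))) r
    (res (Ker (co phi i0)) (cst p * D)) z v
    (fun a => Polynomial.monomial ((lam.comp (incl (Ker (co phi i0)))) a).toNat (1 : ℂ))
  rw [dcm_res, sl_eq_Ph, ← Polynomial.smul_eq_C_mul, ← h1]
  refine Finset.sum_congr rfl fun x _ => ?_
  unfold Ax
  rw [sl_eq_Ph, ← Polynomial.smul_eq_C_mul, mul_smul]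
  congr 1
  have h4 : res (Ker (co phi i0)) (cst p * D) = cst p * res (Ker (co phi i0)) D := by
    apply AddMonoidAlgebra.ext
    apply Finsupp.ext
    intro a
    rw [res_coeff, Pool.Agent.B5.H96.cst_mul_coeff, Pool.Agent.B5.H96.cst_mul_coeff, res_coeff]
  rw [h4, Ph_cst]

/-- slices in the direction `lam + k` -/
theorem sl_two (z : Circle) (u : AddChar L Circle) (lam k : L →+ ℤ) (E : AO O L)
    (hE : ∀ a ∈ supp E, 0 ≤ lam a ∧ 0 ≤ k a) (s : ℂ) :
    (sl u (lam + k) (spec z E)).eval s = mev (ι := Fin 2) u ![lam, k] ![s, s] (spec z E) := by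
  let f : AO O L →+ ℂ :=
    { toFun := fun D => (sl u (lam + k) (spec z D)).eval s
      map_zero' := by rw [map_zero, sl_zero]; simp
      map_add' := fun p q => by rw [map_add, sl_add, Polynomial.eval_add] }
  let f' : AO O L →+ ℂ :=
    { toFun := fun D => mev (ι := Fin 2) u ![lam, k] ![s, s] (spec z D)
      map_zero' := by rw [map_zero, mev_zero]
      map_add' := fun p q => by rw [map_add, mev_add] }
  refine eq_of_single f f' E fun a ha => ?_
  obtain ⟨h1, h2⟩ := hE a ha
  change (sl u (lam + k) (spec z (AddMonoidAlgebra.single a (E.coeff a)))).eval s =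
    mev (ι := Fin 2) u ![lam, k] ![s, s] (spec z (AddMonoidAlgebra.single a (E.coeff a)))
  rw [spec_single, sl_single, mev_single, Polynomial.eval_monomial, Fin.prod_univ_two]
  have h3 : (lam + k) a = lam a + k a := rfl
  rw [h3, Int.toNat_add h1 h2, pow_add]
  rfl

/-- the homogeneous part has no zeros in the open disc, at almost all `z` -/
theorem E_ne [Fintype Q] (h2 : MultiS) (h3 : StSpecS) (h5 : B2cS) (h6 : G0S) (h7 : EvRS)
    (H : DC phi D S i0 eta h g l r p) (lam : L →+ ℤ) (hS : lam S = 0)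
    (hlam : ∀ a ∈ supp D, a ≠ 0 → a ≠ S → 0 < lam a) {z : Circle}
    (hz : evR z (p * (D.coeff 0 + (eta : RO O) * D.coeff S)) ≠ 0) (u : AddChar L Circle) (s : ℂ)
    (hs : ‖s‖ < 1) :
    (sl u (lam + co phi i0) (spec z (dcm g l r (cst p * D)))).eval s ≠ 0 := by
  have hsub : ∀ a ∈ supp (dcm g l r (cst p * D)), a ∈ supp D := by
    intro a ha h0
    apply supp_dcm ha
    have h1 : D.coeff a = 0 := h0
    change (cst p * D).coeff a = 0
    rw [Pool.Agent.B5.H96.cst_mul_coeff, h1, mul_zero]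
  have hbin : ∀ a ∈ supp D, co phi i0 a = 0 ∨ co phi i0 a = 1 := fun a ha => H.cc.dd.bin a ha i0
  have hln : ∀ a ∈ supp D, 0 ≤ lam a := by
    intro a ha
    rcases eq_or_ne a 0 with rfl | h0
    · rw [map_zero]
    · rcases eq_or_ne a S with rfl | h1
      · rw [hS]
      · exact (hlam a ha h0 h1).le
  rw [sl_two z u lam (co phi i0) _ (fun a ha => ⟨hln a (hsub a ha), by
    rcases hbin a (hsub a ha) with h | h <;> omega⟩) s]
  rw [shift (co phi i0) S h lam z u _ (fun a ha => hbin a (hsub a ha)) s s,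
    two_slice (co phi i0) S h eta lam hS z _ _ (fun a ha => hbin a (hsub a ha)) s _, cl_E H]
  set v := u.compAddMonoidHom (incl (Ker (co phi i0))) with hv
  have hn : ‖evR z (eta : RO O)‖ = 1 := (h7 O).2.1 z _ eta.isUnit
  have hsum := Ax_sum (phi := phi) (D := D) (i0 := i0) (g := g) (l := l) (r := r) (p := p) lam z v
  have hcard : (Fintype.card Q : ℂ) ≠ 0 := by exact_mod_cast Fintype.card_ne_zero
  have : Nonempty (AddChar Q Circle) := ⟨1⟩
  have hcardx : Fintype.card (AddChar Q Circle) = Fintype.card Q := by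
    rw [Fintype.card_congr (AddChar.circleEquivComplex (α := Q)).toEquiv.symm.symm]
    exact AddChar.card_eq
  set X := (sl v (lam.comp (incl (Ker (co phi i0))))
    (spec z (res (Ker (co phi i0)) (dcm g l r (cst p * D))))).eval s with hX
  set W := (Wp phi D S i0 eta h p lam z v).eval s with hW
  have hW' : (sl v (lam.comp (incl (Ker (co phi i0))))
    (spec z (cst p * cl (co phi i0) S h eta D))).eval s = W := rfl
  rw [hW']
  have h10 := avg_ne (fun x => (Ax phi D i0 g l r p lam z v x).eval s) W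
    (s * (u S : ℂ) * (evR z (eta : RO O))⁻¹)
    (Ax_le h2 h3 h5 h6 h7 H lam hS hlam hz v s hs 1).1
    (fun x => (Ax_le h2 h3 h5 h6 h7 H lam hS hlam hz v s hs x).2) (by
      rw [norm_mul, norm_mul, norm_inv, hn, Circle.norm_coe, inv_one, mul_one, mul_one]
      exact hs)
  have h11 : ∑ x : AddChar Q Circle, (Ax phi D i0 g l r p lam z v x).eval s =
      (Fintype.card Q : ℂ) * X := by
    rw [← Polynomial.eval_finsetSum, hsum, Polynomial.eval_mul, Polynomial.eval_C]
  intro h12
  apply h10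
  have h13 : ∀ x : AddChar Q Circle, (Ax phi D i0 g l r p lam z v x).eval s +
      s * (u S : ℂ) * (evR z (eta : RO O))⁻¹ * (W - (Ax phi D i0 g l r p lam z v x).eval s) =
      (1 - s * (u S : ℂ) * (evR z (eta : RO O))⁻¹) * (Ax phi D i0 g l r p lam z v x).eval s +
        s * (u S : ℂ) * (evR z (eta : RO O))⁻¹ * W := by
    intro x
    ring
  rw [Finset.sum_congr rfl fun x _ => h13 x, Finset.sum_add_distrib, ← Finset.mul_sum, h11,
    Finset.sum_const, Finset.card_univ, hcardx, nsmul_eq_mul]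
  linear_combination (Fintype.card Q : ℂ) * h12

end

end Pool.Agent.B5.Dcm
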