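import Pool.Agent.Lib.MP_b5021c_nt.DCM.H61.Stab
import Pool.Agent.Lib.MP_b5021c_nt.DCM.H61.Pole
import Pool.Agent.Lib.MP_b5021c_nt.B.H03.Una

/-!
# MP_b5021c_nt, board b5, chapter DCM: the homogeneous part is stable and unitary (helper61)
-/

set_option linter.unusedSectionVars false

namespace Pool.Agent.B5.Dcm

open scoped LaurentPolynomial
open Pool.Agent.B5 Pool.Agent.B5.H83 Pool.Agent.B5.H07

section

variable {O : Type} [CommRing O] [IsDomain O] [IsPrincipalIdealRing O] [Coef O] {L : Type}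
  [AddCommGroup L] [Module.Free ℤ L] [Module.Finite ℤ L]

/-- zero-free slices at almost all `z` are enough -/
theorem stable_of_generic (h7 : EvRS) (hA : A3bS) (hZ : ZfinS) (G : AO O L) (mu : L →+ ℤ)
    (hpos : Pos mu G) (q : RO O) (hq : q ≠ 0)
    (hgen : ∀ z : Circle, evR z q ≠ 0 → ∀ (u : AddChar L Circle) (s : ℂ), ‖s‖ < 1 →
      (sl u mu (spec z G)).eval s ≠ 0) : Stable G := by
  have hz0 : ∃ z : Circle, evR z q ≠ 0 := by
    by_contra hcon
    push Not at hcon
    exact H09.tpm_dense hZ q hq (fun _ => False) isClosed_empty (fun z hz => hz (hcon z)) 1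
  have h0 : G.coeff 0 ≠ 0 := by
    intro h0
    obtain ⟨z, hz⟩ := hz0
    apply hgen z hz 1 0 (by simp)
    rw [← Polynomial.coeff_zero_eq_eval_zero, sl_coeff_zero (pos_spec hpos z), spec_coeff, h0,
      map_zero]
  refine ⟨h0, mu, hpos, ?_⟩
  intro z hz0 v s hs
  set m : ℕ := G.coeff.support.sup fun a => (mu a).toNat with hm
  have hdeg : ∀ z : Circle, (sl v mu (spec z G)).natDegree ≤ m := by
    intro z
    unfold sl Finsupp.sum
    refine Polynomial.natDegree_sum_le_of_forall_le _ _ fun a ha => ?_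
    refine (Polynomial.natDegree_monomial_le _).trans ?_
    have ha' : a ∈ G.coeff.support := by
      rw [Finsupp.mem_support_iff] at ha ⊢
      intro h12
      rw [spec_coeff, h12, map_zero] at ha
      exact ha rfl
    exact Finset.le_sup (f := fun a => (mu a).toNat) ha'
  have hcont : Continuous fun z : Circle => (sl v mu (spec z G)).eval s := by
    have h13 : ∀ z : Circle, (sl v mu (spec z G)).eval s =
        ∑ a ∈ G.coeff.support, evR z (G.coeff a) * (v a : ℂ) * s ^ (mu a).toNat := by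
      intro z
      unfold sl Finsupp.sum
      rw [Polynomial.eval_finsetSum]
      have hsub : (spec z G).coeff.support ⊆ G.coeff.support := by
        intro a ha
        rw [Finsupp.mem_support_iff] at ha ⊢
        intro h12
        rw [spec_coeff, h12, map_zero] at ha
        exact ha rfl
      rw [Finset.sum_subset hsub]
      · refine Finset.sum_congr rfl fun a _ => ?_
        rw [Polynomial.eval_monomial, spec_coeff]
      · intro a _ ha
        rw [Finsupp.notMem_support_iff] at ha
        rw [ha]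
        simp
    simp_rw [h13]
    refine continuous_finsetSum _ fun a _ => ?_
    exact (((h7 O).2.2.2 _).mul continuous_const).mul continuous_const
  have hcl : IsClosed {z : Circle | ‖evR z (G.coeff 0)‖ * (1 - ‖s‖) ^ m ≤
      ‖(sl v mu (spec z G)).eval s‖} :=
    isClosed_le ((((h7 O).2.2.2 _).norm).mul continuous_const) hcont.norm
  have hall := H09.tpm_dense hZ q hq _ hcl (by
    intro z hz
    have h14 := hA (sl v mu (spec z G)) m (hdeg z) (fun s hs => hgen z hz v s hs) s hs.le
    rwa [sl_coeff_zero (pos_spec hpos z), spec_coeff] at h14) z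
  intro h15
  have h16 : ‖evR z (G.coeff 0)‖ * (1 - ‖s‖) ^ m ≤ 0 := by
    have h17 := hall
    rw [h15, norm_zero] at h17
    exact h17
  have h18 : 0 < ‖evR z (G.coeff 0)‖ * (1 - ‖s‖) ^ m :=
    mul_pos (norm_pos_iff.mpr hz0) (pow_pos (by linarith) _)
  linarith

end

section

variable {O : Type} [CommRing O] [IsDomain O] [IsPrincipalIdealRing O] [Coef O] {P : Type}
  [Fintype P] [DecidableEq P] {L : Type} [AddCommGroup L] [Module.Free ℤ L] [Module.Finite ℤ L]
  {Q : Type} [AddCommGroup Q]

variable {phi : L →+ (P → ℤ)} {D : AO O L} {S : L} {i0 : P} {eta : (RO O)ˣ}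
  {h : co phi i0 S = 1} {g : Q} {l : L →+ Q} {r : Q} {p : RO O}

theorem supp_E {a : L} (ha : a ∈ supp (dcm g l r (cst p * D))) : a ∈ supp D := by
  intro h0
  apply supp_dcm ha
  have h1 : D.coeff a = 0 := h0
  change (cst p * D).coeff a = 0
  rw [Pool.Agent.B5.H96.cst_mul_coeff, h1, mul_zero]

theorem pos_E {lam : L →+ ℤ} (H : DC phi D S i0 eta h g l r p) (hS : lam S = 0)
    (hlam : ∀ a ∈ supp D, a ≠ 0 → a ≠ S → 0 < lam a) :
    Pos (lam + co phi i0) (dcm g l r (cst p * D)) := by
  intro a ha ha0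
  have ha' : a ∈ supp D := supp_E (Finsupp.mem_support_iff.1 ha)
  have hk : co phi i0 a = 0 ∨ co phi i0 a = 1 := H.cc.dd.bin a ha' i0
  change 0 < lam a + co phi i0 a
  rcases eq_or_ne a S with rfl | h1
  · rw [hS, h]
    norm_num
  · have := hlam _ ha' ha0 h1
    omega

/-- the homogeneous part is stable -/
theorem E_stable [Fintype Q] [Fintype (AddChar Q Circle)] (h2 : MultiS) (h3 : StSpecS)
    (h5 : B2cS) (h6 : G0S) (h7 : EvRS) (hA : A3bS) (hZ : ZfinS)
    (H : DC phi D S i0 eta h g l r p) : Stable (dcm g l r (cst p * D)) := by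
  obtain ⟨lam, hlS, hlam⟩ := H.cc.ray.2.2
  refine stable_of_generic h7 hA hZ _ (lam + co phi i0) (pos_E H hlS hlam)
    (p * (D.coeff 0 + (eta : RO O) * D.coeff S)) (mul_ne_zero H.p0 H.cc.v0) ?_
  intro z hz u s hs
  exact E_ne h2 h3 h5 h6 h7 H lam hlS hlam hz u s hs

/-- the homogeneous part is unitary, with the same exponent -/
theorem E_sharp (h6 : G0S) (H : DC phi D S i0 eta h g l r p) :
    ∃ (t : L) (c w : (RO O)ˣ), sharp D * AddMonoidAlgebra.single t (c : RO O) = D ∧
      sharp (dcm g l r (cst p * D)) * AddMonoidAlgebra.single t (w : RO O) =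
        dcm g l r (cst p * D) := by
  have hUm : ∀ a : L, ∀ c : (RO O)ˣ, ∃ s : Q, Hmg g l s (AddMonoidAlgebra.single a (c : RO O)) := by
    intro a c
    obtain ⟨n, u, hu⟩ := unit_mz c
    refine ⟨n • g + l a, ?_⟩
    classical
    intro b m hm
    rw [AddMonoidAlgebra.coeff_single, Finsupp.single_apply] at hm
    by_cases hab : a = b
    · rw [if_pos hab, hu] at hm
      unfold mz at hm
      rw [AddMonoidAlgebra.coeff_single, Finsupp.single_apply] at hm
      by_cases hnm : n = m
      · rw [← hnm, ← hab]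
      · rw [if_neg hnm] at hm
        exact absurd rfl hm
    · rw [if_neg hab] at hm
      exact absurd rfl hm
  -- the unit
  obtain ⟨w, hw⟩ := H.cc.dd.un
  obtain ⟨v, hv⟩ := H.pr
  obtain ⟨t, c, ⟨c', hc'⟩, htc⟩ := (Pool.Agent.B5.H03.una O L (w : AO O L)).1 w.isUnit
  set U : AO O L := AddMonoidAlgebra.single t ((c' * v : (RO O)ˣ) : RO O) with hU
  have hUu : IsUnit U := (Pool.Agent.B5.H03.una O L U).2 ⟨t, _, (c' * v).isUnit, rfl⟩
  have hsp : sharp (cst p * D) * U = cst p * D := by
    have h1 : sharp (cst p : AO O L) = cst (rsh p) := by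
      unfold cst
      rw [Pool.Agent.B5.H24.sharp_single, neg_zero]
    have h2 : U = cst (v : RO O) * (w : AO O L) := by
      rw [hU, htc, ← hc']
      unfold cst
      rw [AddMonoidAlgebra.single_mul_single, zero_add, Units.val_mul, mul_comm]
    rw [map_mul, h1, h2]
    have h3 : (cst p : AO O L) = cst (rsh p) * cst (v : RO O) := by
      unfold cst
      rw [AddMonoidAlgebra.single_mul_single, add_zero, hv]
    rw [h3]
    calc cst (rsh p) * sharp D * (cst (v : RO O) * (w : AO O L))
        = cst (rsh p) * cst (v : RO O) * (sharp D * (w : AO O L)) := by ring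
      _ = cst (rsh p) * cst (v : RO O) * D := by rw [hw]
  obtain ⟨s, hs⟩ := hUm t (c' * v)
  -- the degree of the unit
  have hdeg : r = s + -r := by
    set k := co phi i0 with hk
    have h1 : sharp (cst p * cl k S h eta D) * cl k S h eta U = cst p * cl k S h eta D := by
      have h2 := congrArg (cl k S h eta) hsp
      rw [map_mul (cl k S h eta), ← Pool.Agent.B5.H24.sharp_cl, map_mul (cl k S h eta) (cst p),
        cl_cst] at h2
      exact h2
    have h3 : Hmg g (l.comp (incl (Ker k))) s (cl k S h eta U) := by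
      have h4 := dcm_cl k S h eta g l s H.et U
      rw [dcm_of_hmg hs] at h4
      rw [h4]
      exact dcm_hmg _ _ _ _
    have h5 := hmg_mul h3 (hmg_sharp H.hm)
    rw [mul_comm, h1] at h5
    refine hmg_unique ?_ H.hm h5
    obtain ⟨g1, -, g3, -⟩ := h6 O P L phi D S i0 eta h H.cc
    intro h6
    have h7 : (cst p * cl k S h eta D).coeff 0 = 0 := by
      rw [h6]
      rfl
    rw [Pool.Agent.B5.H96.cst_mul_coeff] at h7
    exact mul_ne_zero H.p0 g1.1 h7
  have h8 : sharp (dcm g l r (cst p * D)) * U = dcm g l r (cst p * D) := by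
    rw [dcm_sharp, mul_comm]
    have h9 := dcm_mul hs r (sharp (cst p * D))
    rw [mul_comm U, hsp] at h9
    rw [h9]
    congr 2
    rw [eq_sub_iff_add_eq]
    rw [add_comm]
    exact hdeg.symm
  refine ⟨t, c', c' * v, ?_, h8⟩
  rw [hc', ← htc]
  exact hw

/-- the homogeneous part is unitary -/
theorem E_unitary (h6 : G0S) (H : DC phi D S i0 eta h g l r p) :
    Unitary (dcm g l r (cst p * D)) := by
  obtain ⟨t, c, w, -, h1⟩ := E_sharp h6 H
  have hu : IsUnit (AddMonoidAlgebra.single t (w : RO O) : AO O L) :=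
    (Pool.Agent.B5.H03.una O L _).2 ⟨t, _, w.isUnit, rfl⟩
  exact ⟨hu.unit, h1⟩

theorem mul_single_coeff (G : AO O L) (t a : L) (c : RO O) :
    (G * AddMonoidAlgebra.single t c).coeff a = G.coeff (a - t) * c := by
  rw [AddMonoidAlgebra.coeff_mul_single_eq_coeff_mul (a - t)]
  intro m' _
  constructor
  · intro h3
    rw [← h3, add_sub_cancel_right]
  · intro h3
    rw [h3, sub_add_cancel]

/-- an exponent of the homogeneous part which contains the port -/
theorem E_top (h6 : G0S) (H : DC phi D S i0 eta h g l r p)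
    (h0 : (dcm g l r (cst p * D)).coeff 0 ≠ 0) :
    ∃ t ∈ supp (dcm g l r (cst p * D)), co phi i0 t = 1 := by
  obtain ⟨t, c, w, h1, h2⟩ := E_sharp h6 H
  have hD := H.cc.dd
  have hne : ∀ (G : AO O L) (u : (RO O)ˣ), sharp G * AddMonoidAlgebra.single t (u : RO O) = G →
      ∀ a, G.coeff a ≠ 0 → G.coeff (t - a) ≠ 0 := by
    intro G u hG a ha
    rw [← hG, mul_single_coeff, sharp_coeff']
    refine mul_ne_zero ?_ u.ne_zero
    rw [sub_right_comm, sub_self, zero_sub, neg_neg]
    exact fun h3 => ha (Pool.Agent.B5.H59.rsh_eq_zero.mp h3)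
  have h3 := hne _ _ h2 0 h0
  rw [sub_zero] at h3
  refine ⟨t, h3, ?_⟩
  have h4 : D.coeff t ≠ 0 := supp_E h3
  have h5 : D.coeff (t - S) ≠ 0 := hne _ _ h1 S H.cc.ray.1
  have h6 : co phi i0 t = 0 ∨ co phi i0 t = 1 := hD.bin t h4 i0
  have h7 : co phi i0 (t - S) = 0 ∨ co phi i0 (t - S) = 1 := hD.bin _ h5 i0
  rw [map_sub, h] at h7
  omega

end

end Pool.Agent.B5.Dcm
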